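import Pool.Agent.MP_bced1d_lc.Grp

namespace Pool.Agent.MP_bced1d_lc

open Encodable

/-! ### Words and their evaluation -/

variable {K : Type} [Group K] {N : ℕ}

/-- letters: type `0` is `t`, type `1` is `t⁻¹`, type `2` multiplies by `κ` at symbol `s` -/
def lt (lam : Fin N → Option (Fin 12 × K)) (l : Fin N × Bool) : ℕ × ℕ × K :=
  match lam l.1 with
  | none => (if l.2 then 0 else 1, 0, 1)
  | some (s, κ) => (2, s.val, if l.2 then κ else κ⁻¹)

/-- one step of the evaluation on integer positions -/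
def stp (e : ℤ → ℕ) (p : ℤ × K) (q : ℕ × ℕ × K) : ℤ × K :=
  if q.1 = 0 then (p.1 + 1, p.2) else if q.1 = 1 then (p.1 - 1, p.2)
  else (p.1, if e p.1 = q.2.1 then p.2 * q.2.2 else p.2)

def run (lam : Fin N → Option (Fin 12 × K)) (e : ℤ → ℕ) (p : ℤ × K) (w : List (Fin N × Bool)) :
    ℤ × K := w.foldl (fun p l => stp e p (lt lam l)) p

def evalE (lam : Fin N → Option (Fin 12 × K)) (w : List (Fin N × Bool)) : El K :=
  evalWord (fun j => genE (lam j)) w

lemma evalWord_nil {G : Type} [Group G] (s : Fin N → G) : evalWord s [] = 1 := rfl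

lemma evalWord_cons {G : Type} [Group G] (s : Fin N → G) (l : Fin N × Bool)
    (w : List (Fin N × Bool)) :
    evalWord s (l :: w) = (if l.2 then s l.1 else (s l.1)⁻¹) * evalWord s w := by
  simp [evalWord]

lemma evalWord_append {G : Type} [Group G] (s : Fin N → G) (w w' : List (Fin N × Bool)) :
    evalWord s (w ++ w') = evalWord s w * evalWord s w' := by
  simp [evalWord]

lemma run_toe (lam : Fin N → Option (Fin 12 × K)) (d : Par) (i : ℤ)
    (w : List (Fin N × Bool)) :
    ∀ (x : ℤ) (k : K), run lam (fun y => (toe d (i + y)).val) (x, k) w =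
      (x + (evalE lam w).n, k * (evalE lam w).f d (i + x)) := by
  induction w with
  | nil => intro x k; simp [run, evalE, evalWord_nil]
  | cons l w ih =>
    intro x k
    have e1 : run lam (fun y => (toe d (i + y)).val) (x, k) (l :: w) =
        run lam (fun y => (toe d (i + y)).val)
          (stp (fun y => (toe d (i + y)).val) (x, k) (lt lam l)) w := rfl
    rw [e1]
    have e2 : evalE lam (l :: w) =
        (if l.2 then genE (lam l.1) else (genE (lam l.1))⁻¹) * evalE lam w := by
      simp [evalE, evalWord_cons]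
    rw [e2]
    obtain ⟨j, b⟩ := l
    unfold lt
    simp only
    cases hl : lam j with
    | none =>
      cases b with
      | true =>
        simp only [if_true, stp]
        rw [ih]
        simp [genE, add_assoc]
      | false =>
        simp only [stp]
        simp only [Bool.false_eq_true, if_false, one_ne_zero, if_true]
        rw [ih]
        simp only [genE, El.mul_n, El.inv_n, tE_n, El.mul_f, El.inv_f, tE_f]
        simp only [inv_one, one_mul]
        rw [show i + x + -1 = i + (x - 1) by ring, show x - 1 + (evalE lam w).n =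
          x + (-1 + (evalE lam w).n) by ring]
    | some sk =>
      obtain ⟨s, κ⟩ := sk
      simp only [stp]
      simp only [OfNat.ofNat_ne_zero, if_false, OfNat.ofNat_ne_one]
      rw [ih]
      have hsym : ((toe d (i + x)).val = s.val) ↔ (toe d (i + x) = s) := Fin.ext_iff.symm
      cases b with
      | true =>
        simp only [if_true, genE, El.mul_n, aE_n, zero_add, El.mul_f, add_zero]
        simp only [aE]
        by_cases h : toe d (i + x) = s
        · simp [h, mul_assoc]
        · have h' : ¬ (toe d (i + x)).val = s.val := fun h' => h (hsym.1 h')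
          simp [h, h']
      | false =>
        simp only [Bool.false_eq_true, if_false, genE, El.mul_n, aE_n, zero_add, El.mul_f,
          El.inv_n, neg_zero, add_zero, El.inv_f, sub_zero]
        simp only [aE]
        by_cases h : toe d (i + x) = s
        · simp [h, mul_assoc]
        · have h' : ¬ (toe d (i + x)).val = s.val := fun h' => h (hsym.1 h')
          simp [h, h']

lemma run_congr (lam : Fin N → Option (Fin 12 × K)) (w : List (Fin N × Bool)) :
    ∀ (e e' : ℤ → ℕ) (B : ℤ) (x : ℤ) (k : K), |x| + w.length ≤ B →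
      (∀ y, |y| ≤ B → e y = e' y) → run lam e (x, k) w = run lam e' (x, k) w := by
  induction w with
  | nil => intro e e' B x k _ _; rfl
  | cons l w ih =>
    intro e e' B x k hB h
    have hx : e x = e' x := by
      apply h
      have : (0 : ℤ) ≤ (l :: w).length := by positivity
      linarith
    show run lam e (stp e (x, k) (lt lam l)) w = run lam e' (stp e' (x, k) (lt lam l)) w
    have hlen : ((l :: w).length : ℤ) = w.length + 1 := by push_cast [List.length_cons]; ring
    rw [hlen] at hB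
    have hs : stp e (x, k) (lt lam l) = stp e' (x, k) (lt lam l) := by
      unfold stp; simp only [hx]
    rw [hs]
    have hb : |(stp e' (x, k) (lt lam l)).1| ≤ |x| + 1 := by
      unfold stp
      split_ifs
      · exact (abs_add_le x 1).trans (by simp)
      · exact (abs_sub x 1).trans (by simp)
      · simp
      · simp
    exact ih e e' B (stp e' (x, k) (lt lam l)).1 (stp e' (x, k) (lt lam l)).2 (by linarith) h

/-- residue modulo `2^m` as a natural number -/
def md (m : ℕ) (z : ℤ) : ℕ := (z % 2 ^ m).toNat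

lemma two_pow_pos' (m : ℕ) : (0 : ℤ) < 2 ^ m := by positivity

lemma md_cast (m : ℕ) (z : ℤ) : ((md m z : ℕ) : ℤ) = z % 2 ^ m :=
  Int.toNat_of_nonneg (Int.emod_nonneg _ (two_pow_pos' m).ne')

lemma md_lt (m : ℕ) (z : ℤ) : md m z < 2 ^ m := by
  have h := Int.emod_lt_of_pos z (two_pow_pos' m)
  rw [← md_cast] at h
  exact_mod_cast h

lemma md_eq_iff (m : ℕ) (z z' : ℤ) : md m z = md m z' ↔ (2 ^ m : ℤ) ∣ z - z' := by
  rw [← Int.natCast_inj, md_cast, md_cast]
  exact Int.emod_eq_emod_iff_emod_sub_eq_zero.trans (Int.dvd_iff_emod_eq_zero).symm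

lemma md_eq_zero (m : ℕ) (z : ℤ) : md m z = 0 ↔ (2 ^ m : ℤ) ∣ z := by
  have h0 : md m 0 = 0 := by simp [md]
  rw [← h0, md_eq_iff, sub_zero]

lemma md_natCast (m u : ℕ) (hu : u < 2 ^ m) : md m (u : ℤ) = u := by
  have : ((md m (u : ℤ) : ℕ) : ℤ) = (u : ℤ) := by
    rw [md_cast]
    exact Int.emod_eq_of_lt (by positivity) (by exact_mod_cast hu)
  exact_mod_cast this

lemma md_succ (m : ℕ) (z : ℤ) : md m (z + 1) = (md m z + 1) % 2 ^ m := by
  have h : (((md m z + 1) % 2 ^ m : ℕ) : ℤ) = (z + 1) % 2 ^ m := by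
    push_cast
    rw [md_cast]
    exact Int.emod_add_emod z _ 1
  rw [← md_cast] at h
  exact_mod_cast h.symm

lemma md_pred (m : ℕ) (z : ℤ) : md m (z - 1) = (md m z + (2 ^ m - 1)) % 2 ^ m := by
  have hp : 1 ≤ 2 ^ m := Nat.one_le_two_pow
  have h : (((md m z + (2 ^ m - 1)) % 2 ^ m : ℕ) : ℤ) = (z - 1) % 2 ^ m := by
    rw [Int.natCast_mod, Nat.cast_add, Nat.cast_sub hp]
    push_cast
    rw [md_cast]
    rw [Int.emod_add_emod]
    rw [show z + (2 ^ m - 1) = (z - 1) + 2 ^ m by ring]
    simp
  rw [← md_cast] at h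
  exact_mod_cast h.symm

/-- the symbol at residue `u` in the periodic approximation -/
def toeM (ρ h u : ℕ) : ℕ := if u = 0 then h else v2 u % 2 + 2 * dig 6 ρ (v2 u)

/-- one step of the evaluation on positions modulo `P` -/
def stpM (P ρ h : ℕ) (p : ℕ × K) (q : ℕ × ℕ × K) : ℕ × K :=
  if q.1 = 0 then ((p.1 + 1) % P, p.2) else if q.1 = 1 then ((p.1 + (P - 1)) % P, p.2)
  else (p.1, if toeM ρ h p.1 = q.2.1 then p.2 * q.2.2 else p.2)

def runM (lam : Fin N → Option (Fin 12 × K)) (P ρ h : ℕ) (p : ℕ × K)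
    (w : List (Fin N × Bool)) : ℕ × K := w.foldl (fun p l => stpM P ρ h p (lt lam l)) p

lemma runM_eq (lam : Fin N → Option (Fin 12 × K)) (m ρ h : ℕ) (c : ℤ)
    (w : List (Fin N × Bool)) : ∀ (x : ℤ) (k : K),
      runM lam (2 ^ m) ρ h (md m (c + x), k) w =
        (md m (c + (run lam (fun y => toeM ρ h (md m (c + y))) (x, k) w).1),
          (run lam (fun y => toeM ρ h (md m (c + y))) (x, k) w).2) := by
  induction w with
  | nil => intro x k; rfl
  | cons l w ih =>
    intro x k
    show runM lam (2 ^ m) ρ h (stpM (2 ^ m) ρ h (md m (c + x), k) (lt lam l)) w =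
      (md m (c + (run lam (fun y => toeM ρ h (md m (c + y)))
        (stp (fun y => toeM ρ h (md m (c + y))) (x, k) (lt lam l)) w).1),
          (run lam (fun y => toeM ρ h (md m (c + y)))
        (stp (fun y => toeM ρ h (md m (c + y))) (x, k) (lt lam l)) w).2)
    have : stpM (2 ^ m) ρ h (md m (c + x), k) (lt lam l) =
        (md m (c + (stp (fun y => toeM ρ h (md m (c + y))) (x, k) (lt lam l)).1),
          (stp (fun y => toeM ρ h (md m (c + y))) (x, k) (lt lam l)).2) := by
      unfold stpM stp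
      split_ifs
      · simp only; rw [← md_succ, add_assoc]
      · simp only; rw [← md_pred, add_sub_assoc]
      · rfl
      · rfl
    rw [this]
    exact ih _ _

/-! ### The check predicate -/

/-- numbers of letters `t` and `t⁻¹` -/
def cnt (lam : Fin N → Option (Fin 12 × K)) (w : List (Fin N × Bool)) : ℕ × ℕ :=
  w.foldl (fun p l => if (lt lam l).1 = 0 then (p.1 + 1, p.2)
    else if (lt lam l).1 = 1 then (p.1, p.2 + 1) else p) (0, 0)

lemma cnt_aux (lam : Fin N → Option (Fin 12 × K)) (w : List (Fin N × Bool)) :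
    ∀ p : ℕ × ℕ, let q := w.foldl (fun p l => if (lt lam l).1 = 0 then (p.1 + 1, p.2)
      else if (lt lam l).1 = 1 then (p.1, p.2 + 1) else p) p
      (q.1 : ℤ) - q.2 = p.1 - p.2 + (evalE lam w).n := by
  induction w with
  | nil => intro p; simp [evalE, evalWord_nil]
  | cons l w ih =>
    intro p
    have e2 : evalE lam (l :: w) =
        (if l.2 then genE (lam l.1) else (genE (lam l.1))⁻¹) * evalE lam w := by
      simp [evalE, evalWord_cons]
    simp only [List.foldl_cons]
    have ih' := ih (if (lt lam l).1 = 0 then (p.1 + 1, p.2)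
      else if (lt lam l).1 = 1 then (p.1, p.2 + 1) else p)
    simp only at ih'
    rw [ih', e2]
    obtain ⟨j, b⟩ := l
    unfold lt
    simp only
    cases hl : lam j with
    | none =>
      cases b with
      | true => simp [genE]; ring
      | false => simp [genE]; ring
    | some sk =>
      obtain ⟨s, κ⟩ := sk
      cases b with
      | true => simp [genE]
      | false => simp [genE]

lemma cnt_spec (lam : Fin N → Option (Fin 12 × K)) (w : List (Fin N × Bool)) :
    ((cnt lam w).1 : ℤ) - (cnt lam w).2 = (evalE lam w).n := by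
  have := cnt_aux lam w (0, 0)
  simpa [cnt] using this

def Killed6 (s m ρ : ℕ) : Prop := ∃ i < m, badn s i (dig 6 ρ i % 3) ∨ badn s i (dig 6 ρ i / 3)

/-- `CHK n b κ w s`: at stage `s` it is seen that `w` represents `ind (VV n b) κ`. -/
def CHK [DecidableEq K] (lam : Fin N → Option (Fin 12 × K)) (n b : ℕ) (κ : K)
    (w : List (Fin N × Bool)) (s : ℕ) : Prop :=
  (cnt lam w).1 = (cnt lam w).2 ∧
  ∀ c < 2 ^ (w.length + n + 2), ∀ ρ < 6 ^ (w.length + n + 2), ∀ h < 12,
    Killed6 s (w.length + n + 2) ρ ∨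
      (runM lam (2 ^ (w.length + n + 2)) ρ h (c, 1) w).2 = if dig 6 ρ n / 3 = b then κ else 1

lemma two_len_lt (L n : ℕ) : 2 * L < 2 ^ (L + n + 2) := by
  have h1 : L < 2 ^ L := Nat.lt_two_pow_self
  have h2 : 2 ^ (L + n + 2) = 2 ^ L * 2 ^ (n + 2) := by rw [add_assoc, pow_add]
  have h3 : 2 ≤ 2 ^ (n + 2) := by
    have := Nat.one_le_two_pow (n := n)
    rw [pow_add]; omega
  nlinarith

/-- the hole is unique in the window -/
lemma hole_unique {m : ℕ} {L : ℕ} (hL : 2 * L < 2 ^ m) {c y y' : ℤ} (hy : |y| ≤ L)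
    (hy' : |y'| ≤ L) (h : md m (c + y) = 0) (h' : md m (c + y') = 0) : y = y' := by
  rw [md_eq_zero] at h h'
  have hd : (2 ^ m : ℤ) ∣ y - y' := by
    have := Int.dvd_sub h h'
    rwa [show c + y - (c + y') = y - y' by ring] at this
  have hlt : |y - y'| < 2 ^ m := by
    have h1 : |y - y'| ≤ |y| + |y'| := abs_sub y y'
    have h2 : (2 * (L : ℤ)) < 2 ^ m := by exact_mod_cast hL
    linarith
  have := Int.eq_zero_of_abs_lt_dvd hd hlt
  linarith

lemma toe_agree {d : Par} {m ρ h : ℕ} (hρ : ∀ i < m, dig 6 ρ i = d.r i) {j : ℤ}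
    (hj : md m j ≠ 0) : (toe d j).val = toeM ρ h (md m j) := by
  have hnd : ¬ (2 ^ m : ℤ) ∣ j := fun h' => hj ((md_eq_zero m j).2 h')
  have hj0 : j ≠ 0 := by rintro rfl; exact hnd (dvd_zero _)
  obtain ⟨h1, h2⟩ := vZ_spec hj0
  have hvm : vZ j < m := by
    by_contra hcon
    exact hnd (dvd_trans (pow_dvd_pow 2 (by omega)) h1)
  have hcast : ((md m j : ℕ) : ℤ) = j % 2 ^ m := md_cast m j
  have hdv : ∀ k ≤ m, ((2 ^ k : ℤ) ∣ (md m j : ℤ) ↔ (2 ^ k : ℤ) ∣ j) := by
    intro k hk
    rw [hcast]
    have hk' : (2 ^ k : ℤ) ∣ 2 ^ m := pow_dvd_pow 2 hk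
    rw [Int.dvd_iff_emod_eq_zero, Int.dvd_iff_emod_eq_zero, Int.emod_emod_of_dvd _ hk']
  have hv : v2 (md m j) = vZ j := by
    apply v2_unique
    · have := (hdv _ hvm.le).2 h1
      exact_mod_cast this
    · intro h'
      apply h2
      rw [← hdv _ hvm]
      exact_mod_cast h'
  simp only [toe, if_neg hj0, toeM, if_neg hj, hv]
  rw [hρ _ hvm]

variable [DecidableEq K]

theorem CHK_sound {lam : Fin N → Option (Fin 12 × K)} {n b : ℕ} {κ : K}
    {w : List (Fin N × Bool)} {s : ℕ} (h : CHK lam n b κ w s) :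
    evalE lam w = ind (VV n b) κ := by
  obtain ⟨hc, h⟩ := h
  have hn : (evalE lam w).n = 0 := by
    rw [← cnt_spec, hc]; ring
  ext d i
  · set m := w.length + n + 2 with hm
    obtain ⟨ρ, hρ, hρd⟩ := exists_dig (b := 6) (by norm_num) m d.r (fun i => (d.ok i).1)
    -- the hole symbol
    obtain ⟨hs, hs12, hsym⟩ : ∃ hs < 12, ∀ y : ℤ, |y| ≤ w.length →
        (toe d (i + y)).val = toeM ρ hs (md m (i + y)) := by
      by_cases hex : ∃ y : ℤ, |y| ≤ w.length ∧ md m (i + y) = 0
      · obtain ⟨y₀, hy₀, hy₀'⟩ := hex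
        refine ⟨(toe d (i + y₀)).val, (toe d (i + y₀)).isLt, ?_⟩
        intro y hy
        by_cases h0 : md m (i + y) = 0
        · have := hole_unique (two_len_lt w.length n) hy hy₀ h0 hy₀'
          subst this
          rw [h0]; simp [toeM]
        · exact toe_agree hρd h0
      · refine ⟨0, by norm_num, ?_⟩
        intro y hy
        exact toe_agree hρd (fun h0 => hex ⟨y, hy, h0⟩)
    have hnk : ¬ Killed6 s m ρ := by
      rintro ⟨j, hj, hb⟩
      rw [hρd j hj] at hb
      rcases hb with hb | hb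
      · exact (d.ok j).2.1 (bad_iff.2 ⟨s, hb⟩)
      · exact (d.ok j).2.2 (bad_iff.2 ⟨s, hb⟩)
    have hmain := (h (md m i) (md_lt m i) ρ hρ hs hs12).resolve_left hnk
    have e1 := runM_eq lam m ρ hs i w 0 1
    rw [add_zero] at e1
    rw [e1] at hmain
    simp only at hmain
    have e2 : run lam (fun y => toeM ρ hs (md m (i + y))) (0, 1) w =
        run lam (fun y => (toe d (i + y)).val) (0, 1) w := by
      apply run_congr lam w _ _ w.length
      · simp
      · intro y hy; exact (hsym y hy).symm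
    rw [e2, run_toe] at hmain
    simp only [one_mul, add_zero] at hmain
    rw [hmain, hρd n (by omega)]
    by_cases hV : d.r n / 3 = b
    · rw [ind_pos (U := VV n b) hV, if_pos hV]
    · rw [ind_neg (U := VV n b) hV, if_neg hV]
  · simp [hn]

theorem CHK_complete {lam : Fin N → Option (Fin 12 × K)} {n b : ℕ} {κ : K}
    {w : List (Fin N × Bool)} (h : evalE lam w = ind (VV n b) κ) : ∃ s, CHK lam n b κ w s := by
  classical
  set m := w.length + n + 2 with hm
  have hcnt : (cnt lam w).1 = (cnt lam w).2 := by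
    have := cnt_spec lam w
    rw [h, ind_n] at this
    omega
  -- the finitely many conditions
  have hall : ∀ t : ℕ, t < 2 ^ m * (6 ^ m * 12) → ∃ s, Killed6 s m (t / 12 % 6 ^ m) ∨
      (runM lam (2 ^ m) (t / 12 % 6 ^ m) (t % 12) (t / 12 / 6 ^ m, 1) w).2 =
        if dig 6 (t / 12 % 6 ^ m) n / 3 = b then κ else 1 := by
    intro t ht
    by_contra hcon
    push Not at hcon
    set ρ := t / 12 % 6 ^ m with hρ
    set hh := t % 12 with hhh
    set c := t / 12 / 6 ^ m with hcc
    have hh12 : hh < 12 := Nat.mod_lt _ (by norm_num)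
    have hc2 : c < 2 ^ m := by
      rw [hcc, Nat.div_div_eq_div_mul]
      apply Nat.div_lt_of_lt_mul
      calc t < 2 ^ m * (6 ^ m * 12) := ht
        _ = 12 * 6 ^ m * 2 ^ m := by ring
    have hne : (runM lam (2 ^ m) ρ hh (c, 1) w).2 ≠ if dig 6 ρ n / 3 = b then κ else 1 :=
      (hcon 0).2
    have hok : ∀ i < m, Allowed i (dig 6 ρ i) := by
      intro i hi
      refine ⟨dig_lt (by norm_num) _ _, ?_, ?_⟩
      · intro hb
        obtain ⟨s, hs⟩ := bad_iff.1 hb
        exact (hcon s).1 ⟨i, hi, Or.inl hs⟩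
      · intro hb
        obtain ⟨s, hs⟩ := bad_iff.1 hb
        exact (hcon s).1 ⟨i, hi, Or.inr hs⟩
    choose al hal using exists_allowed
    let d : Par := ⟨fun i => if i < m then dig 6 ρ i else al i, ⟨hh, hh12⟩, by
      intro i
      by_cases hi : i < m
      · simp only [if_pos hi]; exact hok i hi
      · simp only [if_neg hi]; exact hal i⟩
    have hρd : ∀ i < m, dig 6 ρ i = d.r i := by
      intro i hi; simp only [d, if_pos hi]
    -- the right shift
    obtain ⟨i, hi⟩ : ∃ i : ℤ, ∀ y : ℤ, |y| ≤ w.length →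
        (toe d (i + y)).val = toeM ρ hh (md m ((c : ℤ) + y)) := by
      by_cases hex : ∃ y : ℤ, |y| ≤ w.length ∧ md m ((c : ℤ) + y) = 0
      · obtain ⟨y₀, hy₀, hy₀'⟩ := hex
        refine ⟨-y₀, ?_⟩
        intro y hy
        by_cases h0 : md m ((c : ℤ) + y) = 0
        · have := hole_unique (two_len_lt w.length n) hy hy₀ h0 hy₀'
          subst this
          rw [h0]
          have e0 : -y + y = 0 := by ring
          rw [e0]
          simp [toe, toeM, d]
        · have e1 : md m (-y₀ + y) = md m ((c : ℤ) + y) := by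
            rw [md_eq_iff]
            rw [md_eq_zero] at hy₀'
            have := (Int.dvd_neg).2 hy₀'
            rwa [show -((c : ℤ) + y₀) = -y₀ + y - (c + y) by ring] at this
          rw [← e1]
          rw [← e1] at h0
          exact toe_agree hρd h0
      · refine ⟨c, ?_⟩
        intro y hy
        exact toe_agree hρd (fun h0 => hex ⟨y, hy, h0⟩)
    apply hne
    have e1 := runM_eq lam m ρ hh c w 0 1
    rw [add_zero, md_natCast m c hc2] at e1
    rw [e1]
    simp only
    have e2 : run lam (fun y => toeM ρ hh (md m ((c : ℤ) + y))) (0, 1) w =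
        run lam (fun y => (toe d (i + y)).val) (0, 1) w := by
      apply run_congr lam w _ _ w.length
      · simp
      · intro y hy; exact (hi y hy).symm
    rw [e2, run_toe, h, hρd n (by omega)]
    simp only [one_mul, add_zero]
    by_cases hV : d.r n / 3 = b
    · rw [ind_pos (U := VV n b) hV, if_pos hV]
    · rw [ind_neg (U := VV n b) hV, if_neg hV]
  obtain ⟨s, hs⟩ := exists_common (2 ^ m * (6 ^ m * 12))
    (fun t s => Killed6 s m (t / 12 % 6 ^ m) ∨
      (runM lam (2 ^ m) (t / 12 % 6 ^ m) (t % 12) (t / 12 / 6 ^ m, 1) w).2 =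
        if dig 6 (t / 12 % 6 ^ m) n / 3 = b then κ else 1) (by
      rintro t s s' hss (⟨i, hi, hb⟩ | hr)
      · left
        refine ⟨i, hi, ?_⟩
        rcases hb with hb | hb
        · exact Or.inl (badn_mono hss hb)
        · exact Or.inr (badn_mono hss hb)
      · exact Or.inr hr) hall
  refine ⟨s, hcnt, ?_⟩
  intro c hc ρ hρ hh hh12
  have hρ' : ρ < 6 ^ m := hρ
  have hc' : c < 2 ^ m := hc
  have ht := hs ((c * 6 ^ m + ρ) * 12 + hh) (by
    have h1 : c * 6 ^ m + ρ < 2 ^ m * 6 ^ m := by
      calc c * 6 ^ m + ρ < c * 6 ^ m + 6 ^ m := by omega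
        _ = (c + 1) * 6 ^ m := by ring
        _ ≤ 2 ^ m * 6 ^ m := Nat.mul_le_mul_right _ hc'
    calc (c * 6 ^ m + ρ) * 12 + hh < (c * 6 ^ m + ρ + 1) * 12 := by omega
      _ ≤ (2 ^ m * 6 ^ m) * 12 := Nat.mul_le_mul_right _ h1
      _ = 2 ^ m * (6 ^ m * 12) := by ring)
  have e1 : ((c * 6 ^ m + ρ) * 12 + hh) % 12 = hh := by omega
  have e2 : ((c * 6 ^ m + ρ) * 12 + hh) / 12 = c * 6 ^ m + ρ := by omega
  have e3 : (c * 6 ^ m + ρ) % 6 ^ m = ρ := by
    rw [Nat.mul_add_mod_self_right]; exact Nat.mod_eq_of_lt hρ'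
  have e4 : (c * 6 ^ m + ρ) / 6 ^ m = c := by
    rw [Nat.mul_comm, Nat.mul_add_div (by positivity), Nat.div_eq_of_lt hρ', add_zero]
  rw [e1, e2, e3, e4] at ht
  exact ht

end Pool.Agent.MP_bced1d_lc
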