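import Pool.Agent.MP_bced1d_lc.Check

namespace Pool.Agent.MP_bced1d_lc

open Encodable

/-! ### Computability of the check predicate -/

lemma primrec_v2 : Primrec v2 := by
  have h : PrimrecRel (fun (u k : ℕ) => 2 ^ k ∣ u) := by
    have h1 : PrimrecRel (fun (u k : ℕ) => u % 2 ^ k = 0) :=
      Primrec.eq.comp (Primrec.nat_mod.comp Primrec.fst
        (primrec_pow.comp (Primrec.const 2) Primrec.snd)) (Primrec.const 0)
    exact h1.of_eq (fun p k => (Nat.dvd_iff_mod_eq_zero).symm)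
  exact Primrec.nat_findGreatest (p := fun u k => 2 ^ k ∣ u) Primrec.id h

lemma primrec_toeM : Primrec (fun q : ℕ × ℕ × ℕ => toeM q.1 q.2.1 q.2.2) := by
  refine Primrec.ite ?_ ?_ ?_
  · exact Primrec.eq.comp (Primrec.snd.comp Primrec.snd) (Primrec.const 0)
  · exact Primrec.fst.comp Primrec.snd
  · have hv : Primrec (fun q : ℕ × ℕ × ℕ => v2 q.2.2) :=
      primrec_v2.comp (Primrec.snd.comp Primrec.snd)
    exact Primrec.nat_add.comp (Primrec.nat_mod.comp hv (Primrec.const 2))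
      (Primrec.nat_mul.comp (Primrec.const 2) ((primrec_dig 6).comp Primrec.fst hv))

section
variable {K : Type} [Group K] [Primcodable K] {N : ℕ}

lemma primrec_mulK [Finite K] : Primrec₂ ((· * ·) : K → K → K) :=
  Primrec.dom_finite (fun p : K × K => p.1 * p.2)

lemma primrec_lt (lam : Fin N → Option (Fin 12 × K)) : Primrec (lt lam) :=
  Primrec.dom_finite _

lemma primrec_stpM [Finite K] : Primrec (fun q : (ℕ × ℕ × ℕ) × (ℕ × K) × (ℕ × ℕ × K) =>
    stpM q.1.1 q.1.2.1 q.1.2.2 q.2.1 q.2.2) := by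
  have hP : Primrec (fun q : (ℕ × ℕ × ℕ) × (ℕ × K) × (ℕ × ℕ × K) => q.1.1) :=
    Primrec.fst.comp Primrec.fst
  have hρ : Primrec (fun q : (ℕ × ℕ × ℕ) × (ℕ × K) × (ℕ × ℕ × K) => q.1.2.1) :=
    Primrec.fst.comp (Primrec.snd.comp Primrec.fst)
  have hh : Primrec (fun q : (ℕ × ℕ × ℕ) × (ℕ × K) × (ℕ × ℕ × K) => q.1.2.2) :=
    Primrec.snd.comp (Primrec.snd.comp Primrec.fst)
  have hp1 : Primrec (fun q : (ℕ × ℕ × ℕ) × (ℕ × K) × (ℕ × ℕ × K) => q.2.1.1) :=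
    Primrec.fst.comp (Primrec.fst.comp Primrec.snd)
  have hp2 : Primrec (fun q : (ℕ × ℕ × ℕ) × (ℕ × K) × (ℕ × ℕ × K) => q.2.1.2) :=
    Primrec.snd.comp (Primrec.fst.comp Primrec.snd)
  have hq1 : Primrec (fun q : (ℕ × ℕ × ℕ) × (ℕ × K) × (ℕ × ℕ × K) => q.2.2.1) :=
    Primrec.fst.comp (Primrec.snd.comp Primrec.snd)
  have hq2 : Primrec (fun q : (ℕ × ℕ × ℕ) × (ℕ × K) × (ℕ × ℕ × K) => q.2.2.2.1) :=
    Primrec.fst.comp (Primrec.snd.comp (Primrec.snd.comp Primrec.snd))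
  have hq3 : Primrec (fun q : (ℕ × ℕ × ℕ) × (ℕ × K) × (ℕ × ℕ × K) => q.2.2.2.2) :=
    Primrec.snd.comp (Primrec.snd.comp (Primrec.snd.comp Primrec.snd))
  refine Primrec.ite (Primrec.eq.comp hq1 (Primrec.const 0)) ?_
    (Primrec.ite (Primrec.eq.comp hq1 (Primrec.const 1)) ?_ ?_)
  · exact Primrec.pair (Primrec.nat_mod.comp (Primrec.succ.comp hp1) hP) hp2
  · exact Primrec.pair (Primrec.nat_mod.comp
      (Primrec.nat_add.comp hp1 (Primrec.nat_sub.comp hP (Primrec.const 1))) hP) hp2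
  · refine Primrec.pair hp1 (Primrec.ite ?_ ?_ hp2)
    · exact Primrec.eq.comp (primrec_toeM.comp (Primrec.pair hρ (Primrec.pair hh hp1))) hq2
    · exact primrec_mulK.comp hp2 hq3

lemma primrec_runM_step [Finite K] (lam : Fin N → Option (Fin 12 × K)) :
    Primrec₂ (fun (q : (ℕ × ℕ × ℕ) × (ℕ × K) × List (Fin N × Bool))
      (r : (ℕ × K) × (Fin N × Bool)) =>
      stpM q.1.1 q.1.2.1 q.1.2.2 r.1 (lt lam r.2)) := by
  have h1 : Primrec (fun p : ((ℕ × ℕ × ℕ) × (ℕ × K) × List (Fin N × Bool)) ×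
      ((ℕ × K) × (Fin N × Bool)) => ((p.1.1, (p.2.1, lt lam p.2.2)) :
        (ℕ × ℕ × ℕ) × (ℕ × K) × (ℕ × ℕ × K))) :=
    (Primrec.pair (Primrec.fst.comp Primrec.fst) (Primrec.pair (Primrec.fst.comp Primrec.snd)
        ((primrec_lt lam).comp (Primrec.snd.comp Primrec.snd))))
  have h2 := (primrec_stpM (K := K)).comp h1
  exact h2

lemma primrec_runM [Finite K] (lam : Fin N → Option (Fin 12 × K)) :
    Primrec (fun q : (ℕ × ℕ × ℕ) × (ℕ × K) × List (Fin N × Bool) =>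
      runM lam q.1.1 q.1.2.1 q.1.2.2 q.2.1 q.2.2) := by
  have h := Primrec.list_foldl (f := fun q : (ℕ × ℕ × ℕ) × (ℕ × K) × List (Fin N × Bool) => q.2.2)
    (g := fun q : (ℕ × ℕ × ℕ) × (ℕ × K) × List (Fin N × Bool) => q.2.1)
    (h := fun (q : (ℕ × ℕ × ℕ) × (ℕ × K) × List (Fin N × Bool))
      (r : (ℕ × K) × (Fin N × Bool)) =>
      stpM q.1.1 q.1.2.1 q.1.2.2 r.1 (lt lam r.2))
    (Primrec.snd.comp Primrec.snd) (Primrec.fst.comp Primrec.snd) (primrec_runM_step lam)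
  exact h.of_eq (fun q => rfl)

lemma primrec_cnt (lam : Fin N → Option (Fin 12 × K)) : Primrec (cnt lam) := by
  have h : Primrec₂ (fun (_ : List (Fin N × Bool)) (r : (ℕ × ℕ) × (Fin N × Bool)) =>
      if (lt lam r.2).1 = 0 then (r.1.1 + 1, r.1.2)
      else if (lt lam r.2).1 = 1 then (r.1.1, r.1.2 + 1) else r.1) := by
    have hl : Primrec (fun p : List (Fin N × Bool) × ((ℕ × ℕ) × (Fin N × Bool)) =>
        (lt lam p.2.2).1) :=
      Primrec.fst.comp ((primrec_lt lam).comp (Primrec.snd.comp Primrec.snd))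
    refine Primrec.ite (Primrec.eq.comp hl (Primrec.const 0)) ?_
      (Primrec.ite (Primrec.eq.comp hl (Primrec.const 1)) ?_ ?_)
    · exact Primrec.pair (Primrec.succ.comp (Primrec.fst.comp (Primrec.fst.comp Primrec.snd)))
        (Primrec.snd.comp (Primrec.fst.comp Primrec.snd))
    · exact Primrec.pair (Primrec.fst.comp (Primrec.fst.comp Primrec.snd))
        (Primrec.succ.comp (Primrec.snd.comp (Primrec.fst.comp Primrec.snd)))
    · exact Primrec.fst.comp Primrec.snd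
  have h' := Primrec.list_foldl (f := fun w : List (Fin N × Bool) => w)
    (g := fun _ : List (Fin N × Bool) => ((0, 0) : ℕ × ℕ)) Primrec.id (Primrec.const (0, 0)) h
  exact h'.of_eq (fun q => rfl)

lemma primrec_killed6 : PrimrecPred fun p : ℕ × ℕ × ℕ => Killed6 p.1 p.2.1 p.2.2 := by
  have h : PrimrecRel (fun (i : ℕ) (a : ℕ × ℕ × ℕ) =>
      badn a.1 i (dig 6 a.2.2 i % 3) ∨ badn a.1 i (dig 6 a.2.2 i / 3)) := by
    have hd : Primrec (fun p : ℕ × (ℕ × ℕ × ℕ) => dig 6 p.2.2.2 p.1) :=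
      (primrec_dig 6).comp (Primrec.snd.comp (Primrec.snd.comp Primrec.snd)) Primrec.fst
    refine PrimrecPred.or ?_ ?_
    · exact primrec_badn.comp (f := fun p : ℕ × (ℕ × ℕ × ℕ) => (p.2.1, p.1, dig 6 p.2.2.2 p.1 % 3))
        (Primrec.pair (Primrec.fst.comp Primrec.snd) (Primrec.pair Primrec.fst
          (Primrec.nat_mod.comp hd (Primrec.const 3))))
    · exact primrec_badn.comp (f := fun p : ℕ × (ℕ × ℕ × ℕ) => (p.2.1, p.1, dig 6 p.2.2.2 p.1 / 3))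
        (Primrec.pair (Primrec.fst.comp Primrec.snd) (Primrec.pair Primrec.fst
          (Primrec.nat_div.comp hd (Primrec.const 3))))
  exact pp_exists h (Primrec.fst.comp Primrec.snd)

/-- the innermost condition of the check predicate -/
def Body [DecidableEq K] (lam : Fin N → Option (Fin 12 × K))
    (a : (ℕ × ℕ × K) × List (Fin N × Bool) × ℕ) (c ρ h : ℕ) : Prop :=
  Killed6 a.2.2 (a.2.1.length + a.1.1 + 2) ρ ∨
    (runM lam (2 ^ (a.2.1.length + a.1.1 + 2)) ρ h (c, 1) a.2.1).2 =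
      if dig 6 ρ a.1.1 / 3 = a.1.2.1 then a.1.2.2 else 1

omit [Group K] in
lemma primrec_lev : Primrec (fun a : (ℕ × ℕ × K) × List (Fin N × Bool) × ℕ =>
      a.2.1.length + a.1.1 + 2) :=
    Primrec.succ.comp (Primrec.succ.comp (Primrec.nat_add.comp
      (Primrec.list_length.comp (Primrec.fst.comp Primrec.snd)) (Primrec.fst.comp Primrec.fst)))

variable [DecidableEq K]

seal runM in
lemma primrec_body [Finite K] (lam : Fin N → Option (Fin 12 × K)) :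
    PrimrecPred (fun q : ((ℕ × ℕ × K) × List (Fin N × Bool) × ℕ) × (ℕ × ℕ × ℕ) =>
      Body lam q.1 q.2.1 q.2.2.1 q.2.2.2) := by
  have ha : Primrec (fun q : ((ℕ × ℕ × K) × List (Fin N × Bool) × ℕ) × (ℕ × ℕ × ℕ) => q.1) :=
    Primrec.fst
  have hc : Primrec (fun q : ((ℕ × ℕ × K) × List (Fin N × Bool) × ℕ) × (ℕ × ℕ × ℕ) => q.2.1) :=
    Primrec.fst.comp Primrec.snd
  have hρ : Primrec (fun q : ((ℕ × ℕ × K) × List (Fin N × Bool) × ℕ) × (ℕ × ℕ × ℕ) => q.2.2.1) :=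
    Primrec.fst.comp (Primrec.snd.comp Primrec.snd)
  have hh : Primrec (fun q : ((ℕ × ℕ × K) × List (Fin N × Bool) × ℕ) × (ℕ × ℕ × ℕ) => q.2.2.2) :=
    Primrec.snd.comp (Primrec.snd.comp Primrec.snd)
  have hM := (primrec_lev (K := K) (N := N)).comp ha
  have hn : Primrec (fun q : ((ℕ × ℕ × K) × List (Fin N × Bool) × ℕ) × (ℕ × ℕ × ℕ) => q.1.1.1) :=
    Primrec.fst.comp (Primrec.fst.comp ha)
  have hb : Primrec (fun q : ((ℕ × ℕ × K) × List (Fin N × Bool) × ℕ) × (ℕ × ℕ × ℕ) =>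
      q.1.1.2.1) := Primrec.fst.comp (Primrec.snd.comp (Primrec.fst.comp ha))
  have hκ : Primrec (fun q : ((ℕ × ℕ × K) × List (Fin N × Bool) × ℕ) × (ℕ × ℕ × ℕ) =>
      q.1.1.2.2) := Primrec.snd.comp (Primrec.snd.comp (Primrec.fst.comp ha))
  have hw : Primrec (fun q : ((ℕ × ℕ × K) × List (Fin N × Bool) × ℕ) × (ℕ × ℕ × ℕ) =>
      q.1.2.1) := Primrec.fst.comp (Primrec.snd.comp ha)
  have hs : Primrec (fun q : ((ℕ × ℕ × K) × List (Fin N × Bool) × ℕ) × (ℕ × ℕ × ℕ) =>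
      q.1.2.2) := Primrec.snd.comp (Primrec.snd.comp ha)
  have h1 : PrimrecPred (fun q : ((ℕ × ℕ × K) × List (Fin N × Bool) × ℕ) × (ℕ × ℕ × ℕ) =>
      Killed6 q.1.2.2 (q.1.2.1.length + q.1.1.1 + 2) q.2.2.1) :=
    primrec_killed6.comp (f := fun q : ((ℕ × ℕ × K) × List (Fin N × Bool) × ℕ) × (ℕ × ℕ × ℕ) =>
      (q.1.2.2, q.1.2.1.length + q.1.1.1 + 2, q.2.2.1)) (Primrec.pair hs (Primrec.pair hM hρ))
  have h2 : Primrec (fun q : ((ℕ × ℕ × K) × List (Fin N × Bool) × ℕ) × (ℕ × ℕ × ℕ) =>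
      (runM lam (2 ^ (q.1.2.1.length + q.1.1.1 + 2)) q.2.2.1 q.2.2.2 (q.2.1, 1) q.1.2.1).2) := by
    have h2a : Primrec (fun q : ((ℕ × ℕ × K) × List (Fin N × Bool) × ℕ) × (ℕ × ℕ × ℕ) =>
      (((2 ^ (q.1.2.1.length + q.1.1.1 + 2), q.2.2.1, q.2.2.2), ((q.2.1, 1), q.1.2.1)) :
        (ℕ × ℕ × ℕ) × (ℕ × K) × List (Fin N × Bool))) :=
      Primrec.pair (Primrec.pair (primrec_pow.comp (Primrec.const 2) hM) (Primrec.pair hρ hh))
        (Primrec.pair (Primrec.pair hc (Primrec.const 1)) hw)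
    have h2b := (primrec_runM lam).comp h2a
    simp only at h2b
    exact Primrec.snd.comp h2b
  have h3 : Primrec (fun q : ((ℕ × ℕ × K) × List (Fin N × Bool) × ℕ) × (ℕ × ℕ × ℕ) =>
      if dig 6 q.2.2.1 q.1.1.1 / 3 = q.1.1.2.1 then q.1.1.2.2 else 1) :=
    Primrec.ite (Primrec.eq.comp (Primrec.nat_div.comp ((primrec_dig 6).comp hρ hn)
      (Primrec.const 3)) hb) hκ (Primrec.const 1)
  exact PrimrecPred.or h1 (Primrec.eq.comp h2 h3)

seal Body in
lemma primrec_CHK_aux [Finite K] (lam : Fin N → Option (Fin 12 × K)) :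
    PrimrecPred fun a : (ℕ × ℕ × K) × List (Fin N × Bool) × ℕ =>
      (cnt lam a.2.1).1 = (cnt lam a.2.1).2 ∧ ∀ c < 2 ^ (a.2.1.length + a.1.1 + 2),
        ∀ ρ < 6 ^ (a.2.1.length + a.1.1 + 2), ∀ h < 12, Body lam a c ρ h := by
  have h1 : PrimrecRel (fun (h : ℕ) (q : ℕ × ℕ × ((ℕ × ℕ × K) × List (Fin N × Bool) × ℕ)) =>
      Body lam q.2.2 q.2.1 q.1 h) := by
    have h1a : Primrec (fun p : ℕ × (ℕ × ℕ × ((ℕ × ℕ × K) × List (Fin N × Bool) × ℕ)) =>
        ((p.2.2.2, (p.2.2.1, p.2.1, p.1)) :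
          ((ℕ × ℕ × K) × List (Fin N × Bool) × ℕ) × (ℕ × ℕ × ℕ))) :=
      Primrec.pair (Primrec.snd.comp (Primrec.snd.comp Primrec.snd))
        (Primrec.pair (Primrec.fst.comp (Primrec.snd.comp Primrec.snd))
          (Primrec.pair (Primrec.fst.comp Primrec.snd) Primrec.fst))
    exact (primrec_body lam).comp h1a
  have h2 : PrimrecPred (fun q : ℕ × ℕ × ((ℕ × ℕ × K) × List (Fin N × Bool) × ℕ) =>
      ∀ h < 12, Body lam q.2.2 q.2.1 q.1 h) :=
    pp_forall (p := fun (h : ℕ) (q : ℕ × ℕ × ((ℕ × ℕ × K) × List (Fin N × Bool) × ℕ)) =>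
      Body lam q.2.2 q.2.1 q.1 h) h1 (f := fun _ => 12) (Primrec.const 12)
  have h3 : PrimrecRel (fun (ρ : ℕ) (q : ℕ × ((ℕ × ℕ × K) × List (Fin N × Bool) × ℕ)) =>
      ∀ h < 12, Body lam q.2 q.1 ρ h) := h2
  have hM := (primrec_lev (K := K) (N := N))
  have h4 : PrimrecPred (fun q : ℕ × ((ℕ × ℕ × K) × List (Fin N × Bool) × ℕ) =>
      ∀ ρ < 6 ^ (q.2.2.1.length + q.2.1.1 + 2), ∀ h < 12, Body lam q.2 q.1 ρ h) :=
    pp_forall (p := fun (ρ : ℕ) (q : ℕ × ((ℕ × ℕ × K) × List (Fin N × Bool) × ℕ)) =>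
      ∀ h < 12, Body lam q.2 q.1 ρ h) h3
      (f := fun q : ℕ × ((ℕ × ℕ × K) × List (Fin N × Bool) × ℕ) =>
        6 ^ (q.2.2.1.length + q.2.1.1 + 2))
      (primrec_pow.comp (Primrec.const 6) (hM.comp Primrec.snd))
  have h5 : PrimrecRel (fun (c : ℕ) (a : (ℕ × ℕ × K) × List (Fin N × Bool) × ℕ) =>
      ∀ ρ < 6 ^ (a.2.1.length + a.1.1 + 2), ∀ h < 12, Body lam a c ρ h) := h4
  have h6 : PrimrecPred (fun a : (ℕ × ℕ × K) × List (Fin N × Bool) × ℕ =>
      ∀ c < 2 ^ (a.2.1.length + a.1.1 + 2), ∀ ρ < 6 ^ (a.2.1.length + a.1.1 + 2),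
        ∀ h < 12, Body lam a c ρ h) :=
    pp_forall (p := fun (c : ℕ) (a : (ℕ × ℕ × K) × List (Fin N × Bool) × ℕ) =>
      ∀ ρ < 6 ^ (a.2.1.length + a.1.1 + 2), ∀ h < 12, Body lam a c ρ h) h5
      (f := fun a : (ℕ × ℕ × K) × List (Fin N × Bool) × ℕ => 2 ^ (a.2.1.length + a.1.1 + 2))
      (primrec_pow.comp (Primrec.const 2) hM)
  have hcnt : Primrec (fun a : (ℕ × ℕ × K) × List (Fin N × Bool) × ℕ => cnt lam a.2.1) :=
    (primrec_cnt lam).comp (Primrec.fst.comp Primrec.snd)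
  have h7 : PrimrecPred (fun a : (ℕ × ℕ × K) × List (Fin N × Bool) × ℕ =>
      (cnt lam a.2.1).1 = (cnt lam a.2.1).2) :=
    Primrec.eq.comp (Primrec.fst.comp hcnt) (Primrec.snd.comp hcnt)
  exact PrimrecPred.and h7 h6

/-- the check predicate is primitive recursive -/
lemma primrec_CHK [Finite K] (lam : Fin N → Option (Fin 12 × K)) :
    PrimrecPred fun a : (ℕ × ℕ × K) × List (Fin N × Bool) × ℕ =>
      CHK lam a.1.1 a.1.2.1 a.1.2.2 a.2.1 a.2.2 :=
  (primrec_CHK_aux lam).of_eq (fun _ => Iff.rfl)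

end

lemma rePred_exists {α : Type} [Primcodable α] {P : α → ℕ → Prop} (hP : PrimrecRel P) :
    REPred fun a => ∃ s, P a s := by
  classical
  have hd : Primrec₂ (fun a s => decide (P a s)) := hP.decide
  have h : Partrec fun a => (Nat.rfind fun s => (Part.some (decide (P a s)) : Part Bool)) :=
    Partrec.rfind (p := fun a s => (Part.some (decide (P a s)) : Part Bool)) hd.to_comp.partrec₂
  have h2 : Partrec fun a => (Nat.rfind fun s => (Part.some (decide (P a s)) : Part Bool)).map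
      (fun _ => ()) := h.map (Computable.const ()).to₂
  refine h2.of_eq ?_
  intro a
  ext u
  simp only [Part.mem_map_iff, Part.mem_assert_iff, Part.mem_some_iff]
  constructor
  · rintro ⟨s, hs, _⟩
    rw [Nat.mem_rfind] at hs
    have := hs.1
    simp only [Part.mem_some_iff] at this
    simp only [exists_prop, and_true]
    exact ⟨s, of_decide_eq_true this.symm⟩
  · rintro ⟨hex, _⟩
    refine ⟨Nat.find hex, ?_, trivial⟩
    rw [Nat.mem_rfind]
    refine ⟨?_, ?_⟩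
    · simp only [Part.mem_some_iff]
      exact (decide_eq_true (Nat.find_spec hex)).symm
    · intro m hm
      simp only [Part.mem_some_iff]
      exact (decide_eq_false (Nat.find_min hex hm)).symm

end Pool.Agent.MP_bced1d_lc
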