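import Pool.Agent.MP_bced1d_lc.Func

namespace Pool.Agent.MP_bced1d_lc

open Encodable Nat.Partrec

/-! ### Helpers for primitive recursive predicates -/

lemma primrec_pow : Primrec₂ ((· ^ ·) : ℕ → ℕ → ℕ) := Primrec₂.unpaired'.1 Nat.Primrec.pow

lemma pp_forall {α : Type} [Primcodable α] {p : ℕ → α → Prop} (hp : PrimrecRel p) {f : α → ℕ}
    (hf : Primrec f) : PrimrecPred fun a => ∀ x < f a, p x a :=
  ((PrimrecRel.forall_mem_list hp).comp (Primrec.list_range.comp hf) Primrec.id).of_eq (by simp)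

lemma pp_exists {α : Type} [Primcodable α] {p : ℕ → α → Prop} (hp : PrimrecRel p) {f : α → ℕ}
    (hf : Primrec f) : PrimrecPred fun a => ∃ x < f a, p x a :=
  ((PrimrecRel.exists_mem_list hp).comp (Primrec.list_range.comp hf) Primrec.id).of_eq (by simp)

lemma isClosed_of_dep {a : ℕ} (m : ℕ) (P : Set (ℕ → Fin a))
    (hP : ∀ q q' : ℕ → Fin a, (∀ i < m, q i = q' i) → q ∈ P → q' ∈ P) : IsClosed P := by
  let f : (ℕ → Fin a) → (Fin m → Fin a) := fun q i => q i.val
  have hf : Continuous f := by fun_prop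
  have : P = f ⁻¹' (f '' P) := by
    ext q
    constructor
    · intro h; exact ⟨q, h, rfl⟩
    · rintro ⟨q', hq', e⟩
      exact hP q' q (fun i hi => congrFun e ⟨i, hi⟩) hq'
  rw [this]
  exact (isClosed_discrete _).preimage hf

/-- digit `i` of `δ` in base `b` -/
def dig (b δ i : ℕ) : ℕ := δ / b ^ i % b

lemma primrec_dig (b : ℕ) : Primrec₂ (dig b) := by
  refine Primrec.nat_mod.comp (Primrec.nat_div.comp Primrec.fst
    (primrec_pow.comp (Primrec.const b) Primrec.snd)) (Primrec.const b)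

lemma dig_lt {b : ℕ} (hb : 0 < b) (δ i : ℕ) : dig b δ i < b := Nat.mod_lt _ hb

lemma exists_dig {b : ℕ} (hb : 0 < b) (m : ℕ) : ∀ (d : ℕ → ℕ), (∀ i, d i < b) →
    ∃ δ < b ^ m, ∀ i < m, dig b δ i = d i := by
  induction m with
  | zero => intro d _; exact ⟨0, by simp, fun i hi => absurd hi (Nat.not_lt_zero i)⟩
  | succ m ih =>
    intro d hd
    obtain ⟨δ, hδ, h⟩ := ih (fun i => d (i + 1)) (fun i => hd (i + 1))
    have hd0 := hd 0
    refine ⟨d 0 + b * δ, ?_, ?_⟩
    · rw [pow_succ']
      calc d 0 + b * δ < b + b * δ := by omega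
        _ = b * (δ + 1) := by ring
        _ ≤ b * b ^ m := Nat.mul_le_mul_left b hδ
    · intro i hi
      cases i with
      | zero =>
        simp only [dig, pow_zero, Nat.div_one, Nat.add_mul_mod_self_left]
        exact Nat.mod_eq_of_lt hd0
      | succ i =>
        have := h i (by omega)
        simp only [dig] at this ⊢
        rw [pow_succ', ← Nat.div_div_eq_div_mul, Nat.add_mul_div_left _ _ hb,
          Nat.div_eq_of_lt hd0, zero_add]
        exact this

/-! ### Diagonally noncomputable functions -/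

/-- `v = φ_i(i)` -/
def bad (i v : ℕ) : Prop := v ∈ Code.eval (Denumerable.ofNat Code i) i

/-- `v = φ_i(i)` is seen at stage `s`. -/
def badn (s i v : ℕ) : Prop := Code.evaln s (Denumerable.ofNat Code i) i = some v

instance (s i v : ℕ) : Decidable (badn s i v) := by unfold badn; infer_instance

lemma bad_iff {i v : ℕ} : bad i v ↔ ∃ s, badn s i v := Code.evaln_complete

lemma badn_mono {s t i v : ℕ} (h : s ≤ t) (hs : badn s i v) : badn t i v :=
  Code.evaln_mono h hs

lemma bad_unique {i v w : ℕ} (h1 : bad i v) (h2 : bad i w) : v = w := Part.mem_unique h1 h2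

lemma primrec_badn : PrimrecPred fun p : ℕ × ℕ × ℕ => badn p.1 p.2.1 p.2.2 := by
  have h : Primrec fun p : ℕ × ℕ × ℕ =>
      Code.evaln p.1 (Denumerable.ofNat Code p.2.1) p.2.1 := by
    exact Code.primrec_evaln.comp (Primrec.pair (Primrec.pair Primrec.fst
      ((Primrec.ofNat Code).comp (Primrec.fst.comp Primrec.snd))) (Primrec.fst.comp Primrec.snd))
  exact Primrec.eq.comp h (Primrec.option_some.comp (Primrec.snd.comp Primrec.snd))

/-- `DNR_b`. -/
def DNR (b : ℕ) : Set (ℕ → ℕ) := {q | ∀ i, q i < b ∧ ¬ bad i (q i)}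

lemma exists_not_bad (i : ℕ) : ∃ v < 2, ¬ bad i v := by
  by_cases h : bad i 0
  · exact ⟨1, by norm_num, fun h1 => by have := bad_unique h h1; omega⟩
  · exact ⟨0, by norm_num, h⟩

/-- No computable function is diagonally noncomputable. -/
lemma exists_bad_of_computable {q : ℕ → ℕ} (hq : Computable q) : ∃ i, bad i (q i) := by
  obtain ⟨c, hc⟩ := Code.exists_code.1 (Partrec.nat_iff.1 hq.partrec)
  refine ⟨encode c, ?_⟩
  simp only [bad, Denumerable.ofNat_encode]
  rw [hc]
  simp

lemma exists_computable_choice {R : ℕ → ℕ → Prop} (hR : PrimrecRel R)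
    (h : ∀ e, ∃ k, R e k) : ∃ D : ℕ → ℕ, Computable D ∧ ∀ e, R e (D e) := by
  classical
  have hd : Primrec₂ (fun e k => decide (R e k)) := hR.decide
  have hp : Partrec fun e => Nat.rfind (fun k => (Part.some (decide (R e k)) : Part Bool)) :=
    Partrec.rfind (p := fun e k => (Part.some (decide (R e k)) : Part Bool))
      hd.to_comp.partrec₂
  refine ⟨fun e => Nat.find (h e), ?_, fun e => Nat.find_spec (h e)⟩
  refine Partrec.of_eq_tot hp ?_
  intro e
  rw [Nat.mem_rfind]
  refine ⟨?_, ?_⟩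
  · simp only [Part.mem_some_iff]
    exact (decide_eq_true (Nat.find_spec (h e))).symm
  · intro m hm
    simp only [Part.mem_some_iff]
    exact (decide_eq_false (Nat.find_min (h e) hm)).symm

/-! ### `DNR_2` is not Medvedev reducible to `DNR_3` -/

section
variable (F : List ℕ → ℕ → Option ℕ)

def lst (δ m : ℕ) : List ℕ := (List.range m).map (dig 3 δ)

lemma primrec_lst : Primrec₂ lst := by
  refine Primrec.list_map (Primrec.list_range.comp Primrec.snd) ?_
  exact (primrec_dig 3).comp (Primrec.fst.comp Primrec.fst) Primrec.snd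

def Killed (m δ : ℕ) : Prop := ∃ i < m, badn m i (dig 3 δ i)

lemma primrec_killed : PrimrecRel Killed := by
  have h : PrimrecRel (fun (i : ℕ) (a : ℕ × ℕ) => badn a.1 i (dig 3 a.2 i)) := by
    have := primrec_badn.comp (f := fun p : ℕ × (ℕ × ℕ) => (p.2.1, p.1, dig 3 p.2.2 p.1))
      (Primrec.pair (Primrec.fst.comp Primrec.snd) (Primrec.pair Primrec.fst
        ((primrec_dig 3).comp (Primrec.snd.comp Primrec.snd) Primrec.fst)))
    exact this
  exact pp_exists h Primrec.fst

def Lab (e m v δ : ℕ) : Prop := F (lst δ m) e = some v ∨ Killed m δ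

def Avoid (γ δ m : ℕ) : Prop := ∀ i < m, dig 3 δ i ≠ dig 3 γ i

def Large (e m v : ℕ) : Prop := ∀ γ < 3 ^ m, ∃ δ < 3 ^ m, Avoid γ δ m ∧ Lab F e m v δ

lemma primrec_large (hF : Primrec₂ F) :
    PrimrecPred fun p : ℕ × ℕ × ℕ => Large F p.1 p.2.1 p.2.2 := by
  -- a = (e, m, v)
  have hAv : PrimrecPred fun q : ℕ × ℕ × (ℕ × ℕ × ℕ) => Avoid q.2.1 q.1 q.2.2.2.1 := by
    -- q = (δ, γ, a)
    have h : PrimrecRel fun (i : ℕ) (q : ℕ × ℕ × (ℕ × ℕ × ℕ)) =>
        dig 3 q.1 i ≠ dig 3 q.2.1 i := by
      refine PrimrecPred.not ?_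
      exact Primrec.eq.comp
        ((primrec_dig 3).comp (Primrec.fst.comp Primrec.snd) Primrec.fst)
        ((primrec_dig 3).comp (Primrec.fst.comp (Primrec.snd.comp Primrec.snd)) Primrec.fst)
    exact pp_forall h (Primrec.fst.comp (Primrec.snd.comp (Primrec.snd.comp Primrec.snd)))
  have hLab : PrimrecPred fun q : ℕ × ℕ × (ℕ × ℕ × ℕ) =>
      Lab F q.2.2.1 q.2.2.2.1 q.2.2.2.2 q.1 := by
    refine PrimrecPred.or ?_ ?_
    · refine Primrec.eq.comp ?_ ?_
      · refine hF.comp (primrec_lst.comp Primrec.fst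
          (Primrec.fst.comp (Primrec.snd.comp (Primrec.snd.comp Primrec.snd)))) ?_
        exact Primrec.fst.comp (Primrec.snd.comp Primrec.snd)
      · exact Primrec.option_some.comp
          (Primrec.snd.comp (Primrec.snd.comp (Primrec.snd.comp Primrec.snd)))
    · exact primrec_killed.comp
        (Primrec.fst.comp (Primrec.snd.comp (Primrec.snd.comp Primrec.snd))) Primrec.fst
  have hm : Primrec fun a : ℕ × ℕ × ℕ => 3 ^ a.2.1 :=
    primrec_pow.comp (Primrec.const 3) (Primrec.fst.comp Primrec.snd)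
  have hin : PrimrecPred fun q : ℕ × (ℕ × ℕ × ℕ) =>
      ∃ δ < 3 ^ q.2.2.1, Avoid q.1 δ q.2.2.1 ∧ Lab F q.2.1 q.2.2.1 q.2.2.2 δ := by
    have h : PrimrecRel fun (δ : ℕ) (q : ℕ × (ℕ × ℕ × ℕ)) =>
        Avoid q.1 δ q.2.2.1 ∧ Lab F q.2.1 q.2.2.1 q.2.2.2 δ := PrimrecPred.and hAv hLab
    exact pp_exists h (hm.comp Primrec.snd)
  have hin' : PrimrecRel fun (γ : ℕ) (a : ℕ × ℕ × ℕ) =>
      ∃ δ < 3 ^ a.2.1, Avoid γ δ a.2.1 ∧ Lab F a.1 a.2.1 a.2.2 δ := hin
  exact pp_forall hin' hm

end

lemma lst_eq_pre {δ m : ℕ} {q : ℕ → ℕ} (h : ∀ i < m, dig 3 δ i = q i) : lst δ m = pre q m := by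
  unfold lst pre
  apply List.map_congr_left
  intro i hi
  exact h i (List.mem_range.1 hi)

theorem not_medLE_DNR : ¬ MedLE (DNR 2) (DNR 3) := by
  rintro ⟨Φ, hΦ, hmap⟩
  obtain ⟨F, hF, hmono, hval⟩ := use_principle hΦ
  -- Claim 1
  have claim1 : ∀ e, ∃ m, Large F e m 0 ∨ Large F e m 1 := by
    intro e
    -- everything is decided at some level
    have hdec : ∃ m, ∀ δ < 3 ^ m, F (lst δ m) e = some 0 ∨ F (lst δ m) e = some 1 ∨
        Killed m δ := by
      by_contra hcon
      push Not at hcon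
      -- closed sets
      let C : ℕ → Set (ℕ → Fin 3) := fun m => {q | F (pre (fun i => (q i).val) m) e ≠ some 0 ∧
        F (pre (fun i => (q i).val) m) e ≠ some 1 ∧ ∀ i < m, ¬ badn m i (q i).val}
      have hcl : ∀ m, IsClosed (C m) := by
        intro m
        apply isClosed_of_dep m
        intro q q' hqq hq
        have hp : pre (fun i => (q i).val) m = pre (fun i => (q' i).val) m := by
          unfold pre
          apply List.map_congr_left
          intro i hi
          rw [hqq i (List.mem_range.1 hi)]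
        refine ⟨?_, ?_, ?_⟩
        · rw [← hp]; exact hq.1
        · rw [← hp]; exact hq.2.1
        · intro i hi
          rw [← hqq i hi]; exact hq.2.2 i hi
      have hne : (⋂ m, C m).Nonempty := by
        apply IsCompact.nonempty_iInter_of_sequence_nonempty_isCompact_isClosed
        · intro m q hq
          simp only [C, Set.mem_ofPred_eq] at hq ⊢
          have hp := pre_prefix (fun i => (q i).val) (Nat.le_succ m)
          refine ⟨fun h => hq.1 (hmono _ _ _ _ hp h), fun h => hq.2.1 (hmono _ _ _ _ hp h), ?_⟩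
          intro i hi hb
          exact hq.2.2 i (by omega) (badn_mono (Nat.le_succ m) hb)
        · intro m
          obtain ⟨δ, hδ, h0, h1, h2⟩ := hcon m
          refine ⟨fun i => ⟨dig 3 δ i, dig_lt (by norm_num) _ _⟩, ?_⟩
          simp only [C, Set.mem_ofPred_eq]
          have : pre (fun i => dig 3 δ i) m = lst δ m := rfl
          rw [this]
          refine ⟨h0, h1, ?_⟩
          intro i hi hb
          exact h2 ⟨i, hi, hb⟩
        · exact (hcl 0).isCompact
        · exact hcl
      obtain ⟨q, hq⟩ := hne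
      simp only [Set.mem_iInter] at hq
      have hqD : (fun i => (q i).val) ∈ DNR 3 := by
        intro i
        refine ⟨(q i).isLt, ?_⟩
        intro hb
        obtain ⟨s, hs⟩ := bad_iff.1 hb
        exact (hq (max s (i+1))).2.2 i (by omega) (badn_mono (le_max_left _ _) hs)
      obtain ⟨f, hf, hfΦ⟩ := hmap _ hqD
      obtain ⟨s, hs⟩ := (hval _ _ _).1 (hfΦ e)
      have hf2 := (hf e).1
      have : f e = 0 ∨ f e = 1 := by omega
      rcases this with h | h
      · rw [h] at hs; exact (hq s).1 hs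
      · rw [h] at hs; exact (hq s).2.1 hs
    obtain ⟨m, hm⟩ := hdec
    refine ⟨m, ?_⟩
    by_contra hcon
    push Not at hcon
    obtain ⟨h0, h1⟩ := hcon
    simp only [Large] at h0 h1
    push Not at h0 h1
    obtain ⟨γ0, hγ0, h0⟩ := h0
    obtain ⟨γ1, hγ1, h1⟩ := h1
    have hch : ∀ i, ∃ v < 3, v ≠ dig 3 γ0 i ∧ v ≠ dig 3 γ1 i := by
      intro i
      have a0 := dig_lt (b := 3) (by norm_num) γ0 i
      have a1 := dig_lt (b := 3) (by norm_num) γ1 i
      generalize dig 3 γ0 i = x at *
      generalize dig 3 γ1 i = y at *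
      by_cases c0 : 0 ≠ x ∧ 0 ≠ y
      · exact ⟨0, by norm_num, c0⟩
      · by_cases c1 : 1 ≠ x ∧ 1 ≠ y
        · exact ⟨1, by norm_num, c1⟩
        · exact ⟨2, by norm_num, by omega, by omega⟩
    choose d hd3 hd0 hd1 using hch
    obtain ⟨δ, hδ, hδd⟩ := exists_dig (b := 3) (by norm_num) m d hd3
    have hA0 : Avoid γ0 δ m := fun i hi => by rw [hδd i hi]; exact hd0 i
    have hA1 : Avoid γ1 δ m := fun i hi => by rw [hδd i hi]; exact hd1 i
    rcases hm δ hδ with h | h | h
    · exact h0 δ hδ hA0 (Or.inl h)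
    · exact h1 δ hδ hA1 (Or.inl h)
    · exact h0 δ hδ hA0 (Or.inr h)
  -- Claim 2
  have claim2 : ∀ e m v, Large F e m v → v < 2 ∧ ¬ bad e v := by
    intro e m v hL
    classical
    -- true values of the diagonal function
    let d : ℕ → ℕ := fun i => if h : ∃ v, v < 3 ∧ bad i v then h.choose else 0
    have hd : ∀ i, d i < 3 := by
      intro i
      by_cases h : ∃ v, v < 3 ∧ bad i v
      · simp only [d, dif_pos h]; exact h.choose_spec.1
      · simp only [d, dif_neg h]; norm_num
    have hd' : ∀ i v, v < 3 → bad i v → v = d i := by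
      intro i v hv hb
      have h : ∃ v, v < 3 ∧ bad i v := ⟨v, hv, hb⟩
      simp only [d, dif_pos h]
      exact bad_unique hb h.choose_spec.2
    obtain ⟨γ, hγ, hγd⟩ := exists_dig (b := 3) (by norm_num) m d hd
    obtain ⟨δ, hδ, hAv, hLab⟩ := hL γ hγ
    have hnb : ∀ i < m, ¬ bad i (dig 3 δ i) := by
      intro i hi hb
      have := hd' i _ (dig_lt (by norm_num) _ _) hb
      exact hAv i hi (by rw [this, hγd i hi])
    have hFv : F (lst δ m) e = some v := by
      rcases hLab with h | ⟨i, hi, hb⟩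
      · exact h
      · exact absurd (bad_iff.2 ⟨_, hb⟩) (hnb i hi)
    choose w hw2 hwb using exists_not_bad
    let q : ℕ → ℕ := fun i => if i < m then dig 3 δ i else w i
    have hq : q ∈ DNR 3 := by
      intro i
      by_cases hi : i < m
      · simp only [q, if_pos hi]
        exact ⟨dig_lt (by norm_num) _ _, hnb i hi⟩
      · simp only [q, if_neg hi]
        exact ⟨lt_trans (hw2 i) (by norm_num), hwb i⟩
    have hpre : lst δ m = pre q m := by
      apply lst_eq_pre
      intro i hi
      simp only [q, if_pos hi]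
    obtain ⟨f, hf, hfΦ⟩ := hmap q hq
    have hv : v ∈ Φ q e := (hval _ _ _).2 ⟨m, by rw [← hpre]; exact hFv⟩
    have : f e = v := Part.mem_unique (hfΦ e) hv
    rw [← this]
    exact hf e
  -- a computable element of DNR 2
  have hR : PrimrecRel fun e k => Large F e (Nat.unpair k).1 (Nat.unpair k).2 := by
    have := (primrec_large F hF).comp
      (f := fun p : ℕ × ℕ => (p.1, (Nat.unpair p.2).1, (Nat.unpair p.2).2))
      (Primrec.pair Primrec.fst (Primrec.pair
        (Primrec.fst.comp (Primrec.unpair.comp Primrec.snd))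
        (Primrec.snd.comp (Primrec.unpair.comp Primrec.snd))))
    exact this
  obtain ⟨D, hD, hDR⟩ := exists_computable_choice hR (by
    intro e
    obtain ⟨m, h | h⟩ := claim1 e
    · exact ⟨Nat.pair m 0, by simpa using h⟩
    · exact ⟨Nat.pair m 1, by simpa using h⟩)
  obtain ⟨i, hi⟩ := exists_bad_of_computable
    (Computable.snd.comp (Computable.unpair.comp hD))
  exact (claim2 _ _ _ (hDR i)).2 hi

end Pool.Agent.MP_bced1d_lc
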