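import Mathlib

namespace Pool.Agent.MP_bced1d_lc

/-! ### Groups given by generators -/

/-- The element of `G` represented by a word over the generators `s 0, ..., s (n-1)` and their
inverses; the letter `(i, true)` stands for `s i`, the letter `(i, false)` for its inverse. -/
def evalWord {G : Type} [Group G] {n : ℕ} (s : Fin n → G) (w : List (Fin n × Bool)) : G :=
  (w.map fun p => if p.2 then s p.1 else (s p.1)⁻¹).prod

/-- `s` is a finite generating family of `G` for which `G` is recursively presented: the kernel of
the evaluation map `F(s) → G` is the normal closure of a recursively enumerable set of words. -/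
structure RecPres {G : Type} [Group G] {n : ℕ} (s : Fin n → G) : Prop where
  gen : Subgroup.closure (Set.range s) = ⊤
  rel : ∃ R : List (Fin n × Bool) → Prop, REPred R ∧
    (FreeGroup.lift s).ker = Subgroup.normalClosure {x | ∃ w, R w ∧ x = FreeGroup.mk w}

/-! ### Subshifts -/

/-- The shift action `(g • x)(h) = x (g⁻¹ h)`. -/
def shift {G A : Type} [Group G] (g : G) (x : G → A) : G → A := fun h => x (g⁻¹ * h)

/-- Subshifts: closed shift-invariant sets of configurations. -/
structure IsSubshift {G : Type} [Group G] {a : ℕ} (X : Set (G → Fin a)) : Prop where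
  closed : IsClosed X
  invariant : ∀ g : G, ∀ x ∈ X, shift g x ∈ X

/-- Subshifts of finite type: the configurations that avoid each pattern `p` of a finite list.
A pattern `p` has the finite support `p.1` and the symbol `p.2 h` at `h ∈ p.1`. -/
def IsSFT {G : Type} [Group G] {a : ℕ} (X : Set (G → Fin a)) : Prop :=
  ∃ F : List (Finset G × (G → Fin a)),
    X = {x | ∀ p ∈ F, ∀ g : G, ¬ ∀ h ∈ p.1, x (g * h) = p.2 h}

/-- `φ` is a factor map from `X` onto `Y`: continuous on `X`, equivariant and onto. -/
structure IsFactorMap {G : Type} [Group G] {a b : ℕ} (X : Set (G → Fin a)) (Y : Set (G → Fin b))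
    (φ : (G → Fin a) → (G → Fin b)) : Prop where
  cont : ContinuousOn φ X
  equivariant : ∀ g : G, ∀ x ∈ X, φ (shift g x) = shift g (φ x)
  surj : φ '' X = Y

/-- Sofic subshifts: subshifts that are the image of an SFT under a factor map. -/
structure IsSofic {G : Type} [Group G] {b : ℕ} (Y : Set (G → Fin b)) : Prop where
  subshift : IsSubshift Y
  factor : ∃ (a : ℕ) (X : Set (G → Fin a)) (φ : (G → Fin a) → (G → Fin b)),
    IsSFT X ∧ IsFactorMap X Y φ

/-! ### Medvedev degrees -/

/-- Turing functionals `Φ` (the argument is the oracle `g : ℕ → ℕ`): the least class of operators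
that contains zero, successor, the two unpairing functions and the oracle itself and is closed under
pairing, composition, primitive recursion and unbounded search; the clauses are those of Mathlib's
`Nat.RecursiveIn`, applied uniformly in the oracle. -/
inductive TuringFunctional : ((ℕ → ℕ) → ℕ →. ℕ) → Prop
  | zero : TuringFunctional fun _ _ => Part.some 0
  | succ : TuringFunctional fun _ n => Part.some (n + 1)
  | left : TuringFunctional fun _ n => Part.some (Nat.unpair n).1
  | right : TuringFunctional fun _ n => Part.some (Nat.unpair n).2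
  | oracle : TuringFunctional fun g n => Part.some (g n)
  | pair {Φ Ψ : (ℕ → ℕ) → ℕ →. ℕ} (hΦ : TuringFunctional Φ) (hΨ : TuringFunctional Ψ) :
      TuringFunctional fun g n => (Φ g n).bind fun a => (Ψ g n).map fun b => Nat.pair a b
  | comp {Φ Ψ : (ℕ → ℕ) → ℕ →. ℕ} (hΦ : TuringFunctional Φ) (hΨ : TuringFunctional Ψ) :
      TuringFunctional fun g n => (Ψ g n).bind (Φ g)
  | prec {Φ Ψ : (ℕ → ℕ) → ℕ →. ℕ} (hΦ : TuringFunctional Φ) (hΨ : TuringFunctional Ψ) :
      TuringFunctional fun g p =>
        Nat.rec (motive := fun _ => Part ℕ) (Φ g (Nat.unpair p).1)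
          (fun y IH => IH.bind fun i => Ψ g (Nat.pair (Nat.unpair p).1 (Nat.pair y i)))
          (Nat.unpair p).2
  | rfind {Φ : (ℕ → ℕ) → ℕ →. ℕ} (hΦ : TuringFunctional Φ) :
      TuringFunctional fun g a =>
        Nat.rfind fun n => (Φ g (Nat.pair a n)).map fun m => decide (m = 0)

/-- Medvedev reducibility `P ≤ Q`: one Turing functional maps each element of `Q` to an element
of `P`. -/
def MedLE (P Q : Set (ℕ → ℕ)) : Prop :=
  ∃ Φ, TuringFunctional Φ ∧ ∀ g ∈ Q, ∃ f ∈ P, ∀ n, f n ∈ Φ g n

/-- The set of names of the elements of `X`: for `x ∈ X`, the function `x ∘ π` on words, carried to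
`ℕ → ℕ` by the standard computable numbering of words (numbers that code no word get value `0`). -/
def names {G : Type} [Group G] {n a : ℕ} (s : Fin n → G) (X : Set (G → Fin a)) :
    Set (ℕ → ℕ) :=
  {f | ∃ x ∈ X, ∀ k, f k = match (Encodable.decode k : Option (List (Fin n × Bool))) with
    | some w => (x (evalWord s w)).val
    | none => 0}

/-- `m(X) = m(Y)`: the subshifts `X` and `Y` have the same Medvedev degree. -/
def SameDegree {G : Type} [Group G] {n a b : ℕ} (s : Fin n → G) (X : Set (G → Fin a))
    (Y : Set (G → Fin b)) : Prop :=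
  MedLE (names s X) (names s Y) ∧ MedLE (names s Y) (names s X)

end Pool.Agent.MP_bced1d_lc
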