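import Pool.Agent.MP_bced1d_lc.Defs

namespace Pool.Agent.MP_bced1d_lc

open Encodable

/-! ### Prefixes of oracles -/

def pre (g : ℕ → ℕ) (k : ℕ) : List ℕ := (List.range k).map g

@[simp] lemma pre_length (g : ℕ → ℕ) (k : ℕ) : (pre g k).length = k := by simp [pre]

lemma pre_take (g : ℕ → ℕ) {m n : ℕ} (h : m ≤ n) : (pre g n).take m = pre g m := by
  simp [pre, ← List.map_take, List.take_range, h]

lemma pre_prefix (g : ℕ → ℕ) {m n : ℕ} (h : m ≤ n) : pre g m <+: pre g n := by
  rw [← pre_take g h]; exact List.take_prefix _ _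

lemma pre_succ (g : ℕ → ℕ) (k : ℕ) : pre g (k + 1) = pre g k ++ [g k] := by
  simp [pre, List.range_succ]

lemma pre_getElem? (g : ℕ → ℕ) {i k : ℕ} (h : i < k) : (pre g k)[i]? = some (g i) := by
  simp [pre, h]

lemma pre_getElem?_none (g : ℕ → ℕ) {i k : ℕ} (h : k ≤ i) : (pre g k)[i]? = none := by
  simp [pre, h]

/-! ### Basic closure properties -/

lemma tf_of_partrec {f : ℕ →. ℕ} (hf : Nat.Partrec f) : TuringFunctional fun _ => f := by
  induction hf with
  | zero => exact TuringFunctional.zero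
  | succ => exact TuringFunctional.succ
  | left => exact TuringFunctional.left
  | right => exact TuringFunctional.right
  | @pair f h _ _ ih₁ ih₂ =>
    have := TuringFunctional.pair ih₁ ih₂
    convert this using 3
    simp [Seq.seq, Part.bind_map]
  | @comp f h _ _ ih₁ ih₂ => exact TuringFunctional.comp ih₁ ih₂
  | @prec f h _ _ ih₁ ih₂ => exact TuringFunctional.prec ih₁ ih₂
  | @rfind f _ ih => exact TuringFunctional.rfind ih

lemma tf_of_computable {f : ℕ → ℕ} (hf : Computable f) :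
    TuringFunctional fun _ n => Part.some (f n) :=
  tf_of_partrec (Partrec.nat_iff.1 hf.partrec)

lemma tf_congr {Φ Ψ : (ℕ → ℕ) → ℕ →. ℕ} (h : TuringFunctional Φ) (e : ∀ g n, Φ g n = Ψ g n) :
    TuringFunctional Ψ := by
  have : Φ = Ψ := by funext g n; exact e g n
  rwa [← this]

/-- Turing functionals compose. -/
lemma tf_comp_oracle {Φ Ψ : (ℕ → ℕ) → ℕ →. ℕ} (hΦ : TuringFunctional Φ)
    (hΨ : TuringFunctional Ψ) :
    ∃ Θ, TuringFunctional Θ ∧ ∀ g g' : ℕ → ℕ, (∀ n, g' n ∈ Ψ g n) → ∀ n, Θ g n = Φ g' n := by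
  induction hΦ with
  | zero => exact ⟨_, TuringFunctional.zero, fun _ _ _ _ => rfl⟩
  | succ => exact ⟨_, TuringFunctional.succ, fun _ _ _ _ => rfl⟩
  | left => exact ⟨_, TuringFunctional.left, fun _ _ _ _ => rfl⟩
  | right => exact ⟨_, TuringFunctional.right, fun _ _ _ _ => rfl⟩
  | oracle => exact ⟨Ψ, hΨ, fun g g' h n => Part.eq_some_iff.2 (h n)⟩
  | pair _ _ ih1 ih2 =>
    obtain ⟨A, hA, eA⟩ := ih1
    obtain ⟨B, hB, eB⟩ := ih2
    refine ⟨_, TuringFunctional.pair hA hB, fun g g' h n => ?_⟩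
    simp only [eA g g' h, eB g g' h]
  | comp _ _ ih1 ih2 =>
    obtain ⟨A, hA, eA⟩ := ih1
    obtain ⟨B, hB, eB⟩ := ih2
    refine ⟨_, TuringFunctional.comp hA hB, fun g g' h n => ?_⟩
    have : A g = _ := funext (eA g g' h)
    simp only [this, eB g g' h]
  | prec _ _ ih1 ih2 =>
    obtain ⟨A, hA, eA⟩ := ih1
    obtain ⟨B, hB, eB⟩ := ih2
    refine ⟨_, TuringFunctional.prec hA hB, fun g g' h n => ?_⟩
    simp only [eA g g' h, eB g g' h]
  | rfind _ ih =>
    obtain ⟨A, hA, eA⟩ := ih
    refine ⟨_, TuringFunctional.rfind hA, fun g g' h n => ?_⟩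
    simp only [eA g g' h]

theorem MedLE.trans {P Q R : Set (ℕ → ℕ)} (h1 : MedLE P Q) (h2 : MedLE Q R) : MedLE P R := by
  obtain ⟨Φ, hΦ, h1⟩ := h1
  obtain ⟨Ψ, hΨ, h2⟩ := h2
  obtain ⟨Θ, hΘ, e⟩ := tf_comp_oracle hΦ hΨ
  refine ⟨Θ, hΘ, fun g hg => ?_⟩
  obtain ⟨g', hg', e'⟩ := h2 g hg
  obtain ⟨f, hf, e''⟩ := h1 g' hg'
  exact ⟨f, hf, fun n => by rw [e g g' e' n]; exact e'' n⟩

/-- A Turing functional with a computable oracle is partial recursive. -/
lemma tf_partrec {Φ : (ℕ → ℕ) → ℕ →. ℕ} (hΦ : TuringFunctional Φ) {g : ℕ → ℕ}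
    (hg : Computable g) : Nat.Partrec (Φ g) := by
  induction hΦ with
  | zero => exact Nat.Partrec.zero
  | succ => exact Nat.Partrec.succ
  | left => exact Nat.Partrec.left
  | right => exact Nat.Partrec.right
  | oracle => exact Partrec.nat_iff.1 hg.partrec
  | @pair Φ Ψ _ _ ih1 ih2 =>
    refine (Nat.Partrec.pair ih1 ih2).of_eq fun n => ?_
    simp [Seq.seq, Part.bind_map]
  | comp _ _ ih1 ih2 => exact Nat.Partrec.comp ih1 ih2
  | prec _ _ ih1 ih2 => exact Nat.Partrec.prec ih1 ih2
  | rfind _ ih => exact Nat.Partrec.rfind ih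

theorem MedLE.computable {P Q : Set (ℕ → ℕ)} (h : MedLE P Q) {g : ℕ → ℕ} (hg : g ∈ Q)
    (hc : Computable g) : ∃ f ∈ P, Computable f := by
  obtain ⟨Φ, hΦ, h⟩ := h
  obtain ⟨f, hf, e⟩ := h g hg
  refine ⟨f, hf, ?_⟩
  have := Partrec.nat_iff.2 (tf_partrec hΦ hc)
  exact Partrec.of_eq_tot this e

/-! ### Functionals given by search over prefixes -/

lemma tf_pre : TuringFunctional fun g k => Part.some (encode (pre g k)) := by
  -- primitive recursion on the pair (0, k)
  have h0 : TuringFunctional fun _ _ => Part.some (encode ([] : List ℕ)) :=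
    tf_of_computable (Computable.const _)
  -- step: from `pair a (pair y i)` compute the code of `l ++ [g y]`
  have hy : TuringFunctional fun _ q => Part.some (Nat.unpair (Nat.unpair q).2).1 :=
    tf_of_computable ((Computable.fst.comp Computable.unpair).comp
      (Computable.snd.comp Computable.unpair))
  have hi : TuringFunctional fun _ q => Part.some (Nat.unpair (Nat.unpair q).2).2 :=
    tf_of_computable ((Computable.snd.comp Computable.unpair).comp
      (Computable.snd.comp Computable.unpair))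
  have hgy := TuringFunctional.comp TuringFunctional.oracle hy
  have hpr := TuringFunctional.pair hi hgy
  let f : ℕ → ℕ := fun q => encode
    (((decode (Nat.unpair q).1 : Option (List ℕ)).getD []) ++ [(Nat.unpair q).2])
  have hf : Computable f := by
    refine Computable.encode.comp (Computable.list_concat.comp ?_ ?_)
    · exact Computable.option_getD
        (Computable.decode.comp (Computable.fst.comp Computable.unpair)) (Computable.const _)
    · exact Computable.snd.comp Computable.unpair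
  have hstep := TuringFunctional.comp (tf_of_computable hf) hpr
  have hrec := TuringFunctional.prec h0 hstep
  have hin : TuringFunctional fun _ k => Part.some (Nat.pair 0 k) :=
    tf_of_computable (Primrec₂.natPair.to_comp.comp (Computable.const 0) Computable.id)
  refine tf_congr (TuringFunctional.comp hrec hin) ?_
  intro g k
  simp only [Part.bind_some, Nat.unpair_pair]
  induction k with
  | zero => simp [pre]
  | succ k ih =>
    refine (congrArg (fun z => Part.bind z _) ih).trans ?_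
    simp only [Part.bind_some, Part.map_some]
    simp [f, pre_succ]

lemma tf_search (Θ : List ℕ → ℕ → Option ℕ) (hΘ : Computable₂ Θ) :
    ∃ Φ, TuringFunctional Φ ∧ ∀ g n, (∃ k v, Θ (pre g k) n = some v) →
      ∃ k v, Θ (pre g k) n = some v ∧ v ∈ Φ g n := by
  -- A g (pair n k) = code of Θ (pre g k) n
  have hn : TuringFunctional fun _ q => Part.some (Nat.unpair q).1 := TuringFunctional.left
  have hk : TuringFunctional fun _ q => Part.some (Nat.unpair q).2 := TuringFunctional.right
  have hp := TuringFunctional.comp tf_pre hk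
  have hpr := TuringFunctional.pair hp hn
  let f0 : ℕ → Option ℕ := fun q =>
    Θ ((decode (Nat.unpair q).1 : Option (List ℕ)).getD []) (Nat.unpair q).2
  have hf0 : Computable f0 := by
    refine hΘ.comp ?_ (Computable.snd.comp Computable.unpair)
    exact Computable.option_getD
        (Computable.decode.comp (Computable.fst.comp Computable.unpair)) (Computable.const _)
  let f1 : ℕ → ℕ := fun q => Option.casesOn (f0 q) 1 (fun _ => 0)
  have hf1 : Computable f1 :=
    Computable.option_casesOn hf0 (Computable.const 1) ((Computable.const 0).to₂)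
  let f2 : ℕ → ℕ := fun q => (f0 q).getD 0
  have hf2 : Computable f2 := Computable.option_getD hf0 (Computable.const 0)
  have hA1 := TuringFunctional.comp (tf_of_computable hf1) hpr
  have hA2 := TuringFunctional.comp (tf_of_computable hf2) hpr
  have hsearch := TuringFunctional.rfind hA1
  have hid : TuringFunctional fun _ n => Part.some n := tf_of_computable Computable.id
  have hboth := TuringFunctional.pair hid hsearch
  have hfin := TuringFunctional.comp hA2 hboth
  refine ⟨_, hfin, fun g n hex => ?_⟩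
  have e1 : ∀ k, f1 (Nat.pair (encode (pre g k)) n) =
      Option.casesOn (Θ (pre g k) n) 1 (fun _ => 0) := by
    intro k; simp [f1, f0]
  have e2 : ∀ k, f2 (Nat.pair (encode (pre g k)) n) = (Θ (pre g k) n).getD 0 := by
    intro k; simp [f2, f0]
  have hdec : ∃ k, ∃ v, Θ (pre g k) n = some v := hex
  classical
  let k₀ := Nat.find hdec
  obtain ⟨v₀, hv₀⟩ := Nat.find_spec hdec
  refine ⟨k₀, v₀, hv₀, ?_⟩
  simp only [Part.bind_some, Nat.unpair_pair, Part.map_some, Part.mem_bind_iff, Part.mem_map_iff]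
  refine ⟨Nat.pair n k₀, ⟨k₀, ?_, rfl⟩, ?_⟩
  · rw [Nat.mem_rfind]
    constructor
    · simp only [Part.mem_some_iff]
      rw [e1 k₀, hv₀]; simp
    · intro m hm
      simp only [Part.mem_some_iff]
      rw [e1 m]
      have : ¬ ∃ v, Θ (pre g m) n = some v := Nat.find_min hdec hm
      cases h : Θ (pre g m) n with
      | none => simp
      | some v => exact absurd ⟨v, h⟩ this
  · simp only [Nat.unpair_pair, Part.mem_some_iff]
    rw [e2 k₀, hv₀]; rfl

/-! ### The use principle -/

/-- Prefix-based description of a functional. -/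
def HasUse (Φ : (ℕ → ℕ) → ℕ →. ℕ) : Prop :=
  ∃ G : List ℕ → ℕ →. ℕ, Partrec₂ G ∧
    (∀ σ τ : List ℕ, ∀ n v, σ <+: τ → v ∈ G σ n → v ∈ G τ n) ∧
    ∀ g n v, v ∈ Φ g n ↔ ∃ s, v ∈ G (pre g s) n

lemma hasUse_total (h : ℕ → ℕ) (hh : Computable h) :
    HasUse (fun _ n => Part.some (h n)) := by
  refine ⟨fun _ n => Part.some (h n), ?_, ?_, ?_⟩
  · exact (hh.comp Computable.snd).partrec
  · intro σ τ n v _ h; exact h
  · intro g n v
    exact ⟨fun h => ⟨0, h⟩, fun ⟨_, h⟩ => h⟩

lemma exists_common (N : ℕ) (P : ℕ → ℕ → Prop)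
    (hmono : ∀ m s t, s ≤ t → P m s → P m t) (h : ∀ m < N, ∃ s, P m s) :
    ∃ s, ∀ m < N, P m s := by
  induction N with
  | zero => exact ⟨0, fun m hm => absurd hm (Nat.not_lt_zero m)⟩
  | succ n ih =>
    obtain ⟨s, hs⟩ := ih (fun m hm => h m (by omega))
    obtain ⟨t, ht⟩ := h n (by omega)
    refine ⟨max s t, fun m hm => ?_⟩
    rcases Nat.lt_succ_iff_lt_or_eq.1 hm with h1 | h1
    · exact hmono _ _ _ (le_max_left _ _) (hs m h1)
    · rw [h1]; exact hmono _ _ _ (le_max_right _ _) ht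

lemma hasUse_oracle : HasUse (fun g n => Part.some (g n)) := by
  refine ⟨fun σ n => ((σ[n]?) : Option ℕ), ?_, ?_, ?_⟩
  · apply Computable.ofOption
    exact Primrec.list_getElem?.to_comp.comp Computable.fst Computable.snd
  · intro σ τ n v hst h
    simp only [Part.mem_coe, Option.mem_def] at h ⊢
    obtain ⟨ρ, rfl⟩ := hst
    have hl : n < σ.length := by
      by_contra hcon
      rw [List.getElem?_eq_none (by omega)] at h
      simp at h
    rw [List.getElem?_append_left hl]; exact h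
  · intro g n v
    simp only [Part.mem_some_iff, Part.mem_coe, Option.mem_def]
    constructor
    · rintro rfl
      exact ⟨n+1, pre_getElem? g (Nat.lt_succ_self n)⟩
    · rintro ⟨s, ha⟩
      have hn : n < s := by
        by_contra hcon
        rw [pre_getElem?_none g (by omega)] at ha
        simp at ha
      rw [pre_getElem? g hn] at ha
      simpa using ha.symm

lemma hasUse_pair {Φ Ψ : (ℕ → ℕ) → ℕ →. ℕ} (hf : HasUse Φ) (hh : HasUse Ψ) :
    HasUse (fun g n => (Φ g n).bind fun a => (Ψ g n).map fun b => Nat.pair a b) := by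
  obtain ⟨G, hG, mG, sG⟩ := hf
  obtain ⟨K, hK, mK, sK⟩ := hh
  refine ⟨fun σ n => (G σ n).bind fun a => (K σ n).map fun b => Nat.pair a b, ?_, ?_, ?_⟩
  · refine Partrec.bind hG ?_
    refine Partrec.map (f := fun p : (List ℕ × ℕ) × ℕ => K p.1.1 p.1.2)
      (hK.comp (Computable.fst.comp Computable.fst) (Computable.snd.comp Computable.fst)) ?_
    exact Primrec₂.natPair.to_comp.comp₂ ((Computable.snd.comp Computable.fst).to₂)
      Computable.snd.to₂
  · intro σ τ n v hst h
    simp only [Part.mem_bind_iff, Part.mem_map_iff] at h ⊢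
    obtain ⟨a, ha, b, hb, rfl⟩ := h
    exact ⟨a, mG _ _ _ _ hst ha, b, mK _ _ _ _ hst hb, rfl⟩
  · intro g n v
    simp only [Part.mem_bind_iff, Part.mem_map_iff]
    constructor
    · rintro ⟨a, ha, b, hb, rfl⟩
      obtain ⟨s, hs⟩ := (sG _ _ _).1 ha
      obtain ⟨t, ht⟩ := (sK _ _ _).1 hb
      exact ⟨max s t, a, mG _ _ _ _ (pre_prefix g (le_max_left _ _)) hs, b,
        mK _ _ _ _ (pre_prefix g (le_max_right _ _)) ht, rfl⟩
    · rintro ⟨s, a, ha, b, hb, rfl⟩
      exact ⟨a, (sG _ _ _).2 ⟨s, ha⟩, b, (sK _ _ _).2 ⟨s, hb⟩, rfl⟩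

lemma hasUse_comp {Φ Ψ : (ℕ → ℕ) → ℕ →. ℕ} (hf : HasUse Φ) (hh : HasUse Ψ) :
    HasUse (fun g n => (Ψ g n).bind (Φ g)) := by
  obtain ⟨G, hG, mG, sG⟩ := hf
  obtain ⟨K, hK, mK, sK⟩ := hh
  refine ⟨fun σ n => (K σ n).bind fun a => G σ a, ?_, ?_, ?_⟩
  · refine Partrec.bind hK ?_
    exact hG.comp (Computable.fst.comp Computable.fst) Computable.snd
  · intro σ τ n v hst h
    simp only [Part.mem_bind_iff] at h ⊢
    obtain ⟨a, ha, hb⟩ := h
    exact ⟨a, mK _ _ _ _ hst ha, mG _ _ _ _ hst hb⟩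
  · intro g n v
    simp only [Part.mem_bind_iff]
    constructor
    · rintro ⟨a, ha, hb⟩
      obtain ⟨s, hs⟩ := (sK _ _ _).1 ha
      obtain ⟨t, ht⟩ := (sG _ _ _).1 hb
      exact ⟨max s t, a, mK _ _ _ _ (pre_prefix g (le_max_left _ _)) hs,
        mG _ _ _ _ (pre_prefix g (le_max_right _ _)) ht⟩
    · rintro ⟨s, a, ha, hb⟩
      exact ⟨a, (sK _ _ _).2 ⟨s, ha⟩, (sG _ _ _).2 ⟨s, hb⟩⟩

/-- primitive recursion on partial values -/
def prc (g : ℕ →. ℕ) (k : ℕ →. ℕ) (a n : ℕ) : Part ℕ :=
  Nat.rec (motive := fun _ => Part ℕ) (g a)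
    (fun y IH => IH.bind fun i => k (Nat.pair a (Nat.pair y i))) n

lemma prc_zero (g k : ℕ →. ℕ) (a : ℕ) : prc g k a 0 = g a := rfl

lemma mem_prc_succ (g k : ℕ →. ℕ) (a n v : ℕ) :
    v ∈ prc g k a (n+1) ↔ ∃ i, i ∈ prc g k a n ∧ v ∈ k (Nat.pair a (Nat.pair n i)) := by
  show v ∈ (prc g k a n).bind (fun i => k (Nat.pair a (Nat.pair n i))) ↔ _
  simp only [Part.mem_bind_iff]

lemma hasUse_prec {Φ Ψ : (ℕ → ℕ) → ℕ →. ℕ} (hf : HasUse Φ) (hh : HasUse Ψ) :
    HasUse (fun g p =>
        Nat.rec (motive := fun _ => Part ℕ) (Φ g (Nat.unpair p).1)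
          (fun y IH => IH.bind fun i => Ψ g (Nat.pair (Nat.unpair p).1 (Nat.pair y i)))
          (Nat.unpair p).2) := by
  obtain ⟨G, hG, mG, sG⟩ := hf
  obtain ⟨K, hK, mK, sK⟩ := hh
  have mono : ∀ n a v (σ τ : List ℕ), σ <+: τ →
      v ∈ prc (G σ) (K σ) a n → v ∈ prc (G τ) (K τ) a n := by
    intro n a
    induction n with
    | zero => intro v σ τ hst h; exact mG _ _ _ _ hst h
    | succ n ih =>
      intro v σ τ hst h
      rw [mem_prc_succ] at h ⊢
      obtain ⟨i, hi, hv⟩ := h
      exact ⟨i, ih _ _ _ hst hi, mK _ _ _ _ hst hv⟩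
  refine ⟨fun σ p => prc (G σ) (K σ) p.unpair.1 p.unpair.2, ?_, ?_, ?_⟩
  · have h1 : Computable (fun q : List ℕ × ℕ => q.2.unpair.2) :=
      Computable.snd.comp (Computable.unpair.comp Computable.snd)
    have h1' : Computable (fun q : List ℕ × ℕ => q.2.unpair.1) :=
      Computable.fst.comp (Computable.unpair.comp Computable.snd)
    have h2 : Partrec (fun q : List ℕ × ℕ => G q.1 q.2.unpair.1) :=
      hG.comp Computable.fst h1'
    have h3 : Partrec₂ (fun (q : List ℕ × ℕ) (r : ℕ × ℕ) =>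
        K q.1 (Nat.pair q.2.unpair.1 (Nat.pair r.1 r.2))) := by
      refine hK.comp (Computable.fst.comp Computable.fst) ?_
      refine Primrec₂.natPair.to_comp.comp (h1'.comp Computable.fst) ?_
      exact Primrec₂.natPair.to_comp.comp (Computable.fst.comp Computable.snd)
        (Computable.snd.comp Computable.snd)
    exact Partrec.nat_rec h1 h2 h3
  · intro σ τ p v hst h
    exact mono _ _ _ _ _ hst h
  · intro g p v
    show v ∈ prc (Φ g) (Ψ g) p.unpair.1 p.unpair.2 ↔
      ∃ s, v ∈ prc (G (pre g s)) (K (pre g s)) _ _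
    generalize p.unpair.2 = n
    generalize p.unpair.1 = a
    induction n generalizing v with
    | zero => exact sG _ _ _
    | succ n ih =>
      simp only [mem_prc_succ]
      constructor
      · rintro ⟨i, hi, hv⟩
        obtain ⟨s, hs⟩ := (ih _).1 hi
        obtain ⟨t, ht⟩ := (sK _ _ _).1 hv
        exact ⟨max s t, i, mono _ _ _ _ _ (pre_prefix g (le_max_left _ _)) hs,
          mK _ _ _ _ (pre_prefix g (le_max_right _ _)) ht⟩
      · rintro ⟨s, i, hi, hv⟩
        exact ⟨i, (ih _).2 ⟨s, hi⟩, (sK _ _ _).2 ⟨s, hv⟩⟩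

lemma hasUse_rfind {Φ : (ℕ → ℕ) → ℕ →. ℕ} (hf : HasUse Φ) :
    HasUse (fun g a => Nat.rfind fun n => (Φ g (Nat.pair a n)).map fun m => decide (m = 0)) := by
  obtain ⟨G, hG, mG, sG⟩ := hf
  refine ⟨fun σ a => Nat.rfind fun n => (G σ (Nat.pair a n)).map (fun m => decide (m = 0)),
    ?_, ?_, ?_⟩
  · refine Partrec.rfind (p := fun (q : List ℕ × ℕ) n =>
      (G q.1 (Nat.pair q.2 n)).map (fun m => decide (m = 0))) ?_
    refine Partrec.map ?_ ?_
    · exact hG.comp (Computable.fst.comp Computable.fst)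
        (Primrec₂.natPair.to_comp.comp (Computable.snd.comp Computable.fst) Computable.snd)
    · have : Primrec (fun m : ℕ => decide (m = 0)) :=
        (Primrec.eq.comp Primrec.id (Primrec.const 0)).decide
      exact (this.to_comp.comp Computable.snd).to₂
  · intro σ τ a v hst h
    rw [Nat.mem_rfind] at h ⊢
    simp only [Part.mem_map_iff] at h ⊢
    obtain ⟨⟨w, hw, hw'⟩, h2⟩ := h
    refine ⟨⟨w, mG _ _ _ _ hst hw, hw'⟩, fun {m} hm => ?_⟩
    obtain ⟨u, hu, hu'⟩ := h2 hm
    exact ⟨u, mG _ _ _ _ hst hu, hu'⟩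
  · intro g a v
    rw [Nat.mem_rfind]
    simp only [Part.mem_map_iff]
    constructor
    · rintro ⟨⟨w, hw, hw'⟩, h2⟩
      obtain ⟨s, hs⟩ := (sG _ _ _).1 hw
      have h3 : ∃ t, ∀ m < v, ∃ u, u ∈ G (pre g t) (Nat.pair a m) ∧ decide (u = 0) = false := by
        refine exists_common v
          (fun m t => ∃ u, u ∈ G (pre g t) (Nat.pair a m) ∧ decide (u = 0) = false) ?_ ?_
        · rintro m s t hst ⟨u, hu, hu'⟩
          exact ⟨u, mG _ _ _ _ (pre_prefix g hst) hu, hu'⟩
        · intro m hm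
          obtain ⟨u, hu, hu'⟩ := h2 hm
          obtain ⟨s, hs⟩ := (sG _ _ _).1 hu
          exact ⟨s, u, hs, hu'⟩
      obtain ⟨t, ht⟩ := h3
      refine ⟨max s t, ?_⟩
      rw [Nat.mem_rfind]
      simp only [Part.mem_map_iff]
      refine ⟨⟨w, mG _ _ _ _ (pre_prefix g (le_max_left _ _)) hs, hw'⟩, fun {m} hm => ?_⟩
      obtain ⟨u, hu, hu'⟩ := ht m hm
      exact ⟨u, mG _ _ _ _ (pre_prefix g (le_max_right _ _)) hu, hu'⟩
    · rintro ⟨s, hs⟩
      rw [Nat.mem_rfind] at hs
      simp only [Part.mem_map_iff] at hs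
      obtain ⟨⟨w, hw, hw'⟩, h2⟩ := hs
      refine ⟨⟨w, (sG _ _ _).2 ⟨s, hw⟩, hw'⟩, fun {m} hm => ?_⟩
      obtain ⟨u, hu, hu'⟩ := h2 hm
      exact ⟨u, (sG _ _ _).2 ⟨s, hu⟩, hu'⟩

theorem hasUse_of_tf {Φ : (ℕ → ℕ) → ℕ →. ℕ} (h : TuringFunctional Φ) : HasUse Φ := by
  induction h with
  | zero => exact hasUse_total (fun _ => 0) (Computable.const 0)
  | succ => exact hasUse_total Nat.succ Computable.succ
  | left => exact hasUse_total (fun n => n.unpair.1) (Computable.fst.comp Computable.unpair)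
  | right => exact hasUse_total (fun n => n.unpair.2) (Computable.snd.comp Computable.unpair)
  | oracle => exact hasUse_oracle
  | pair _ _ ih₁ ih₂ => exact hasUse_pair ih₁ ih₂
  | comp _ _ ih₁ ih₂ => exact hasUse_comp ih₁ ih₂
  | prec _ _ ih₁ ih₂ => exact hasUse_prec ih₁ ih₂
  | rfind _ ih => exact hasUse_rfind ih

open Nat.Partrec in
/-- stage-bounded search -/
def srchN (c : Code) (σ : List ℕ) (n : ℕ) (N : ℕ) : Option ℕ :=
  Nat.rec (motive := fun _ => Option ℕ) Option.none
    (fun j acc => acc <|> Code.evaln σ.length c (encode (σ.take j, n))) N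

open Nat.Partrec in
/-- stage-bounded search over all initial segments -/
def srch (c : Code) (σ : List ℕ) (n : ℕ) : Option ℕ := srchN c σ n (σ.length + 1)

open Nat.Partrec in
lemma primrec_srch (c : Code) : Primrec₂ (srch c) := by
  have h1 : Primrec (fun q : List ℕ × ℕ => q.1.length + 1) :=
    Primrec.succ.comp (Primrec.list_length.comp Primrec.fst)
  have h2 : Primrec₂ (fun (q : List ℕ × ℕ) (r : ℕ × Option ℕ) =>
      (r.2 <|> Code.evaln q.1.length c (encode (q.1.take r.1, q.2)))) := by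
    refine Primrec.option_orElse.comp₂ ((Primrec.snd.comp Primrec.snd).to₂) ?_
    have h3 : Primrec (fun p : (List ℕ × ℕ) × (ℕ × Option ℕ) =>
        ((p.1.1.length, c), encode (p.1.1.take p.2.1, p.1.2))) := by
      refine Primrec.pair ((Primrec.pair ?_ (Primrec.const c))) ?_
      · exact Primrec.list_length.comp (Primrec.fst.comp Primrec.fst)
      · refine Primrec.encode.comp (Primrec.pair ?_ (Primrec.snd.comp Primrec.fst))
        exact Primrec.list_take.comp (Primrec.fst.comp Primrec.snd)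
          (Primrec.fst.comp Primrec.fst)
    exact (Code.primrec_evaln.comp h3)
  have h0 : Primrec (fun _ : List ℕ × ℕ => (Option.none : Option ℕ)) := Primrec.const _
  exact Primrec.nat_rec' h1 h0 h2

open Nat.Partrec in
lemma srchN_succ (c : Code) (σ : List ℕ) (n N : ℕ) :
    srchN c σ n (N+1) = (srchN c σ n N <|> Code.evaln σ.length c (encode (σ.take N, n))) := rfl

open Nat.Partrec in
lemma srch_some {c : Code} {σ : List ℕ} {n v : ℕ} (h : srch c σ n = some v) :
    ∃ j ≤ σ.length, Code.evaln σ.length c (encode (σ.take j, n)) = some v := by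
  have key : ∀ N, srchN c σ n N = some v →
      ∃ j < N, Code.evaln σ.length c (encode (σ.take j, n)) = some v := by
    intro N
    induction N with
    | zero => intro h; simp [srchN] at h
    | succ N ih =>
      intro h
      rw [srchN_succ, Option.orElse_eq_some] at h
      rcases h with h | ⟨_, h⟩
      · obtain ⟨j, hj, hj'⟩ := ih h
        exact ⟨j, by omega, hj'⟩
      · exact ⟨N, by omega, h⟩
  obtain ⟨j, hj, hj'⟩ := key _ h
  exact ⟨j, by omega, hj'⟩

open Nat.Partrec in
lemma srch_isSome {c : Code} {σ : List ℕ} {n v j : ℕ} (hj : j ≤ σ.length)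
    (h : Code.evaln σ.length c (encode (σ.take j, n)) = some v) : ∃ w, srch c σ n = some w := by
  have key : ∀ N, j < N → ∃ w, srchN c σ n N = some w := by
    intro N
    induction N with
    | zero => intro h; omega
    | succ N ih =>
      intro hN
      rw [srchN_succ]
      simp only [Option.orElse_eq_some]
      rcases Nat.lt_succ_iff_lt_or_eq.1 hN with h1 | h1
      · obtain ⟨w, hw⟩ := ih h1
        exact ⟨w, Or.inl hw⟩
      · cases hh : srchN c σ n N with
        | none =>
          exact ⟨v, Or.inr ⟨rfl, by rw [← h1]; exact h⟩⟩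
        | some w => exact ⟨w, Or.inl rfl⟩
  exact key _ (by omega)

open Nat.Partrec in
/-- **Use principle** with a primitive recursive monotone approximation. -/
theorem use_principle {Φ : (ℕ → ℕ) → ℕ →. ℕ} (hΦ : TuringFunctional Φ) :
    ∃ F : List ℕ → ℕ → Option ℕ, Primrec₂ F ∧
      (∀ σ τ : List ℕ, ∀ n v, σ <+: τ → F σ n = some v → F τ n = some v) ∧
      ∀ g n v, v ∈ Φ g n ↔ ∃ s, F (pre g s) n = some v := by
  obtain ⟨G, hG, mG, sG⟩ := hasUse_of_tf hΦ
  obtain ⟨c, hc⟩ := Code.exists_code.1 hG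
  have hev : ∀ σ n v, v ∈ Code.eval c (encode (σ, n)) ↔ v ∈ G σ n := by
    intro σ n v
    rw [hc]
    simp only [encodek, Part.coe_some, Part.bind_some]
    simp [Part.map_id']
  have hsound : ∀ σ n v, srch c σ n = some v → v ∈ G σ n := by
    intro σ n v h
    obtain ⟨j, hj, hj'⟩ := srch_some h
    have := Code.evaln_sound (show v ∈ Code.evaln σ.length c (encode (σ.take j, n)) from hj')
    rw [hev] at this
    exact mG _ _ _ _ (List.take_prefix _ _) this
  refine ⟨srch c, primrec_srch c, ?_, ?_⟩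
  · intro σ τ n v hst h
    obtain ⟨j, hj, hj'⟩ := srch_some h
    have h1 : σ.take j = τ.take j := by
      obtain ⟨ρ, rfl⟩ := hst
      rw [List.take_append_of_le_length hj]
    rw [h1] at hj'
    have h2 : Code.evaln τ.length c (encode (τ.take j, n)) = some v :=
      Code.evaln_mono hst.length_le hj'
    obtain ⟨w, hw⟩ := srch_isSome (le_trans hj hst.length_le) h2
    rw [hw]
    have h3 := hsound _ _ _ hw
    have h4 := mG _ _ _ _ hst (hsound _ _ _ h)
    rw [Part.mem_unique h3 h4]
  · intro g n v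
    rw [sG]
    constructor
    · rintro ⟨s, hs⟩
      rw [← hev, Code.evaln_complete] at hs
      obtain ⟨k, hk⟩ := hs
      have hk' : Code.evaln (pre g (max s k)).length c
          (encode ((pre g (max s k)).take s, n)) = some v := by
        rw [pre_take g (le_max_left _ _), pre_length]
        exact Code.evaln_mono (le_max_right _ _) hk
      obtain ⟨w, hw⟩ := srch_isSome (by rw [pre_length]; exact le_max_left _ _) hk'
      refine ⟨max s k, ?_⟩
      rw [hw]
      have h3 := hsound _ _ _ hw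
      have h4 : v ∈ G (pre g (max s k)) n := by
        refine mG _ _ _ _ (pre_prefix g (le_max_left s k)) ?_
        rw [← hev]; exact Code.evaln_sound hk
      rw [Part.mem_unique h3 h4]
    · rintro ⟨s, hs⟩
      exact ⟨s, hsound _ _ _ hs⟩

end Pool.Agent.MP_bced1d_lc
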