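import Pool.Agent.MP_bced1d_lc.DNR

namespace Pool.Agent.MP_bced1d_lc

open scoped commutatorElement

/-! ### The 2-adic valuation -/

/-- 2-adic valuation of a natural number -/
def v2 (u : ℕ) : ℕ := Nat.findGreatest (fun k => 2 ^ k ∣ u) u

lemma v2_spec {u : ℕ} (hu : u ≠ 0) : 2 ^ v2 u ∣ u ∧ ¬ 2 ^ (v2 u + 1) ∣ u := by
  constructor
  · exact Nat.findGreatest_spec (P := fun k => 2 ^ k ∣ u) (m := 0) (Nat.zero_le _) (by simp)
  · intro h
    have hle : v2 u + 1 ≤ u := by
      have := Nat.le_of_dvd (Nat.pos_of_ne_zero hu) h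
      exact le_trans (le_of_lt Nat.lt_two_pow_self) this
    have := Nat.le_findGreatest (P := fun k => 2 ^ k ∣ u) hle h
    unfold v2 at this
    omega

lemma v2_unique {u v : ℕ} (h1 : 2 ^ v ∣ u) (h2 : ¬ 2 ^ (v + 1) ∣ u) : v2 u = v := by
  have hu : u ≠ 0 := by rintro rfl; simp at h2
  obtain ⟨h3, h4⟩ := v2_spec hu
  by_contra hne
  rcases lt_or_gt_of_ne hne with h | h
  · exact h4 (dvd_trans (pow_dvd_pow 2 h) h1)
  · exact h2 (dvd_trans (pow_dvd_pow 2 h) h3)

/-- 2-adic valuation of an integer -/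
def vZ (j : ℤ) : ℕ := v2 j.natAbs

lemma pow_dvd_natAbs (k : ℕ) (j : ℤ) : 2 ^ k ∣ j.natAbs ↔ (2 ^ k : ℤ) ∣ j := by
  rw [← Int.natCast_dvd]
  push_cast
  rfl

lemma vZ_spec {j : ℤ} (hj : j ≠ 0) : (2 ^ vZ j : ℤ) ∣ j ∧ ¬ (2 ^ (vZ j + 1) : ℤ) ∣ j := by
  have := v2_spec (u := j.natAbs) (by simpa using hj)
  rw [pow_dvd_natAbs, pow_dvd_natAbs] at this
  exact this

lemma vZ_unique {j : ℤ} {v : ℕ} (h1 : (2 ^ v : ℤ) ∣ j) (h2 : ¬ (2 ^ (v + 1) : ℤ) ∣ j) :
    vZ j = v := by
  rw [← pow_dvd_natAbs] at h1 h2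
  exact v2_unique h1 h2

/-! ### The parameter space -/

/-- `a < 6` codes the pair `(a % 3, a / 3)`, a possible value at `i` of a pair in
`DNR_3 × DNR_2`. -/
def Allowed (i a : ℕ) : Prop := a < 6 ∧ ¬ bad i (a % 3) ∧ ¬ bad i (a / 3)

/-- Parameters: a sequence in `DNR_3 × DNR_2` and a symbol for the hole. -/
structure Par where
  r : ℕ → ℕ
  h : Fin 12
  ok : ∀ i, Allowed i (r i)

lemma exists_allowed (i : ℕ) : ∃ a, Allowed i a := by
  obtain ⟨v, hv, hb⟩ := exists_not_bad i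
  refine ⟨v + 3 * v, by omega, ?_, ?_⟩
  · have : (v + 3 * v) % 3 = v := by omega
    rw [this]; exact hb
  · have : (v + 3 * v) / 3 = v := by omega
    rw [this]; exact hb

/-- The Toeplitz sequence of a parameter: the symbol at `j ≠ 0` is `(v mod 2) + 2 r(v)` with
`v` the 2-adic valuation of `j`. -/
def toe (d : Par) (j : ℤ) : Fin 12 :=
  if j = 0 then d.h else ⟨vZ j % 2 + 2 * d.r (vZ j), by have := (d.ok (vZ j)).1; omega⟩

/-! ### The group -/

/-- Ambient group. -/
@[ext] structure El (K : Type) where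
  f : Par → ℤ → K
  n : ℤ

namespace El

variable {K : Type} [Group K]

instance : Mul (El K) := ⟨fun a b => ⟨fun d i => a.f d i * b.f d (i + a.n), a.n + b.n⟩⟩
instance : One (El K) := ⟨⟨fun _ _ => 1, 0⟩⟩
instance : Inv (El K) := ⟨fun a => ⟨fun d i => (a.f d (i - a.n))⁻¹, -a.n⟩⟩

@[simp] lemma mul_f (a b : El K) (d : Par) (i : ℤ) :
    (a * b).f d i = a.f d i * b.f d (i + a.n) := rfl
@[simp] lemma mul_n (a b : El K) : (a * b).n = a.n + b.n := rfl
@[simp] lemma one_f (d : Par) (i : ℤ) : (1 : El K).f d i = 1 := rfl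
@[simp] lemma one_n : (1 : El K).n = 0 := rfl
@[simp] lemma inv_f (a : El K) (d : Par) (i : ℤ) : (a⁻¹).f d i = (a.f d (i - a.n))⁻¹ := rfl
@[simp] lemma inv_n (a : El K) : (a⁻¹).n = -a.n := rfl

instance : Group (El K) := Group.ofLeftAxioms
  (by
    intro a b c
    ext d i
    · simp [mul_assoc, add_assoc]
    · simp [add_assoc])
  (by intro a; ext d i <;> simp)
  (by
    intro a
    ext d i
    · simp [sub_eq_add_neg]
    · simp)

end El

variable {K : Type} [Group K]

/-- The shift generator. -/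
def tE : El K := ⟨fun _ _ => 1, 1⟩

/-- The generator that multiplies by `κ` where the current symbol is `s`. -/
def aE (s : Fin 12) (κ : K) : El K := ⟨fun d i => if toe d i = s then κ else 1, 0⟩

/-- All generators. -/
def genE : Option (Fin 12 × K) → El K
  | none => tE
  | some (s, κ) => aE s κ

variable (K) in
/-- The group. -/
def GG : Subgroup (El K) := Subgroup.closure (Set.range (genE (K := K)))

lemma tE_mem : (tE : El K) ∈ GG K := Subgroup.subset_closure ⟨none, rfl⟩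
lemma aE_mem (s : Fin 12) (κ : K) : (aE s κ : El K) ∈ GG K :=
  Subgroup.subset_closure ⟨some (s, κ), rfl⟩

@[simp] lemma tE_n : (tE : El K).n = 1 := rfl
@[simp] lemma tE_f (d : Par) (i : ℤ) : (tE : El K).f d i = 1 := rfl
@[simp] lemma aE_n (s : Fin 12) (κ : K) : (aE s κ : El K).n = 0 := rfl

lemma tE_zpow (m : ℤ) : (tE : El K) ^ m = ⟨fun _ _ => 1, m⟩ := by
  induction m using Int.induction_on with
  | zero => rfl
  | succ i ih => rw [zpow_add_one, ih]; ext d j <;> simp
  | pred i ih => rw [zpow_sub_one, ih]; ext d j <;> simp; rfl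

@[simp] lemma tE_zpow_n (m : ℤ) : ((tE : El K) ^ m).n = m := by rw [tE_zpow]
@[simp] lemma tE_zpow_f (m : ℤ) (d : Par) (i : ℤ) : ((tE : El K) ^ m).f d i = 1 := by
  rw [tE_zpow]

/-- the exponent sum homomorphism -/
def nHom : El K →* Multiplicative ℤ where
  toFun g := Multiplicative.ofAdd g.n
  map_one' := rfl
  map_mul' _ _ := rfl

lemma pow_n_zero {g : El K} (h : g.n = 0) (m : ℕ) : (g ^ m).n = 0 := by
  induction m with
  | zero => simp
  | succ m ih => rw [pow_succ]; simp [ih, h]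

/-! ### Indicator elements and the Boolean algebra -/

open Classical in
/-- `κ` on the set `U`, `1` elsewhere -/
noncomputable def ind (U : Par → ℤ → Prop) (κ : K) : El K :=
  ⟨fun d i => if U d i then κ else 1, 0⟩

@[simp] lemma ind_n (U : Par → ℤ → Prop) (κ : K) : (ind U κ).n = 0 := rfl

lemma ind_pos {U : Par → ℤ → Prop} {κ : K} {d : Par} {i : ℤ} (h : U d i) :
    (ind U κ).f d i = κ := by simp [ind, h]

lemma ind_neg {U : Par → ℤ → Prop} {κ : K} {d : Par} {i : ℤ} (h : ¬ U d i) :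
    (ind U κ).f d i = 1 := by simp [ind, h]

lemma ind_mul (U : Par → ℤ → Prop) (κ κ' : K) : ind U κ * ind U κ' = ind U (κ * κ') := by
  ext d i
  · by_cases h : U d i
    · simp [ind_pos h]
    · simp [ind_neg h]
  · simp

lemma ind_inv (U : Par → ℤ → Prop) (κ : K) : (ind U κ)⁻¹ = ind U κ⁻¹ := by
  ext d i
  · by_cases h : U d i
    · simp [ind_pos h]
    · simp [ind_neg h]
  · simp

lemma ind_one (U : Par → ℤ → Prop) : ind U (1 : K) = 1 := by
  ext d i
  · by_cases h : U d i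
    · simp [ind_pos h]
    · simp [ind_neg h]
  · simp

lemma ind_comm (U V : Par → ℤ → Prop) (κ κ' : K) :
    ⁅ind U κ, ind V κ'⁆ = ind (fun d i => U d i ∧ V d i) ⁅κ, κ'⁆ := by
  ext d i
  · by_cases h : U d i <;> by_cases h' : V d i <;>
      simp [commutatorElement_def, ind, h, h']
  · simp [commutatorElement_def]

lemma ind_conj (U : Par → ℤ → Prop) (κ : K) (m : ℤ) :
    tE ^ m * ind U κ * (tE ^ m)⁻¹ = ind (fun d i => U d (i + m)) κ := by
  ext d i
  · by_cases h : U d (i + m)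
    · simp [ind, h]
    · simp [ind, h]
  · simp

lemma ind_congr {U V : Par → ℤ → Prop} (κ : K) (h : ∀ d i, U d i ↔ V d i) :
    ind U κ = ind V κ := by
  have : U = V := by funext d i; exact propext (h d i)
  rw [this]

lemma ind_eq_aE (s : Fin 12) (κ : K) : ind (fun d i => toe d i = s) κ = aE s κ := by
  ext d i
  · simp [ind, aE]
  · simp

/-- `U` belongs to the Boolean algebra of the subgroup `N`. -/
def BA (N : Subgroup (El K)) (U : Par → ℤ → Prop) : Prop := ∀ κ : K, ind U κ ∈ N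

lemma BA.congr {N : Subgroup (El K)} {U V : Par → ℤ → Prop} (h : BA N U)
    (e : ∀ d i, U d i ↔ V d i) : BA N V := by
  intro κ; rw [← ind_congr κ e]; exact h κ

lemma perfect_induction (hK : commutator K = ⊤) (S : Subgroup K)
    (h : ∀ a b : K, ⁅a, b⁆ ∈ S) (κ : K) : κ ∈ S := by
  have : commutator K ≤ S := by
    rw [commutator_def, Subgroup.commutator_le]
    intro a _ b _; exact h a b
  rw [hK] at this
  exact this (Subgroup.mem_top κ)

/-- intersections, with one factor ranging over a normal subgroup -/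
lemma BA.inter (hK : commutator K = ⊤) {N : Subgroup (El K)} {U V : Par → ℤ → Prop}
    (hU : BA N U) (hV : BA N V) : BA N (fun d i => U d i ∧ V d i) := by
  intro κ
  let S : Subgroup K :=
    { carrier := {κ | ind (fun d i => U d i ∧ V d i) κ ∈ N}
      mul_mem' := by
        intro a b ha hb
        simp only [Set.mem_ofPred_eq] at ha hb ⊢
        rw [← ind_mul]; exact N.mul_mem ha hb
      one_mem' := by
        simp only [Set.mem_ofPred_eq]; rw [ind_one]; exact N.one_mem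
      inv_mem' := by
        intro a ha
        simp only [Set.mem_ofPred_eq] at ha ⊢
        rw [← ind_inv]; exact N.inv_mem ha }
  refine perfect_induction hK S ?_ κ
  intro a b
  show ind (fun d i => U d i ∧ V d i) ⁅a, b⁆ ∈ N
  rw [← ind_comm]
  rw [commutatorElement_def]
  exact N.mul_mem (N.mul_mem (N.mul_mem (hU a) (hV b)) (N.inv_mem (hU a))) (N.inv_mem (hV b))

lemma BA.union (hK : commutator K = ⊤) {N : Subgroup (El K)} {U V : Par → ℤ → Prop}
    (hU : BA N U) (hV : BA N V) : BA N (fun d i => U d i ∨ V d i) := by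
  intro κ
  have h := BA.inter hK hU hV
  have e : ind (fun d i => U d i ∨ V d i) κ =
      ind U κ * ind V κ * (ind (fun d i => U d i ∧ V d i) κ)⁻¹ := by
    ext d i
    · by_cases h1 : U d i <;> by_cases h2 : V d i <;> simp [ind, h1, h2]
    · simp
  rw [e]
  exact N.mul_mem (N.mul_mem (hU κ) (hV κ)) (N.inv_mem (h κ))

lemma BA.compl {N : Subgroup (El K)} {U : Par → ℤ → Prop}
    (h1 : BA N (fun _ _ => True)) (hU : BA N U) : BA N (fun d i => ¬ U d i) := by
  intro κ
  have e : ind (fun d i => ¬ U d i) κ = ind (fun _ _ => True) κ * (ind U κ)⁻¹ := by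
    ext d i
    · by_cases h1 : U d i <;> simp [ind, h1]
    · simp
  rw [e]
  exact N.mul_mem (h1 κ) (N.inv_mem (hU κ))

lemma BA.shift {N : Subgroup (El K)} (ht : tE ∈ N) {U : Par → ℤ → Prop} (hU : BA N U)
    (m : ℤ) : BA N (fun d i => U d (i + m)) := by
  intro κ
  rw [← ind_conj]
  exact N.mul_mem (N.mul_mem (N.zpow_mem ht m) (hU κ)) (N.inv_mem (N.zpow_mem ht m))

lemma BA.exists_lt (hK : commutator K = ⊤) {N : Subgroup (El K)} (U : ℕ → Par → ℤ → Prop)
    (M : ℕ) (h : ∀ l < M, BA N (U l)) : BA N (fun d i => ∃ l < M, U l d i) := by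
  induction M with
  | zero =>
    intro κ
    have : ind (fun d i => ∃ l < 0, U l d i) κ = 1 := by
      ext d i
      · simp [ind]
      · simp
    rw [this]; exact N.one_mem
  | succ M ih =>
    have := BA.union hK (ih (fun l hl => h l (by omega))) (h M (by omega))
    refine this.congr ?_
    intro d i
    constructor
    · rintro (⟨l, hl, hu⟩ | hu)
      · exact ⟨l, by omega, hu⟩
      · exact ⟨M, by omega, hu⟩
    · rintro ⟨l, hl, hu⟩
      rcases Nat.lt_succ_iff_lt_or_eq.1 hl with h1 | h1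
      · exact Or.inl ⟨l, h1, hu⟩
      · exact Or.inr (h1 ▸ hu)

lemma BA_sym (s : Fin 12) : BA (GG K) (fun d i => toe d i = s) := by
  intro κ; rw [ind_eq_aE]; exact aE_mem s κ

lemma BA_symset (hK : commutator K = ⊤) (P : Fin 12 → Prop) :
    BA (GG K) (fun d i => P (toe d i)) := by
  classical
  have := BA.exists_lt hK (N := GG K)
    (fun l d i => (if hl : l < 12 then P ⟨l, hl⟩ ∧ toe d i = ⟨l, hl⟩ else False)) 12 (by
      intro l hl
      by_cases hP : P ⟨l, hl⟩
      · refine (BA_sym (K := K) ⟨l, hl⟩).congr ?_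
        intro d i; simp [hl, hP]
      · intro κ
        have : ind (fun d i => (if hl : l < 12 then P ⟨l, hl⟩ ∧ toe d i = ⟨l, hl⟩ else False)) κ
            = 1 := by
          ext d i
          · simp [ind, hl, hP]
          · simp
        rw [this]; exact (GG K).one_mem)
  refine this.congr ?_
  intro d i
  constructor
  · rintro ⟨l, hl, h⟩
    rw [dif_pos hl] at h
    rw [h.2]; exact h.1
  · intro h
    refine ⟨(toe d i).val, (toe d i).isLt, ?_⟩
    rw [dif_pos (toe d i).isLt]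
    exact ⟨h, rfl⟩

lemma BA_univ (hK : commutator K = ⊤) : BA (GG K) (fun _ _ => True) :=
  BA_symset hK (fun _ => True)

/-- the key arithmetic fact: marks detect divisibility by the next power of two -/
lemma dvd_step (d : Par) (m : ℕ) (i : ℤ) (h : (2 ^ m : ℤ) ∣ i) :
    (2 ^ (m + 1) : ℤ) ∣ i ↔
      ((toe d i).val % 2 = (m + 1) % 2 ∨ (toe d (i + 2 ^ (m + 1))).val % 2 = (m + 1) % 2) := by
  obtain ⟨c, rfl⟩ := h
  have hpos : (0 : ℤ) < 2 ^ m := by positivity
  have hdvd : ∀ x : ℤ, ((2 ^ (m + 1) : ℤ) ∣ 2 ^ m * x ↔ (2 : ℤ) ∣ x) := by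
    intro x
    rw [pow_succ]
    exact mul_dvd_mul_iff_left hpos.ne'
  have hdvd2 : ∀ x : ℤ, ((2 ^ (m + 1 + 1) : ℤ) ∣ 2 ^ m * x ↔ (4 : ℤ) ∣ x) := by
    intro x
    have : (2 : ℤ) ^ (m + 1 + 1) = 2 ^ m * 4 := by ring
    rw [this]
    exact mul_dvd_mul_iff_left hpos.ne'
  have hval : ∀ x : ℤ, ¬ (2 : ℤ) ∣ x → (toe d (2 ^ m * x)).val % 2 = m % 2 := by
    intro x hx
    have hx0 : (2 : ℤ) ^ m * x ≠ 0 := by
      intro h0
      rcases mul_eq_zero.1 h0 with h1 | h1
      · exact hpos.ne' h1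
      · exact hx (h1 ▸ dvd_zero _)
    have hv : vZ (2 ^ m * x) = m := vZ_unique (Dvd.intro _ rfl) (by rw [hdvd]; exact hx)
    simp only [toe, if_neg hx0, hv]
    omega
  have hval2 : ∀ x : ℤ, (2 : ℤ) ∣ x → ¬ (4 : ℤ) ∣ x →
      (toe d (2 ^ m * x)).val % 2 = (m + 1) % 2 := by
    intro x hx hx4
    have hx0 : (2 : ℤ) ^ m * x ≠ 0 := by
      intro h0
      rcases mul_eq_zero.1 h0 with h1 | h1
      · exact hpos.ne' h1
      · exact hx4 (h1 ▸ dvd_zero _)
    have hv : vZ (2 ^ m * x) = m + 1 := vZ_unique (by rw [hdvd]; exact hx)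
      (by rw [hdvd2]; exact hx4)
    simp only [toe, if_neg hx0, hv]
    omega
  have e2 : (2 : ℤ) ^ m * c + 2 ^ (m + 1) = 2 ^ m * (c + 2) := by ring
  rw [hdvd, e2]
  constructor
  · intro hc
    by_cases h4 : (4 : ℤ) ∣ c
    · right
      exact hval2 _ (by omega) (by omega)
    · left
      exact hval2 _ hc h4
  · intro h
    by_contra hc
    have h1 := hval c hc
    have h2 := hval (c + 2) (by omega)
    omega

lemma BA_dvd (hK : commutator K = ⊤) (m : ℕ) :
    BA (GG K) (fun _ i => (2 ^ m : ℤ) ∣ i) := by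
  induction m with
  | zero => refine (BA_univ hK).congr ?_; intro d i; simp
  | succ m ih =>
    have h1 : BA (GG K) (fun d i => (toe d i).val % 2 = (m + 1) % 2) :=
      BA_symset hK (fun s => s.val % 2 = (m + 1) % 2)
    have h2 := h1.shift tE_mem (2 ^ (m + 1))
    refine (BA.inter hK ih (BA.union hK h1 h2)).congr ?_
    intro d i
    constructor
    · rintro ⟨ha, hb⟩
      exact (dvd_step d m i ha).2 hb
    · intro ha
      have hb : (2 ^ m : ℤ) ∣ i := dvd_trans (pow_dvd_pow 2 (Nat.le_succ m)) ha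
      exact ⟨hb, (dvd_step d m i hb).1 ha⟩

/-- The set of parameters whose `DNR_2` part takes the value `b` at `n`. -/
def VV (n b : ℕ) : Par → ℤ → Prop := fun d _ => d.r n / 3 = b

lemma BA_VV (hK : commutator K = ⊤) (n b : ℕ) : BA (GG K) (VV n b) := by
  -- some l < 2^(n+1) has i + l of valuation exactly n
  have h1 : ∀ l : ℕ, l < 2 ^ (n + 1) → BA (GG K) (fun d i => ((2 ^ n : ℤ) ∣ (i + (l : ℤ)) ∧
      ¬ (2 ^ (n + 1) : ℤ) ∣ (i + (l : ℤ))) ∧ (toe d (i + (l : ℤ))).val / 2 / 3 = b) := by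
    intro l _
    refine BA.inter hK (BA.inter hK ?_ ?_) ?_
    · exact (BA_dvd hK n).shift tE_mem l
    · exact (BA.compl (BA_univ hK) (BA_dvd hK (n + 1))).shift tE_mem l
    · exact (BA_symset hK (fun s => s.val / 2 / 3 = b)).shift tE_mem l
  have h2 := BA.exists_lt hK (fun (l : ℕ) (d : Par) (i : ℤ) => ((2 ^ n : ℤ) ∣ (i + (l : ℤ)) ∧
      ¬ (2 ^ (n + 1) : ℤ) ∣ (i + (l : ℤ))) ∧ (toe d (i + (l : ℤ))).val / 2 / 3 = b) _ h1
  refine h2.congr ?_
  have hval : ∀ (d : Par) (j : ℤ), (2 ^ n : ℤ) ∣ j → ¬ (2 ^ (n + 1) : ℤ) ∣ j →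
      (toe d j).val / 2 = d.r n := by
    intro d j hj1 hj2
    have hj0 : j ≠ 0 := by rintro rfl; exact hj2 (dvd_zero _)
    have hv := vZ_unique hj1 hj2
    simp only [toe, if_neg hj0, hv]
    omega
  intro d i
  constructor
  · rintro ⟨l, _, ⟨ha, hb⟩, hc⟩
    rw [hval d _ ha hb] at hc
    exact hc
  · intro hV
    -- l ≡ 2^n - i mod 2^(n+1)
    have hp : (0 : ℤ) < 2 ^ (n + 1) := by positivity
    let l : ℤ := (2 ^ n - i) % 2 ^ (n + 1)
    have hl0 : 0 ≤ l := Int.emod_nonneg _ hp.ne'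
    have hl1 : l < 2 ^ (n + 1) := Int.emod_lt_of_pos _ hp
    have hlN : ((l.toNat : ℕ) : ℤ) = l := Int.toNat_of_nonneg hl0
    have hq : ∃ q : ℤ, i + l = 2 ^ n + 2 ^ (n + 1) * q := by
      refine ⟨-((2 ^ n - i) / 2 ^ (n + 1)), ?_⟩
      have := Int.emod_add_mul_ediv (2 ^ n - i) (2 ^ (n + 1))
      have e : l = (2 ^ n - i) - 2 ^ (n + 1) * ((2 ^ n - i) / 2 ^ (n + 1)) := by
        simp only [l]; linarith
      rw [e]; ring
    obtain ⟨q, hq⟩ := hq
    have ha : (2 ^ n : ℤ) ∣ i + l := by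
      rw [hq]; exact ⟨1 + 2 * q, by ring⟩
    have hb : ¬ (2 ^ (n + 1) : ℤ) ∣ i + l := by
      rw [hq]
      intro h
      have h' : (2 ^ (n + 1) : ℤ) ∣ 2 ^ n := by
        have := Int.dvd_sub h (Dvd.intro q rfl)
        simpa using this
      have := Int.le_of_dvd (by positivity) h'
      have h3 : (2 : ℤ) ^ n < 2 ^ (n + 1) := by
        rw [pow_succ]; have : (0 : ℤ) < 2 ^ n := by positivity
        linarith
      linarith
    refine ⟨l.toNat, ?_, ?_⟩
    · have : ((l.toNat : ℕ) : ℤ) < ((2 ^ (n + 1) : ℕ) : ℤ) := by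
        rw [hlN]; push_cast; exact hl1
      exact_mod_cast this
    · rw [hlN]
      refine ⟨⟨ha, hb⟩, ?_⟩
      rw [hval d _ ha hb]
      exact hV

end Pool.Agent.MP_bced1d_lc
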