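import Pool.Agent.MP_bced1d_lc.Upper

namespace Pool.Agent.MP_bced1d_lc

open Encodable
open scoped commutatorElement

variable {K : Type} [Group K] {N : ℕ}

/-- configurations that depend only on the exponent sum -/
def HInv {a : ℕ} (y : ↥(GG K) → Fin a) : Prop := ∀ g g', nn g = nn g' → y g = y g'

/-- the normal subgroup of the elements that can be inserted without changing the configuration -/
def Nx {A : Type} (y : ↥(GG K) → A) : Subgroup ↥(GG K) where
  carrier := {g | ∀ u v, y (u * g * v) = y (u * v)}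
  mul_mem' := by
    intro g h hg hh u v
    have e : u * (g * h) * v = u * g * (h * v) := by group
    rw [e, hg, ← mul_assoc, hh]
  one_mem' := by intro u v; simp
  inv_mem' := by
    intro g hg u v
    have := hg (u * g⁻¹) v
    rw [inv_mul_cancel_right] at this
    exact this.symm

lemma mem_Nx {A : Type} {y : ↥(GG K) → A} {g : ↥(GG K)} :
    g ∈ Nx y ↔ ∀ u v, y (u * g * v) = y (u * v) := Iff.rfl

lemma Nx_conj {A : Type} {y : ↥(GG K) → A} {g : ↥(GG K)} (hg : g ∈ Nx y) (h : ↥(GG K)) :
    h * g * h⁻¹ ∈ Nx y := by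
  intro u v
  have e : u * (h * g * h⁻¹) * v = (u * h) * g * (h⁻¹ * v) := by group
  rw [e, hg]
  congr 1
  group

lemma exists_insert (hK : commutator K = ⊤) {a : ℕ} {y : ↥(GG K) → Fin a} (hy : ¬ HInv y)
    (n : ℕ) : ∃ b < 2, ∃ (κ : K) (h : ind (VV n b) κ ∈ GG K), (⟨ind (VV n b) κ, h⟩ : ↥(GG K)) ∉
      Nx y := by
  by_contra hcon
  push Not at hcon
  apply hy
  let N' : Subgroup (El K) := (Nx y).map (GG K).subtype
  have hBA : ∀ b < 2, BA N' (VV n b) := by
    intro b hb κ
    exact ⟨⟨_, BA_VV hK n b κ⟩, hcon b hb κ (BA_VV hK n b κ), rfl⟩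
  have huniv : BA N' (fun _ _ => True) := by
    refine (BA.union hK (hBA 0 (by norm_num)) (hBA 1 (by norm_num))).congr ?_
    intro d i
    simp only [VV, iff_true]
    have := (d.ok n).1
    omega
  have hconj : ∀ g ∈ GG K, ∀ h ∈ N', g * h * g⁻¹ ∈ N' := by
    rintro g hg h ⟨h', hh', rfl⟩
    exact ⟨⟨g, hg⟩ * h' * ⟨g, hg⟩⁻¹, Nx_conj hh' _, rfl⟩
  have hall : ∀ U, BA (GG K) U → BA N' U := by
    intro U hU κ
    let S : Subgroup K :=
      { carrier := {κ | ind U κ ∈ N'}
        mul_mem' := by
          intro a b ha hb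
          simp only [Set.mem_ofPred_eq] at ha hb ⊢
          rw [← ind_mul]; exact N'.mul_mem ha hb
        one_mem' := by
          simp only [Set.mem_ofPred_eq]; rw [ind_one]; exact N'.one_mem
        inv_mem' := by
          intro a ha
          simp only [Set.mem_ofPred_eq] at ha ⊢
          rw [← ind_inv]; exact N'.inv_mem ha }
    refine perfect_induction hK S ?_ κ
    intro a b
    show ind U ⁅a, b⁆ ∈ N'
    have e : ind U ⁅a, b⁆ = ⁅ind U a, ind (fun _ _ => True) b⁆ := by
      rw [ind_comm]
      exact ind_congr _ (by intro d i; simp)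
    rw [e, commutatorElement_def]
    exact N'.mul_mem (hconj _ (hU a) _ (huniv b)) (N'.inv_mem (huniv b))
  have haG : ∀ s κ, aG s κ ∈ Nx y := by
    intro s κ
    obtain ⟨g, hg, e⟩ := hall _ (BA_sym s) κ
    have : g = aG s κ := by
      apply Subtype.ext
      show (GG K).subtype g = genE (some (s, κ))
      rw [e, ind_eq_aE]
      rfl
    rw [← this]; exact hg
  have hfac : ∀ g : ↥(GG K), g * tG ^ (-nn g) ∈ Nx y := by
    intro g
    have hmem : g ∈ Subgroup.closure (Set.range (gG (K := K))) := by
      rw [closure_gG]; exact Subgroup.mem_top g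
    induction hmem using Subgroup.closure_induction with
    | mem z hz =>
      obtain ⟨o, rfl⟩ := hz
      cases o with
      | none =>
        have : (gG none : ↥(GG K)) * tG ^ (-nn (gG none : ↥(GG K))) = 1 := by
          show tG * tG ^ (-(1 : ℤ)) = 1
          rw [zpow_neg_one]; exact mul_inv_cancel _
        rw [this]; exact (Nx y).one_mem
      | some sk =>
        obtain ⟨s, κ⟩ := sk
        have : (gG (some (s, κ)) : ↥(GG K)) * tG ^ (-nn (gG (some (s, κ)) : ↥(GG K))) = aG s κ := by
          show aG s κ * tG ^ (-(0 : ℤ)) = aG s κ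
          simp
        rw [this]; exact haG s κ
    | one => simp only [nn_one, neg_zero, zpow_zero, mul_one]; exact (Nx y).one_mem
    | mul p q _ _ ihp ihq =>
      have e : p * q * tG ^ (-nn (p * q)) =
          p * (q * tG ^ (-nn q)) * p⁻¹ * (p * tG ^ (-nn p)) := by
        rw [nn_mul, neg_add, zpow_add, (Commute.zpow_zpow_self tG _ _).eq]
        group
      rw [e]
      exact (Nx y).mul_mem (Nx_conj ihq p) ihp
    | inv p _ ih =>
      have e : p⁻¹ * tG ^ (-nn p⁻¹) =
          (tG ^ (-nn p) * (p * tG ^ (-nn p)) * (tG ^ (-nn p))⁻¹)⁻¹ := by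
        rw [nn_inv]
        group
      rw [e]
      exact (Nx y).inv_mem (Nx_conj ih _)
  have hval : ∀ g, y g = y (tG ^ (nn g)) := by
    intro g
    have := hfac g 1 (tG ^ (nn g))
    rw [one_mul, one_mul] at this
    rw [← this]
    congr 1
    group
  intro g g' hgg
  rw [hval g, hval g', hgg]

/-! ### Periodic points -/

lemma exists_periodic {a : ℕ} (ξ : ℤ → Fin a) (M : ℕ) : ∃ (i p : ℕ), 0 < p ∧
    ∀ u : ℕ, u < p + M → ξ (i + (u % p : ℕ)) = ξ (i + u) := by
  obtain ⟨i, j, hij, he⟩ := Finite.exists_ne_map_eq_of_infinite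
    (fun (i : ℕ) (l : Fin M) => ξ (i + (l.val : ℤ)))
  wlog hlt : i < j generalizing i j
  · exact this j i hij.symm he.symm (by omega)
  refine ⟨i, j - i, by omega, ?_⟩
  intro u
  induction u using Nat.strong_induction_on with
  | _ u ih =>
    intro hu
    by_cases hup : u < j - i
    · rw [Nat.mod_eq_of_lt hup]
    · have h1 : u % (j - i) = (u - (j - i)) % (j - i) := by
        rw [Nat.mod_eq_sub_mod (by omega)]
      rw [h1, ih (u - (j - i)) (by omega) (by omega)]
      have h2 := congrFun he ⟨u - (j - i), by omega⟩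
      simp only at h2
      rw [h2]
      congr 1
      push_cast [Nat.cast_sub (show i ≤ j by omega), Nat.cast_sub (show j - i ≤ u by omega)]
      ring

theorem computable_of_HInv [Finite K] [Primcodable K] (lam : Fin N → Option (Fin 12 × K)) {a : ℕ}
    {X : Set (↥(GG K) → Fin a)} (hX : IsSFT X) {x : ↥(GG K) → Fin a} (hx : x ∈ X) (hH : HInv x) :
    ∃ f ∈ names (sG lam) X, Computable f := by
  obtain ⟨F, rfl⟩ := hX
  -- a bound for the exponent sums in the supports
  obtain ⟨R, hR⟩ : ∃ R : ℕ, ∀ p ∈ F, ∀ h ∈ p.1, (nn h).natAbs ≤ R := by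
    clear hx
    induction F with
    | nil => exact ⟨0, by simp⟩
    | cons p F ih =>
      obtain ⟨R, hR⟩ := ih
      refine ⟨max R (p.1.sup fun h => (nn h).natAbs), ?_⟩
      intro q hq h hh
      rcases List.mem_cons.1 hq with rfl | hq
      · exact le_trans (Finset.le_sup (f := fun h => (nn h).natAbs) hh) (le_max_right _ _)
      · exact le_trans (hR q hq h hh) (le_max_left _ _)
  let ξ : ℤ → Fin a := fun j => x (tG ^ j)
  have hxi : ∀ g, x g = ξ (nn g) := by
    intro g; apply hH; simp
  obtain ⟨i, p, hp, hper⟩ := exists_periodic ξ (2 * R + 1)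
  let y : ↥(GG K) → Fin a := fun g => ξ (i + (nn g % p))
  have hyX : y ∈ {x : ↥(GG K) → Fin a | ∀ p ∈ F, ∀ g, ¬ ∀ h ∈ p.1, x (g * h) = p.2 h} := by
    intro q hq g hg
    have hpZ : (0 : ℤ) < p := by exact_mod_cast hp
    obtain ⟨r, hr⟩ : ∃ r : ℕ, (r : ℤ) = (nn g - R) % p :=
      ⟨((nn g - R) % p).toNat, Int.toNat_of_nonneg (Int.emod_nonneg _ hpZ.ne')⟩
    have hrp : r < p := by
      have := Int.emod_lt_of_pos (nn g - R) hpZ
      rw [← hr] at this
      exact_mod_cast this
    refine hx q hq (tG ^ ((i : ℤ) + r + R)) ?_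
    intro h hh
    rw [← hg h hh]
    have hb := hR q hq h hh
    obtain ⟨l, hl⟩ : ∃ l : ℕ, (l : ℤ) = R + nn h := ⟨(R + nn h).toNat, by omega⟩
    have hlM : l < 2 * R + 1 := by omega
    rw [hxi]
    simp only [y, nn_mul, nn_tG_zpow]
    have e1 : (i : ℤ) + r + R + nn h = i + ((r + l : ℕ) : ℤ) := by push_cast; linarith
    rw [e1, ← hper (r + l) (by omega)]
    congr 2
    push_cast
    rw [hl, hr, Int.emod_add_emod]
    congr 1
    ring
  -- the name of y is computable
  let tbl : List ℕ := (List.range p).map (fun r => (ξ (i + (r : ℕ))).val)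
  let f : ℕ → ℕ := fun k => match (decode k : Option (List (Fin N × Bool))) with
    | some w => tbl.getD (((cnt lam w).1 + (p - 1) * (cnt lam w).2) % p) 0
    | none => 0
  refine ⟨f, ⟨y, hyX, ?_⟩, ?_⟩
  · intro k
    simp only [f]
    cases hk : (decode k : Option (List (Fin N × Bool))) with
    | none => rfl
    | some w =>
      simp only
      have hn : nn (evalWord (sG lam) w) = (evalE lam w).n := by
        unfold nn; rw [evalWord_coe]
      have hlt : ((cnt lam w).1 + (p - 1) * (cnt lam w).2) % p < p := Nat.mod_lt _ hp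
      have hget : tbl.getD (((cnt lam w).1 + (p - 1) * (cnt lam w).2) % p) 0 =
          (ξ (i + ((((cnt lam w).1 + (p - 1) * (cnt lam w).2) % p : ℕ) : ℤ))).val := by
        rw [List.getD_eq_getElem?_getD]
        simp only [tbl]
        rw [List.getElem?_map, List.getElem?_range hlt]
        rfl
      rw [hget]
      simp only [y]
      rw [hn, ← cnt_spec]
      congr 3
      push_cast [Nat.cast_sub (show 1 ≤ p from hp)]
      have e3 : ((cnt lam w).1 : ℤ) + ((p : ℤ) - 1) * (cnt lam w).2 =
          (((cnt lam w).1 : ℤ) - (cnt lam w).2) + p * (cnt lam w).2 := by ring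
      rw [e3, Int.add_mul_emod_self_left]
  · have h : Primrec f := by
      have := Primrec.option_casesOn
        (o := fun k : ℕ => (decode k : Option (List (Fin N × Bool))))
        (f := fun _ => 0)
        (g := fun _ w => tbl.getD (((cnt lam w).1 + (p - 1) * (cnt lam w).2) % p) 0)
        Primrec.decode (Primrec.const 0)
        (by
          have hc : Primrec (fun q : ℕ × List (Fin N × Bool) => cnt lam q.2) :=
            (primrec_cnt lam).comp Primrec.snd
          refine (Primrec.list_getD 0).comp (Primrec.const tbl) ?_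
          exact Primrec.nat_mod.comp (Primrec.nat_add.comp (Primrec.fst.comp hc)
            (Primrec.nat_mul.comp (Primrec.const _) (Primrec.snd.comp hc))) (Primrec.const p))
      refine this.of_eq ?_
      intro k
      simp only [f]
      cases (decode k : Option (List (Fin N × Bool))) <;> rfl
    exact h.to_comp


/-! ### Computing a `DNR_2` function from a point that is not `H`-invariant -/

section search
variable [DecidableEq K] [Primcodable K]

/-- one step of the search -/
def SCond (lam : Fin N → Option (Fin 12 × K)) (σ : List ℕ) (n : ℕ)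
    (c : (ℕ × K) × (List (Fin N × Bool) × List (Fin N × Bool) × List (Fin N × Bool)) × ℕ) :
    Prop :=
  CHK lam n c.1.1 c.1.2 c.2.1.2.1 c.2.2 ∧
    (σ[encode (c.2.1.1 ++ c.2.1.2.1 ++ c.2.1.2.2)]?).isSome = true ∧
    (σ[encode (c.2.1.1 ++ c.2.1.2.2)]?).isSome = true ∧
    ¬ (σ[encode (c.2.1.1 ++ c.2.1.2.1 ++ c.2.1.2.2)]? = σ[encode (c.2.1.1 ++ c.2.1.2.2)]?)

seal CHK in
lemma primrec_SCond [Finite K] (lam : Fin N → Option (Fin 12 × K)) :
    PrimrecPred fun q : (List ℕ × ℕ) ×
      ((ℕ × K) × (List (Fin N × Bool) × List (Fin N × Bool) × List (Fin N × Bool)) × ℕ) =>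
      SCond lam q.1.1 q.1.2 q.2 := by
  have hσ : Primrec fun q : (List ℕ × ℕ) ×
      ((ℕ × K) × (List (Fin N × Bool) × List (Fin N × Bool) × List (Fin N × Bool)) × ℕ) =>
      q.1.1 := Primrec.fst.comp Primrec.fst
  have hn : Primrec fun q : (List ℕ × ℕ) ×
      ((ℕ × K) × (List (Fin N × Bool) × List (Fin N × Bool) × List (Fin N × Bool)) × ℕ) =>
      q.1.2 := Primrec.snd.comp Primrec.fst
  have hb : Primrec fun q : (List ℕ × ℕ) ×
      ((ℕ × K) × (List (Fin N × Bool) × List (Fin N × Bool) × List (Fin N × Bool)) × ℕ) =>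
      q.2.1.1 := Primrec.fst.comp (Primrec.fst.comp Primrec.snd)
  have hκ : Primrec fun q : (List ℕ × ℕ) ×
      ((ℕ × K) × (List (Fin N × Bool) × List (Fin N × Bool) × List (Fin N × Bool)) × ℕ) =>
      q.2.1.2 := Primrec.snd.comp (Primrec.fst.comp Primrec.snd)
  have hu : Primrec fun q : (List ℕ × ℕ) ×
      ((ℕ × K) × (List (Fin N × Bool) × List (Fin N × Bool) × List (Fin N × Bool)) × ℕ) =>
      q.2.2.1.1 := Primrec.fst.comp (Primrec.fst.comp (Primrec.snd.comp Primrec.snd))
  have hw : Primrec fun q : (List ℕ × ℕ) ×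
      ((ℕ × K) × (List (Fin N × Bool) × List (Fin N × Bool) × List (Fin N × Bool)) × ℕ) =>
      q.2.2.1.2.1 := Primrec.fst.comp (Primrec.snd.comp
        (Primrec.fst.comp (Primrec.snd.comp Primrec.snd)))
  have hv : Primrec fun q : (List ℕ × ℕ) ×
      ((ℕ × K) × (List (Fin N × Bool) × List (Fin N × Bool) × List (Fin N × Bool)) × ℕ) =>
      q.2.2.1.2.2 := Primrec.snd.comp (Primrec.snd.comp
        (Primrec.fst.comp (Primrec.snd.comp Primrec.snd)))
  have hs : Primrec fun q : (List ℕ × ℕ) ×
      ((ℕ × K) × (List (Fin N × Bool) × List (Fin N × Bool) × List (Fin N × Bool)) × ℕ) =>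
      q.2.2.2 := Primrec.snd.comp (Primrec.snd.comp Primrec.snd)
  have h1a : Primrec fun q : (List ℕ × ℕ) ×
      ((ℕ × K) × (List (Fin N × Bool) × List (Fin N × Bool) × List (Fin N × Bool)) × ℕ) =>
      (((q.1.2, q.2.1.1, q.2.1.2), (q.2.2.1.2.1, q.2.2.2)) :
        (ℕ × ℕ × K) × List (Fin N × Bool) × ℕ) :=
    Primrec.pair (Primrec.pair hn (Primrec.pair hb hκ)) (Primrec.pair hw hs)
  have h1 : PrimrecPred fun q : (List ℕ × ℕ) ×
      ((ℕ × K) × (List (Fin N × Bool) × List (Fin N × Bool) × List (Fin N × Bool)) × ℕ) =>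
      CHK lam q.1.2 q.2.1.1 q.2.1.2 q.2.2.1.2.1 q.2.2.2 := (primrec_CHK lam).comp h1a
  have hi : Primrec fun q : (List ℕ × ℕ) ×
      ((ℕ × K) × (List (Fin N × Bool) × List (Fin N × Bool) × List (Fin N × Bool)) × ℕ) =>
      q.1.1[encode (q.2.2.1.1 ++ q.2.2.1.2.1 ++ q.2.2.1.2.2)]? :=
    Primrec.list_getElem?.comp hσ (Primrec.encode.comp
      (Primrec.list_append.comp (Primrec.list_append.comp hu hw) hv))
  have hj : Primrec fun q : (List ℕ × ℕ) ×
      ((ℕ × K) × (List (Fin N × Bool) × List (Fin N × Bool) × List (Fin N × Bool)) × ℕ) =>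
      q.1.1[encode (q.2.2.1.1 ++ q.2.2.1.2.2)]? :=
    Primrec.list_getElem?.comp hσ (Primrec.encode.comp (Primrec.list_append.comp hu hv))
  exact PrimrecPred.and h1 (PrimrecPred.and
    (Primrec.eq.comp (Primrec.option_isSome.comp hi) (Primrec.const true)) (PrimrecPred.and
    (Primrec.eq.comp (Primrec.option_isSome.comp hj) (Primrec.const true))
    (PrimrecPred.not (Primrec.eq.comp hi hj))))

open Classical in
/-- the search function -/
noncomputable def Th (lam : Fin N → Option (Fin 12 × K)) (σ : List ℕ) (n : ℕ) : Option ℕ :=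
  match (decode (Nat.unpair σ.length).2 : Option ((ℕ × K) × (List (Fin N × Bool) ×
    List (Fin N × Bool) × List (Fin N × Bool)) × ℕ)) with
  | none => none
  | some c => if SCond lam σ n c then some c.1.1 else none

lemma primrec_Th [Finite K] (lam : Fin N → Option (Fin 12 × K)) : Primrec₂ (Th lam) := by
  classical
  have hd : Primrec (fun p : List ℕ × ℕ =>
      (decode (Nat.unpair p.1.length).2 : Option ((ℕ × K) × (List (Fin N × Bool) ×
        List (Fin N × Bool) × List (Fin N × Bool)) × ℕ))) :=
    Primrec.decode.comp (Primrec.snd.comp (Primrec.unpair.comp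
      (Primrec.list_length.comp Primrec.fst)))
  have hS : PrimrecPred fun q : (List ℕ × ℕ) ×
      ((ℕ × K) × (List (Fin N × Bool) × List (Fin N × Bool) × List (Fin N × Bool)) × ℕ) =>
      SCond lam q.1.1 q.1.2 q.2 := primrec_SCond lam
  have hg : Primrec fun q : (List ℕ × ℕ) ×
      ((ℕ × K) × (List (Fin N × Bool) × List (Fin N × Bool) × List (Fin N × Bool)) × ℕ) =>
      if SCond lam q.1.1 q.1.2 q.2 then some q.2.1.1 else (none : Option ℕ) :=
    Primrec.ite hS (Primrec.option_some.comp (Primrec.fst.comp (Primrec.fst.comp Primrec.snd)))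
      (Primrec.const none)
  have h := Primrec.option_casesOn (o := fun p : List ℕ × ℕ =>
      (decode (Nat.unpair p.1.length).2 : Option ((ℕ × K) × (List (Fin N × Bool) ×
        List (Fin N × Bool) × List (Fin N × Bool)) × ℕ)))
    (f := fun _ => (none : Option ℕ))
    (g := fun p c => if SCond lam p.1 p.2 c then some c.1.1 else (none : Option ℕ))
    hd (Primrec.const none) hg
  refine h.of_eq ?_
  intro p
  simp only [Th]
  cases (decode (Nat.unpair p.1.length).2 : Option ((ℕ × K) × (List (Fin N × Bool) ×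
        List (Fin N × Bool) × List (Fin N × Bool)) × ℕ)) with
  | none => rfl
  | some c => simp only

/-- if no configuration of `X` depends only on the exponent sum, then `DNR_2` reduces to `X` -/
theorem medLE_DNR_names [Finite K] (hK : commutator K = ⊤)
    {lam : Fin N → Option (Fin 12 × K)} (hlam : Function.Surjective lam) {a : ℕ}
    {X : Set (↥(GG K) → Fin a)} (hX : ∀ x ∈ X, ¬ HInv x) :
    MedLE (DNR 2) (names (sG lam) X) := by
  classical
  obtain ⟨Φ, hΦ, hΦs⟩ := tf_search (Th lam) (primrec_Th lam).to_comp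
  refine ⟨Φ, hΦ, ?_⟩
  rintro g ⟨x, hx, hg⟩
  have hgw : ∀ w : List (Fin N × Bool), g (encode w) = (x (evalWord (sG lam) w)).val := by
    intro w
    rw [hg, encodek]
  -- the search succeeds
  have hex : ∀ n, ∃ k v, Th lam (pre g k) n = some v := by
    intro n
    obtain ⟨b, _, κ, hmem, hnot⟩ := exists_insert hK (hX x hx) n
    rw [mem_Nx] at hnot
    push Not at hnot
    obtain ⟨u', v', hne⟩ := hnot
    obtain ⟨u, rfl⟩ := exists_word (closure_sG hlam) u'
    obtain ⟨v, rfl⟩ := exists_word (closure_sG hlam) v'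
    obtain ⟨w, hw⟩ := exists_word (closure_sG hlam) (⟨ind (VV n b) κ, hmem⟩ : ↥(GG K))
    have hwE : evalE lam w = ind (VV n b) κ := by
      rw [← evalWord_coe, hw]
    obtain ⟨s, hs⟩ := CHK_complete hwE
    rw [← hw, ← evalWord_append, ← evalWord_append, ← evalWord_append] at hne
    let c : (ℕ × K) × (List (Fin N × Bool) × List (Fin N × Bool) × List (Fin N × Bool)) × ℕ :=
      ((b, κ), (u, w, v), s)
    let m := encode (u ++ w ++ v) + encode (u ++ v) + 1
    have hk1 : encode (u ++ w ++ v) < Nat.pair m (encode c) :=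
      lt_of_lt_of_le (by simp only [m]; omega) (Nat.left_le_pair _ _)
    have hk2 : encode (u ++ v) < Nat.pair m (encode c) :=
      lt_of_lt_of_le (by simp only [m]; omega) (Nat.left_le_pair _ _)
    refine ⟨Nat.pair m (encode c), b, ?_⟩
    have hS : SCond lam (pre g (Nat.pair m (encode c))) n c := by
      refine ⟨hs, ?_, ?_, ?_⟩
      · show ((pre g (Nat.pair m (encode c)))[encode (u ++ w ++ v)]?).isSome = true
        rw [pre_getElem? g hk1]; rfl
      · show ((pre g (Nat.pair m (encode c)))[encode (u ++ v)]?).isSome = true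
        rw [pre_getElem? g hk2]; rfl
      · show ¬ ((pre g (Nat.pair m (encode c)))[encode (u ++ w ++ v)]? =
          (pre g (Nat.pair m (encode c)))[encode (u ++ v)]?)
        rw [pre_getElem? g hk1, pre_getElem? g hk2, hgw, hgw]
        intro h
        exact hne (Fin.ext (Option.some.inj h))
    unfold Th
    rw [pre_length, Nat.unpair_pair]
    simp only [encodek]
    rw [if_pos hS]
  -- its answers are correct
  have hans : ∀ n k v, Th lam (pre g k) n = some v → v < 2 ∧ ¬ bad n v := by
    intro n k v h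
    unfold Th at h
    cases hd : (decode (Nat.unpair (pre g k).length).2 : Option ((ℕ × K) ×
        (List (Fin N × Bool) × List (Fin N × Bool) × List (Fin N × Bool)) × ℕ)) with
    | none => rw [hd] at h; simp at h
    | some c =>
      rw [hd] at h
      simp only at h
      split_ifs at h with hS
      obtain ⟨⟨b, κ⟩, ⟨u, w, v'⟩, s⟩ := c
      obtain ⟨h1, h2, h3, h4⟩ := hS
      simp only at h1 h2 h3 h4 h
      have hbv : b = v := Option.some.inj h
      subst hbv
      have hE := CHK_sound h1
      have hi : encode (u ++ w ++ v') < k := by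
        by_contra hcon
        rw [pre_getElem?_none g (by omega)] at h2
        simp at h2
      have hj : encode (u ++ v') < k := by
        by_contra hcon
        rw [pre_getElem?_none g (by omega)] at h3
        simp at h3
      rw [pre_getElem? g hi, pre_getElem? g hj, hgw, hgw] at h4
      by_cases hV : ∃ d i, VV n b d i
      · obtain ⟨d, i, hdi⟩ := hV
        have hdi' : d.r n / 3 = b := hdi
        have h5 := d.ok n
        rw [← hdi']
        exact ⟨by have := h5.1; omega, h5.2.2⟩
      · exfalso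
        apply h4
        have h6 : evalWord (sG lam) w = 1 := by
          apply Subtype.ext
          rw [evalWord_coe, hE]
          ext d i
          · rw [ind_neg]
            · rfl
            · intro h; exact hV ⟨d, i, h⟩
          · rfl
        rw [evalWord_append, evalWord_append, evalWord_append, h6, mul_one]
  choose F hF using fun n => hΦs g n (hex n)
  choose V hV1 hV2 using hF
  exact ⟨V, fun n => hans n _ _ (hV1 n), hV2⟩

end search

end Pool.Agent.MP_bced1d_lc
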