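import Pool.Agent.MP_bced1d_lc.Sofic

namespace Pool.Agent.MP_bced1d_lc

open Encodable

/-! ### Exact valuations -/

lemma exists_exact (m : ℕ) (i : ℤ) : ∃ l : ℕ, l < 2 ^ (m + 1) ∧ (2 ^ m : ℤ) ∣ i + l ∧
    ¬ (2 ^ (m + 1) : ℤ) ∣ i + l := by
  have hp : (0 : ℤ) < 2 ^ (m + 1) := by positivity
  let l : ℤ := (2 ^ m - i) % 2 ^ (m + 1)
  have hl0 : 0 ≤ l := Int.emod_nonneg _ hp.ne'
  have hl1 : l < 2 ^ (m + 1) := Int.emod_lt_of_pos _ hp
  have hlN : ((l.toNat : ℕ) : ℤ) = l := Int.toNat_of_nonneg hl0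
  have hq : ∃ q : ℤ, i + l = 2 ^ m + 2 ^ (m + 1) * q := by
    refine ⟨-((2 ^ m - i) / 2 ^ (m + 1)), ?_⟩
    have := Int.emod_add_mul_ediv (2 ^ m - i) (2 ^ (m + 1))
    have e : l = (2 ^ m - i) - 2 ^ (m + 1) * ((2 ^ m - i) / 2 ^ (m + 1)) := by
      simp only [l]; linarith
    rw [e]; ring
  obtain ⟨q, hq⟩ := hq
  refine ⟨l.toNat, ?_, ?_, ?_⟩
  · have : ((l.toNat : ℕ) : ℤ) < ((2 ^ (m + 1) : ℕ) : ℤ) := by
      rw [hlN]; push_cast; exact hl1
    exact_mod_cast this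
  · rw [hlN, hq]; exact ⟨1 + 2 * q, by ring⟩
  · rw [hlN, hq]
    intro h
    have h' : (2 ^ (m + 1) : ℤ) ∣ 2 ^ m := by
      have := Int.dvd_sub h (Dvd.intro q rfl)
      simpa using this
    have := Int.le_of_dvd (by positivity) h'
    have h3 : (2 : ℤ) ^ m < 2 ^ (m + 1) := by
      rw [pow_succ]; have : (0 : ℤ) < 2 ^ m := by positivity
      linarith
    linarith

lemma not_dvd_add {n : ℕ} {j : ℤ} (h : (2 ^ (n + 1) : ℤ) ∣ j) :
    (2 ^ n : ℤ) ∣ j + 2 ^ n ∧ ¬ (2 ^ (n + 1) : ℤ) ∣ j + 2 ^ n := by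
  refine ⟨(dvd_add_left (dvd_refl _)).2 (dvd_trans (pow_dvd_pow 2 (Nat.le_succ n)) h), ?_⟩
  intro h2
  have h' : (2 ^ (n + 1) : ℤ) ∣ 2 ^ n := (Int.dvd_add_right h).1 h2
  have := Int.le_of_dvd (by positivity) h'
  have h3 : (2 : ℤ) ^ n < 2 ^ (n + 1) := by
    rw [pow_succ]; have : (0 : ℤ) < 2 ^ n := by positivity
    linarith
  linarith

lemma toe_exact (d : Par) {j : ℤ} {m : ℕ} (h1 : (2 ^ m : ℤ) ∣ j) (h2 : ¬ (2 ^ (m + 1) : ℤ) ∣ j) :
    (toe d j).val = m % 2 + 2 * d.r m := by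
  have hj0 : j ≠ 0 := by rintro rfl; exact h2 (dvd_zero _)
  simp only [toe, if_neg hj0, vZ_unique h1 h2]

lemma toe_eq_of_dvd (d : Par) {j j' : ℤ} {n : ℕ} (h : (2 ^ (n + 1) : ℤ) ∣ j - j')
    (hj : ¬ (2 ^ (n + 1) : ℤ) ∣ j) : toe d j = toe d j' := by
  have hj0 : j ≠ 0 := by rintro rfl; exact hj (dvd_zero _)
  obtain ⟨h1, h2⟩ := vZ_spec hj0
  have hv : vZ j ≤ n := by
    by_contra hcon
    exact hj (dvd_trans (pow_dvd_pow 2 (by omega)) h1)
  have h3 : (2 ^ vZ j : ℤ) ∣ j - j' := dvd_trans (pow_dvd_pow 2 (by omega)) h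
  have h4 : (2 ^ (vZ j + 1) : ℤ) ∣ j - j' := dvd_trans (pow_dvd_pow 2 (by omega)) h
  have h5 : (2 ^ vZ j : ℤ) ∣ j' := by
    have := Int.dvd_sub h1 h3
    rwa [sub_sub_cancel] at this
  have h6 : ¬ (2 ^ (vZ j + 1) : ℤ) ∣ j' := by
    intro h'
    apply h2
    have := dvd_add h4 h'
    rwa [sub_add_cancel] at this
  apply Fin.ext
  rw [toe_exact d h1 h2, toe_exact d h5 h6]

lemma exists_computable_search {P : ℕ → ℕ → Bool} (hP : Computable₂ P)
    (h : ∀ e, ∃ k, P e k = true) : ∃ D : ℕ → ℕ, Computable D ∧ ∀ e, P e (D e) = true := by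
  classical
  have hp : Partrec fun e => Nat.rfind (fun k => (Part.some (P e k) : Part Bool)) :=
    Partrec.rfind (p := fun e k => (Part.some (P e k) : Part Bool)) hP.partrec₂
  refine ⟨fun e => Nat.find (h e), ?_, fun e => Nat.find_spec (h e)⟩
  refine Partrec.of_eq_tot hp ?_
  intro e
  rw [Nat.mem_rfind]
  refine ⟨?_, ?_⟩
  · simp only [Part.mem_some_iff]
    exact (Nat.find_spec (h e)).symm
  · intro m hm
    simp only [Part.mem_some_iff]
    have := Nat.find_min (h e) hm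
    simpa using this

variable {K : Type} [Group K] {N : ℕ}

lemma evalWord_replicate {G : Type} [Group G] (s : Fin N → G) (j : Fin N) (l : ℕ) :
    evalWord s ((List.range l).map (fun _ => (j, true))) = s j ^ l := by
  induction l with
  | zero => simp [evalWord_nil]
  | succ l ih =>
    rw [List.range_succ, List.map_append, evalWord_append, ih, pow_succ]
    simp [evalWord]

theorem no_computable_name [Fintype K] [Nontrivial K] (hK : commutator K = ⊤)
    (hcomm : ∀ κ : K, κ ≠ 1 → ∃ κ', κ * κ' = κ' * κ ∧ κ' ≠ 1 ∧ κ' ≠ κ ∧ κ * κ' ≠ 1)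
    {lam : Fin N → Option (Fin 12 × K)} (hlam : Function.Surjective lam)
    {f : ℕ → ℕ} (hf : f ∈ names (sG lam) (Y0 K)) : ¬ Computable f := by
  intro hcf
  obtain ⟨y, hy, hfy⟩ := hf
  obtain ⟨jt, hjt⟩ := hlam none
  let ψ : ℕ → ℕ := fun l => f (encode ((List.range l).map (fun _ => (jt, true))))
  have hψc : Computable ψ := by
    have h1 : Primrec (fun l : ℕ => (List.range l).map (fun _ => (jt, true))) :=
      Primrec.list_map Primrec.list_range (Primrec.const _).to₂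
    exact hcf.comp (Primrec.encode.comp h1).to_comp
  have hst : sG lam jt = tG := by
    apply Subtype.ext
    show genE (lam jt) = genE none
    rw [hjt]
  have hψ : ∀ l : ℕ, ψ l = (y (tG ^ (l : ℤ))).val := by
    intro l
    simp only [ψ]
    rw [hfy, encodek]
    simp only
    rw [evalWord_replicate, hst, zpow_natCast]
  -- search
  let P : ℕ → ℕ → Bool := fun n k =>
    ((Nat.unpair k).1 % 2 ^ (n + 1) == (Nat.unpair k).2 % 2 ^ (n + 1)) &&
      !(ψ (Nat.unpair k).1 == ψ (Nat.unpair k).2)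
  have hPc : Computable₂ P := by
    have hu1 : Primrec (fun p : ℕ × ℕ => (Nat.unpair p.2).1) :=
      Primrec.fst.comp (Primrec.unpair.comp Primrec.snd)
    have hu2 : Primrec (fun p : ℕ × ℕ => (Nat.unpair p.2).2) :=
      Primrec.snd.comp (Primrec.unpair.comp Primrec.snd)
    have hpw : Primrec (fun p : ℕ × ℕ => 2 ^ (p.1 + 1)) :=
      primrec_pow.comp (Primrec.const 2) (Primrec.succ.comp Primrec.fst)
    have h1 : Computable (fun p : ℕ × ℕ =>
        ((Nat.unpair p.2).1 % 2 ^ (p.1 + 1) == (Nat.unpair p.2).2 % 2 ^ (p.1 + 1))) :=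
      (Primrec.beq.comp (Primrec.nat_mod.comp hu1 hpw) (Primrec.nat_mod.comp hu2 hpw)).to_comp
    have h2 : Computable (fun p : ℕ × ℕ =>
        !(ψ (Nat.unpair p.2).1 == ψ (Nat.unpair p.2).2)) :=
      Primrec.not.to_comp.comp
        (Primrec.beq.to_comp.comp (hψc.comp hu1.to_comp) (hψc.comp hu2.to_comp))
    exact Primrec.and.to_comp.comp h1 h2
  have hPex : ∀ n, ∃ k, P n k = true := by
    intro n
    obtain ⟨d, i, hwin⟩ := Y0_window hK hcomm hy (2 ^ (n + 3))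
    obtain ⟨l1, hl1, ha1, hb1⟩ := exists_exact (n + 1) i
    obtain ⟨l2, hl2, ha2, hb2⟩ := exists_exact (n + 2) i
    have hlt : 2 ^ (n + 1 + 1) < 2 ^ (n + 3) := Nat.pow_lt_pow_right (by norm_num) (by omega)
    refine ⟨Nat.pair l1 l2, ?_⟩
    simp only [P, Nat.unpair_pair, Bool.and_eq_true, beq_iff_eq, Bool.not_eq_true',
      beq_eq_false_iff_ne, ne_eq]
    constructor
    · have h1 : ((2 ^ (n + 1) : ℕ) : ℤ) ∣ ((l2 : ℤ) - l1) := by
        have h2 : (2 ^ (n + 1) : ℤ) ∣ i + l2 :=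
          dvd_trans (pow_dvd_pow 2 (Nat.le_succ _)) ha2
        have := Int.dvd_sub h2 ha1
        push_cast
        rwa [add_sub_add_left_eq_sub] at this
      exact ((Nat.modEq_iff_dvd).2 h1)
    · rw [hψ, hψ, hwin l1 (by omega), hwin l2 (by omega), toe_exact d ha1 hb1,
        toe_exact d ha2 hb2]
      omega
  obtain ⟨D, hD, hDP⟩ := exists_computable_search hPc hPex
  have hq : Computable (fun n => ψ ((Nat.unpair (D n)).1 + 2 ^ n) / 2) := by
    have h1 : Computable (fun n => (Nat.unpair (D n)).1 + 2 ^ n) :=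
      Primrec.nat_add.to_comp.comp (Computable.fst.comp (Computable.unpair.comp hD))
        (primrec_pow.comp (Primrec.const 2) Primrec.id).to_comp
    exact Primrec.nat_div.to_comp.comp (hψc.comp h1) (Computable.const 2)
  obtain ⟨n, hn⟩ := exists_bad_of_computable hq
  have hP := hDP n
  simp only [P, Bool.and_eq_true, beq_iff_eq, Bool.not_eq_true',
      beq_eq_false_iff_ne, ne_eq] at hP
  obtain ⟨hmod, hne⟩ := hP
  generalize hj1 : (Nat.unpair (D n)).1 = j1 at *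
  generalize hj2 : (Nat.unpair (D n)).2 = j2 at *
  obtain ⟨d, i, hwin⟩ := Y0_window hK hcomm hy (j1 + j2 + 2 ^ n + 1)
  rw [hψ, hψ, hwin j1 (by omega), hwin j2 (by omega)] at hne
  have hdj : (2 ^ (n + 1) : ℤ) ∣ (i + j1) - (i + j2) := by
    have h1 : ((2 ^ (n + 1) : ℕ) : ℤ) ∣ ((j1 : ℤ) - j2) :=
      (Nat.modEq_iff_dvd).1 hmod.symm
    rw [add_sub_add_left_eq_sub]
    push_cast at h1
    exact h1
  have hdvd : (2 ^ (n + 1) : ℤ) ∣ i + j1 := by
    by_contra hcon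
    apply hne
    rw [toe_eq_of_dvd d hdj hcon]
  obtain ⟨hA, hB⟩ := not_dvd_add hdvd
  have hval : ψ (j1 + 2 ^ n) = (n % 2 + 2 * d.r n) % 6 := by
    rw [hψ, hwin _ (by omega)]
    have : i + ((j1 + 2 ^ n : ℕ) : ℤ) = i + j1 + 2 ^ n := by push_cast; ring
    rw [this, toe_exact d hA hB]
  rw [hval] at hn
  have h3 : (n % 2 + 2 * d.r n) % 6 / 2 = d.r n % 3 := by omega
  rw [h3] at hn
  exact (d.ok n).2.1 hn

end Pool.Agent.MP_bced1d_lc
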