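import Pool.Agent.MP_bced1d_lc.Comp

namespace Pool.Agent.MP_bced1d_lc

open Encodable

variable {K : Type} [Group K] {N : ℕ}

/-- the generating family -/
def sG (lam : Fin N → Option (Fin 12 × K)) : Fin N → ↥(GG K) :=
  fun j => ⟨genE (lam j), Subgroup.subset_closure ⟨lam j, rfl⟩⟩

lemma evalWord_map {G H : Type} [Group G] [Group H] (φ : G →* H) (s : Fin N → G)
    (w : List (Fin N × Bool)) : φ (evalWord s w) = evalWord (fun j => φ (s j)) w := by
  induction w with
  | nil => simp [evalWord_nil]
  | cons l w ih =>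
    rw [evalWord_cons, evalWord_cons, map_mul, ih]
    congr 1
    split_ifs
    · rfl
    · simp

lemma evalWord_coe (lam : Fin N → Option (Fin 12 × K)) (w : List (Fin N × Bool)) :
    ((evalWord (sG lam) w : ↥(GG K)) : El K) = evalE lam w :=
  evalWord_map (GG K).subtype (sG lam) w

lemma lift_mk_eq {G : Type} [Group G] (s : Fin N → G) (w : List (Fin N × Bool)) :
    FreeGroup.lift s (FreeGroup.mk w) = evalWord s w := by
  rw [FreeGroup.lift_mk]
  unfold evalWord
  congr 1
  apply List.map_congr_left
  intro p _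
  cases p.2 <;> rfl

lemma closure_sG {lam : Fin N → Option (Fin 12 × K)} (hlam : Function.Surjective lam) :
    Subgroup.closure (Set.range (sG lam)) = ⊤ := by
  apply Subgroup.map_injective (GG K).subtype_injective
  rw [MonoidHom.map_closure, ← Set.range_comp]
  have e : Set.range ((GG K).subtype ∘ sG lam) = Set.range (genE (K := K)) := by
    ext x
    constructor
    · rintro ⟨j, rfl⟩; exact ⟨lam j, rfl⟩
    · rintro ⟨o, rfl⟩
      obtain ⟨j, rfl⟩ := hlam o
      exact ⟨j, rfl⟩
  rw [e, ← MonoidHom.range_eq_map, Subgroup.range_subtype]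
  rfl

lemma exists_word {G : Type} [Group G] {s : Fin N → G}
    (hs : Subgroup.closure (Set.range s) = ⊤) (g : G) : ∃ w, evalWord s w = g := by
  obtain ⟨x, hx⟩ := (FreeGroup.lift_surjective_iff_closure_range_eq_top.2 hs) g
  refine ⟨x.toWord, ?_⟩
  rw [← lift_mk_eq, FreeGroup.mk_toWord, hx]

theorem recPres_sG [Finite K] [Primcodable K] {lam : Fin N → Option (Fin 12 × K)}
    (hlam : Function.Surjective lam) : RecPres (sG lam) := by
  classical
  refine ⟨closure_sG hlam, fun w => ∃ s, CHK lam 0 0 1 w s, ?_, ?_⟩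
  · have h : PrimrecRel (fun (w : List (Fin N × Bool)) (s : ℕ) => CHK lam 0 0 1 w s) := by
      have h1 : Primrec (fun p : List (Fin N × Bool) × ℕ =>
          ((((0, 0, 1), (p.1, p.2))) : (ℕ × ℕ × K) × List (Fin N × Bool) × ℕ)) :=
        Primrec.pair (Primrec.const _) (Primrec.pair Primrec.fst Primrec.snd)
      exact (primrec_CHK lam).comp h1
    exact rePred_exists h
  · have hR : ∀ w, (∃ s, CHK lam 0 0 1 w s) ↔ evalE lam w = 1 := by
      intro w
      rw [← ind_one (VV 0 0)]
      constructor
      · rintro ⟨s, hs⟩; exact CHK_sound hs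
      · intro h; exact CHK_complete h
    have hset : {x | ∃ w, (∃ s, CHK lam 0 0 1 w s) ∧ x = FreeGroup.mk w} =
        ((FreeGroup.lift (sG lam)).ker : Set (FreeGroup (Fin N))) := by
      ext x
      simp only [Set.mem_ofPred_eq, SetLike.mem_coe, MonoidHom.mem_ker]
      constructor
      · rintro ⟨w, hw, rfl⟩
        rw [hR] at hw
        rw [lift_mk_eq]
        apply Subtype.ext
        rw [evalWord_coe, hw]
        rfl
      · intro hx
        refine ⟨x.toWord, ?_, FreeGroup.mk_toWord.symm⟩
        rw [hR, ← evalWord_coe, ← lift_mk_eq, FreeGroup.mk_toWord, hx]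
        rfl
    rw [hset]
    apply le_antisymm
    · exact Subgroup.le_normalClosure
    · exact Subgroup.normalClosure_le_normal (le_refl _)

end Pool.Agent.MP_bced1d_lc
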