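import Pool.Agent.MP_bced1d_lc.Soft

namespace Pool.Agent.MP_bced1d_lc

variable {K : Type} [Group K] [Fintype K]

variable (K) in
/-- size of the alphabet of the SFT -/
def aK : ℕ := Fintype.card (K × Fin 12)

variable (K) in
/-- coding of the alphabet -/
noncomputable def enc : K × Fin 12 ≃ Fin (aK K) := Fintype.equivFin _

/-- first coordinate -/
noncomputable def xc (u : Fin (aK K)) : K := ((enc K).symm u).1
/-- second coordinate -/
noncomputable def ec (u : Fin (aK K)) : Fin 12 := ((enc K).symm u).2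

/-- the local rule -/
def Loc (z : ↥(GG K) → Fin (aK K)) : Prop :=
  ∀ o, xc (z (gG o)) = xc (z 1) * act o (ec (z 1))

variable (K) in
/-- the SFT -/
def X0 : Set (↥(GG K) → Fin (aK K)) := {z | ∀ g, Loc (fun h => z (g * h))}

lemma mem_X0 {z : ↥(GG K) → Fin (aK K)} :
    z ∈ X0 K ↔ Pt (fun g => xc (z g)) (fun g => ec (z g)) := by
  unfold X0 Loc Pt
  simp only [Set.mem_ofPred_eq, mul_one]

theorem isSFT_X0 : IsSFT (X0 K) := by
  classical
  refine isSFT_of_local ((enc K) (1, 0))
    (insert 1 (Finset.univ.image (gG (K := K)))) Loc ?_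
  intro z z' h hz o
  have h1 : z 1 = z' 1 := h 1 (Finset.mem_insert_self _ _)
  have h2 : z (gG o) = z' (gG o) :=
    h _ (Finset.mem_insert_of_mem (Finset.mem_image_of_mem _ (Finset.mem_univ o)))
  rw [← h1, ← h2]
  exact hz o

/-- the letter map of the factor map -/
noncomputable def pr (u : Fin (aK K)) : Fin 6 := ⟨(ec u).val % 6, Nat.mod_lt _ (by norm_num)⟩

/-- the factor map -/
noncomputable def phi (z : ↥(GG K) → Fin (aK K)) : ↥(GG K) → Fin 6 := fun g => pr (z g)

variable (K) in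
/-- the sofic subshift -/
noncomputable def Y0 : Set (↥(GG K) → Fin 6) := phi '' X0 K

lemma continuous_phi : Continuous (phi (K := K)) := by
  refine continuous_pi fun g => ?_
  exact (continuous_of_discreteTopology (f := pr (K := K))).comp (continuous_apply g)

lemma isClosed_X0 : IsClosed (X0 K) := by
  have : X0 K = ⋂ g : ↥(GG K), ⋂ o : Option (Fin 12 × K),
      {z | xc (z (g * gG o)) = xc (z g) * act o (ec (z g))} := by
    ext z
    rw [mem_X0]
    simp only [Set.mem_iInter, Set.mem_ofPred_eq]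
    rfl
  rw [this]
  refine isClosed_iInter fun g => isClosed_iInter fun o => ?_
  have hc : Continuous (fun z : ↥(GG K) → Fin (aK K) => (z (g * gG o), z g)) := by fun_prop
  exact (isClosed_discrete {p : Fin (aK K) × Fin (aK K) |
    xc p.1 = xc p.2 * act o (ec p.2)}).preimage hc

lemma shift_X0 {z : ↥(GG K) → Fin (aK K)} (hz : z ∈ X0 K) (g : ↥(GG K)) : shift g z ∈ X0 K := by
  intro g'
  have := hz (g⁻¹ * g')
  simp only [shift]
  simp only [mul_assoc] at this ⊢
  exact this

theorem isSofic_Y0 : IsSofic (Y0 K) := by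
  refine ⟨⟨?_, ?_⟩, ?_⟩
  · exact ((isClosed_X0.isCompact).image continuous_phi).isClosed
  · rintro g y ⟨z, hz, rfl⟩
    exact ⟨shift g z, shift_X0 hz g, rfl⟩
  · exact ⟨aK K, X0 K, phi, isSFT_X0, continuous_phi.continuousOn, fun _ _ _ => rfl, rfl⟩

/-- the points given by the parameters -/
lemma point_mem (d : Par) (i : ℤ) :
    (fun g : ↥(GG K) => (enc K) ((g : El K).f d i, toe d (i + nn g))) ∈ X0 K := by
  rw [mem_X0]
  intro g o
  simp only [xc, ec, Equiv.symm_apply_apply]
  have : ((g * gG o : ↥(GG K)) : El K) = (g : El K) * genE o := rfl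
  rw [this, El.mul_f]
  congr 1
  show (genE o).f d (i + (g : El K).n) = act o (toe d (i + (g : El K).n))
  cases o with
  | none => rfl
  | some sk => rfl

lemma Y0_nonempty_of (d : Par) :
    (fun g : ↥(GG K) => (⟨(toe d (nn g)).val % 6, Nat.mod_lt _ (by norm_num)⟩ : Fin 6)) ∈ Y0 K := by
  refine ⟨_, point_mem d 0, ?_⟩
  funext g
  simp only [phi, pr, ec, Equiv.symm_apply_apply, zero_add]

/-- every point of `Y0` depends only on the exponent sum and its windows are windows of the
projected Toeplitz sequences -/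
theorem Y0_window [Nontrivial K] (hK : commutator K = ⊤)
    (hcomm : ∀ κ : K, κ ≠ 1 → ∃ κ', κ * κ' = κ' * κ ∧ κ' ≠ 1 ∧ κ' ≠ κ ∧ κ * κ' ≠ 1)
    {y : ↥(GG K) → Fin 6} (hy : y ∈ Y0 K) (R : ℕ) :
    ∃ (d : Par) (i : ℤ), ∀ l : ℕ, l < R → (y (tG ^ (l : ℤ))).val = (toe d (i + l)).val % 6 := by
  obtain ⟨z, hz, rfl⟩ := hy
  rw [mem_X0] at hz
  obtain ⟨d, i, h⟩ := hz.window hK hcomm R
  refine ⟨d, i, ?_⟩
  intro l hl
  rw [h l hl]
  rfl

end Pool.Agent.MP_bced1d_lc
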