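import Pool.Agent.MP_bced1d_lc.Pres

namespace Pool.Agent.MP_bced1d_lc

open scoped commutatorElement

/-! ### Local rules define SFTs -/

lemma isSFT_of_local {G : Type} [Group G] {a : ℕ} (u₀ : Fin a) (W : Finset G)
    (P : (G → Fin a) → Prop) (hP : ∀ z z', (∀ h ∈ W, z h = z' h) → P z → P z') :
    IsSFT {z : G → Fin a | ∀ g, P (fun h => z (g * h))} := by
  classical
  let ex : (W → Fin a) → (G → Fin a) := fun p h => if hh : h ∈ W then p ⟨h, hh⟩ else u₀
  refine ⟨(((Finset.univ : Finset (W → Fin a)).toList.filter (fun p => ¬ P (ex p))).map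
    (fun p => (W, ex p))), ?_⟩
  ext z
  simp only [Set.mem_ofPred_eq, List.mem_map, List.mem_filter, Finset.mem_toList,
    Finset.mem_univ, true_and, decide_eq_true_eq, forall_exists_index, and_imp]
  constructor
  · rintro hz p q hq rfl g hg
    exact hq (hP _ _ hg (hz g))
  · intro hz g
    by_contra hcon
    let q : W → Fin a := fun h => z (g * h)
    have hqa : ∀ h ∈ W, ex q h = z (g * h) := by
      intro h hh
      simp only [ex, dif_pos hh, q]
    refine hz _ q ?_ rfl g (fun h hh => (hqa h hh).symm)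
    intro hPq
    exact hcon (hP _ _ hqa hPq)

/-! ### The group elements -/

variable {K : Type} [Group K]

/-- the generators as elements of the group -/
def gG (o : Option (Fin 12 × K)) : ↥(GG K) := ⟨genE o, Subgroup.subset_closure ⟨o, rfl⟩⟩

lemma closure_gG : Subgroup.closure (Set.range (gG (K := K))) = ⊤ := by
  apply Subgroup.map_injective (GG K).subtype_injective
  rw [MonoidHom.map_closure, ← Set.range_comp]
  rw [← MonoidHom.range_eq_map, Subgroup.range_subtype]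
  rfl

/-- the exponent sum -/
def nn (g : ↥(GG K)) : ℤ := (g : El K).n

@[simp] lemma nn_mul (g h : ↥(GG K)) : nn (g * h) = nn g + nn h := rfl
@[simp] lemma nn_one : nn (1 : ↥(GG K)) = 0 := rfl
@[simp] lemma nn_inv (g : ↥(GG K)) : nn g⁻¹ = - nn g := rfl

/-- the shift generator -/
def tG : ↥(GG K) := gG none
/-- the other generators -/
def aG (s : Fin 12) (κ : K) : ↥(GG K) := gG (some (s, κ))

lemma tG_zpow_coe (l : ℤ) : (((tG : ↥(GG K)) ^ l : ↥(GG K)) : El K) = tE ^ l := by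
  rw [Subgroup.coe_zpow]; rfl

@[simp] lemma nn_tG_zpow (l : ℤ) : nn ((tG : ↥(GG K)) ^ l) = l := by
  unfold nn; rw [tG_zpow_coe, tE_zpow_n]

@[simp] lemma nn_tG : nn (tG : ↥(GG K)) = 1 := rfl

@[simp] lemma nn_aG (s : Fin 12) (κ : K) : nn (aG s κ) = 0 := rfl

/-- the action of a generator on the first coordinate -/
def act (o : Option (Fin 12 × K)) (c : Fin 12) : K :=
  match o with
  | none => 1
  | some (s, κ) => if c = s then κ else 1

/-- points of the SFT in coordinates -/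
def Pt (x : ↥(GG K) → K) (e : ↥(GG K) → Fin 12) : Prop :=
  ∀ g o, x (g * gG o) = x g * act o (e g)

section pt
variable {x : ↥(GG K) → K} {e : ↥(GG K) → Fin 12} (hp : Pt x e)
include hp

lemma Pt.t (g : ↥(GG K)) : x (g * tG) = x g := by
  have := hp g none
  simp only [act, mul_one] at this
  exact this

lemma Pt.a (g : ↥(GG K)) (s : Fin 12) (κ : K) :
    x (g * aG s κ) = x g * (if e g = s then κ else 1) := hp g (some (s, κ))

lemma Pt.tpow (g : ↥(GG K)) (l : ℤ) : x (g * tG ^ l) = x g := by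
  induction l using Int.induction_on with
  | zero => simp
  | succ i ih => rw [zpow_add_one, ← mul_assoc, hp.t, ih]
  | pred i ih =>
    rw [← ih, zpow_sub_one, ← mul_assoc, ← hp.t (g * tG ^ (-(i : ℤ)) * tG⁻¹)]
    simp

lemma Pt.conj (g : ↥(GG K)) (l : ℤ) (s : Fin 12) (κ : K) :
    x (g * (tG ^ l * aG s κ * (tG ^ l)⁻¹)) = x g * (if e (g * tG ^ l) = s then κ else 1) := by
  have h1 : g * (tG ^ l * aG s κ * (tG ^ l)⁻¹) = g * tG ^ l * aG s κ * tG ^ (-l) := by
    rw [zpow_neg]; group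
  rw [h1, hp.tpow, hp.a, hp.tpow]

omit hp in
lemma comm_ta (l : ℤ) (s s' : Fin 12) {κ κ' : K} (h : κ * κ' = κ' * κ) :
    aG s κ * (tG ^ l * aG s' κ' * (tG ^ l)⁻¹) =
      (tG ^ l * aG s' κ' * (tG ^ l)⁻¹) * aG s κ := by
  apply Subtype.ext
  have e1 : (((tG ^ l * aG s' κ' * (tG ^ l)⁻¹ : ↥(GG K))) : El K) =
      ind (fun d i => toe d (i + l) = s') κ' := by
    rw [← ind_conj (fun d i => toe d i = s') κ' l, ind_eq_aE]
    simp only [Subgroup.coe_mul, Subgroup.coe_inv, tG_zpow_coe]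
    rfl
  have e2 : ((aG s κ : ↥(GG K)) : El K) = ind (fun d i => toe d i = s) κ := by
    rw [ind_eq_aE]; rfl
  show ((aG s κ : ↥(GG K)) : El K) * (((tG ^ l * aG s' κ' * (tG ^ l)⁻¹ : ↥(GG K))) : El K) =
    (((tG ^ l * aG s' κ' * (tG ^ l)⁻¹ : ↥(GG K))) : El K) * ((aG s κ : ↥(GG K)) : El K)
  rw [e1, e2]
  ext d i
  · by_cases h1 : toe d (i + l) = s' <;> by_cases h2 : toe d i = s <;> simp [ind, h1, h2, h]
  · simp

lemma Pt.e_a (hcomm : ∀ κ : K, κ ≠ 1 → ∃ κ', κ * κ' = κ' * κ ∧ κ' ≠ 1 ∧ κ' ≠ κ ∧ κ * κ' ≠ 1)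
    (g : ↥(GG K)) (s : Fin 12) (κ : K) (l : ℤ) : e (g * aG s κ * tG ^ l) = e (g * tG ^ l) := by
  by_cases hκ : κ = 1
  · have : aG s κ = 1 := by
      subst hκ
      apply Subtype.ext
      have : ((aG s (1 : K) : ↥(GG K)) : El K) = ind (fun d i => toe d i = s) 1 := by
        rw [ind_eq_aE]; rfl
      rw [this, ind_one]; rfl
    rw [this, mul_one]
  obtain ⟨κ', h1, h2, h3, h4⟩ := hcomm κ hκ
  by_contra hne
  have e1 : x (g * aG s κ * (tG ^ l * aG (e (g * tG ^ l)) κ' * (tG ^ l)⁻¹)) =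
      x (g * (tG ^ l * aG (e (g * tG ^ l)) κ' * (tG ^ l)⁻¹) * aG s κ) := by
    rw [mul_assoc g, comm_ta l s _ h1, ← mul_assoc g]
  rw [hp.conj, hp.a, hp.a, hp.conj, if_neg hne, if_pos rfl, mul_one, mul_assoc] at e1
  have e2 := mul_left_cancel e1
  split_ifs at e2 with c1 c2 c2
  · apply h2
    have : κ = κ' * κ := e2
    exact (mul_eq_right.1 this.symm)
  · exact h3 (by rw [e2, mul_one])
  · apply h4; rw [h1]; exact e2.symm
  · apply h2; rw [mul_one] at e2; exact e2.symm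

lemma Pt.e_inv (hcomm : ∀ κ : K, κ ≠ 1 → ∃ κ', κ * κ' = κ' * κ ∧ κ' ≠ 1 ∧ κ' ≠ κ ∧ κ * κ' ≠ 1)
    (h : ↥(GG K)) : ∀ g l, e (g * h * tG ^ l) = e (g * tG ^ (nn h + l)) := by
  have hmem : h ∈ Subgroup.closure (Set.range (gG (K := K))) := by
    rw [closure_gG]; exact Subgroup.mem_top h
  induction hmem using Subgroup.closure_induction with
  | mem y hy =>
    obtain ⟨o, rfl⟩ := hy
    intro g l
    cases o with
    | none =>
      have e1 : g * gG none * tG ^ l = g * tG ^ (1 + l) := by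
        rw [zpow_one_add, ← mul_assoc]; rfl
      rw [e1]; rfl
    | some sk =>
      obtain ⟨s, κ⟩ := sk
      have := hp.e_a hcomm g s κ l
      have e1 : nn (gG (some (s, κ))) + l = l := by
        have : nn (gG (some (s, κ))) = 0 := rfl
        rw [this, zero_add]
      rw [e1]
      exact this
  | one => intro g l; simp
  | mul y z _ _ ihy ihz =>
    intro g l
    rw [← mul_assoc, ihz, ihy]
    rw [nn_mul]
    congr 3
    ring
  | inv y _ ih =>
    intro g l
    have := ih (g * y⁻¹) (-nn y + l)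
    rw [nn_inv]
    rw [inv_mul_cancel_right] at this
    rw [this]
    congr 3
    ring

lemma Pt.e_eq (hcomm : ∀ κ : K, κ ≠ 1 → ∃ κ', κ * κ' = κ' * κ ∧ κ' ≠ 1 ∧ κ' ≠ κ ∧ κ * κ' ≠ 1)
    (g : ↥(GG K)) : e g = e (tG ^ (nn g)) := by
  have := hp.e_inv hcomm g 1 0
  simpa using this

end pt

/-! ### Windows of points are windows of Toeplitz sequences -/

/-- every `ind U κ` acts as the right multiplication by `κ` at the points `g` with `nn g = j` -/
def Good (x : ↥(GG K) → K) (j : ℤ) (U : Par → ℤ → Prop) : Prop :=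
  ∀ κ : K, ∃ h : ind U κ ∈ GG K, ∀ g, nn g = j → x (g * ⟨ind U κ, h⟩) = x g * κ

lemma Good.congr {x : ↥(GG K) → K} {j : ℤ} {U V : Par → ℤ → Prop} (h : Good x j U)
    (e : ∀ d i, U d i ↔ V d i) : Good x j V := by
  have : U = V := by funext d i; exact propext (e d i)
  rw [← this]; exact h

lemma Good.inter (hK : commutator K = ⊤) {x : ↥(GG K) → K} {j : ℤ} {U V : Par → ℤ → Prop}
    (hU : Good x j U) (hV : Good x j V) : Good x j (fun d i => U d i ∧ V d i) := by
  intro κ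
  let S : Subgroup K :=
    { carrier := {κ | ∃ h : ind (fun d i => U d i ∧ V d i) κ ∈ GG K, ∀ g, nn g = j →
        x (g * ⟨ind (fun d i => U d i ∧ V d i) κ, h⟩) = x g * κ}
      mul_mem' := by
        rintro a b ⟨ha, ha'⟩ ⟨hb, hb'⟩
        refine ⟨by rw [← ind_mul]; exact (GG K).mul_mem ha hb, ?_⟩
        intro g hg
        have e1 : g * ⟨ind (fun d i => U d i ∧ V d i) (a * b),
            by rw [← ind_mul]; exact (GG K).mul_mem ha hb⟩ =
            g * ⟨ind (fun d i => U d i ∧ V d i) a, ha⟩ *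
              ⟨ind (fun d i => U d i ∧ V d i) b, hb⟩ := by
          rw [mul_assoc]
          congr 1
          apply Subtype.ext
          exact (ind_mul _ _ _).symm
        rw [e1, hb' _ (by rw [nn_mul, hg]; simp [nn]), ha' g hg, mul_assoc]
      one_mem' := by
        refine ⟨by rw [ind_one]; exact (GG K).one_mem, ?_⟩
        intro g hg
        have e1 : g * ⟨ind (fun d i => U d i ∧ V d i) (1 : K),
            by rw [ind_one]; exact (GG K).one_mem⟩ = g := by
          have : (⟨ind (fun d i => U d i ∧ V d i) (1 : K),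
            by rw [ind_one]; exact (GG K).one_mem⟩ : ↥(GG K)) = 1 := by
            apply Subtype.ext; exact ind_one _
          rw [this, mul_one]
        rw [e1, mul_one]
      inv_mem' := by
        rintro a ⟨ha, ha'⟩
        refine ⟨by rw [← ind_inv]; exact (GG K).inv_mem ha, ?_⟩
        intro g hg
        have e1 : (⟨ind (fun d i => U d i ∧ V d i) a⁻¹,
            by rw [← ind_inv]; exact (GG K).inv_mem ha⟩ : ↥(GG K)) =
            (⟨ind (fun d i => U d i ∧ V d i) a, ha⟩)⁻¹ := by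
          apply Subtype.ext
          exact (ind_inv _ _).symm
        rw [e1]
        have := ha' (g * (⟨ind (fun d i => U d i ∧ V d i) a, ha⟩)⁻¹)
          (by rw [nn_mul, hg]; simp [nn])
        rw [inv_mul_cancel_right] at this
        rw [this, mul_inv_cancel_right] }
  refine perfect_induction hK S ?_ κ
  intro a b
  obtain ⟨ha, ha'⟩ := hU a
  obtain ⟨hb, hb'⟩ := hV b
  have hmem : ind (fun d i => U d i ∧ V d i) ⁅a, b⁆ ∈ GG K := by
    rw [← ind_comm, commutatorElement_def]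
    exact (GG K).mul_mem ((GG K).mul_mem ((GG K).mul_mem ha hb) ((GG K).inv_mem ha))
      ((GG K).inv_mem hb)
  refine ⟨hmem, ?_⟩
  intro g hg
  have e1 : g * ⟨ind (fun d i => U d i ∧ V d i) ⁅a, b⁆, hmem⟩ =
      g * ⟨ind U a, ha⟩ * ⟨ind V b, hb⟩ * (⟨ind U a, ha⟩)⁻¹ * (⟨ind V b, hb⟩)⁻¹ := by
    have : (⟨ind (fun d i => U d i ∧ V d i) ⁅a, b⁆, hmem⟩ : ↥(GG K)) =
        ⟨ind U a, ha⟩ * ⟨ind V b, hb⟩ * (⟨ind U a, ha⟩)⁻¹ * (⟨ind V b, hb⟩)⁻¹ := by
      apply Subtype.ext
      exact (ind_comm U V a b).symm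
    rw [this]
    simp only [mul_assoc]
  have hinv : ∀ (U : Par → ℤ → Prop) (a : K) (ha : ind U a ∈ GG K)
      (_ : ∀ g, nn g = j → x (g * ⟨ind U a, ha⟩) = x g * a) (g : ↥(GG K)), nn g = j →
      x (g * (⟨ind U a, ha⟩)⁻¹) = x g * a⁻¹ := by
    intro U a ha ha' g hg
    have := ha' (g * (⟨ind U a, ha⟩)⁻¹) (by rw [nn_mul, hg]; simp [nn])
    rw [inv_mul_cancel_right] at this
    rw [this, mul_inv_cancel_right]
  rw [e1, hinv V b hb hb' _ (by simp [nn_mul, hg]; simp [nn]),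
    hinv U a ha ha' _ (by simp [nn_mul, hg]; simp [nn]),
    hb' _ (by simp [nn_mul, hg]; simp [nn]), ha' _ hg]
  simp only [commutatorElement_def, mul_assoc]

lemma Pt.good {x : ↥(GG K) → K} {e : ↥(GG K) → Fin 12} (hp : Pt x e)
    (hcomm : ∀ κ : K, κ ≠ 1 → ∃ κ', κ * κ' = κ' * κ ∧ κ' ≠ 1 ∧ κ' ≠ κ ∧ κ * κ' ≠ 1)
    (j l : ℤ) : Good x j (fun d i => toe d (i + l) = e (tG ^ (j + l))) := by
  intro κ
  have e1 : (((tG ^ l * aG (e (tG ^ (j + l))) κ * (tG ^ l)⁻¹ : ↥(GG K))) : El K) =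
      ind (fun d i => toe d (i + l) = e (tG ^ (j + l))) κ := by
    rw [← ind_conj (fun d i => toe d i = e (tG ^ (j + l))) κ l, ind_eq_aE]
    simp only [Subgroup.coe_mul, Subgroup.coe_inv, tG_zpow_coe]
    rfl
  refine ⟨by rw [← e1]; exact Subtype.property _, ?_⟩
  intro g hg
  have e2 : (⟨ind (fun d i => toe d (i + l) = e (tG ^ (j + l))) κ,
      by rw [← e1]; exact Subtype.property _⟩ : ↥(GG K)) =
      tG ^ l * aG (e (tG ^ (j + l))) κ * (tG ^ l)⁻¹ := by
    apply Subtype.ext; exact e1.symm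
  rw [e2, hp.conj, if_pos]
  rw [hp.e_eq hcomm]
  simp [hg]

/-- windows of the symbols of a point are windows of Toeplitz sequences -/
theorem Pt.window [Nontrivial K] (hK : commutator K = ⊤)
    (hcomm : ∀ κ : K, κ ≠ 1 → ∃ κ', κ * κ' = κ' * κ ∧ κ' ≠ 1 ∧ κ' ≠ κ ∧ κ * κ' ≠ 1)
    {x : ↥(GG K) → K} {e : ↥(GG K) → Fin 12} (hp : Pt x e) (R : ℕ) :
    ∃ (d : Par) (i : ℤ), ∀ l : ℕ, l < R → toe d (i + l) = e (tG ^ (l : ℤ)) := by
  have key : ∀ R : ℕ, Good x 0 (fun d i => ∀ l : ℕ, l < R + 1 →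
      toe d (i + l) = e (tG ^ (l : ℤ))) := by
    intro R
    induction R with
    | zero =>
      refine (hp.good hcomm 0 0).congr ?_
      intro d i
      constructor
      · intro h l hl
        have : l = 0 := by omega
        subst this
        simpa using h
      · intro h
        simpa using h 0 (by norm_num)
    | succ R ih =>
      refine (ih.inter hK (hp.good hcomm 0 ((R + 1 : ℕ) : ℤ))).congr ?_
      intro d i
      rw [zero_add]
      constructor
      · rintro ⟨h1, h2⟩ l hl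
        rcases Nat.lt_succ_iff_lt_or_eq.1 hl with h | h
        · exact h1 l h
        · rw [h]; exact h2
      · intro h
        exact ⟨fun l hl => h l (by omega), h (R + 1) (by omega)⟩
  by_contra hcon
  push Not at hcon
  obtain ⟨κ, hκ⟩ := exists_ne (1 : K)
  obtain ⟨hmem, hx⟩ := key R κ
  have h1 : ind (fun d i => ∀ l : ℕ, l < R + 1 → toe d (i + l) = e (tG ^ (l : ℤ))) κ = 1 := by
    ext d i
    · rw [ind_neg]
      · rfl
      · intro h
        obtain ⟨l, hl, hl'⟩ := hcon d i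
        exact hl' (h l (by omega))
    · simp
  have h2 : (⟨ind (fun d i => ∀ l : ℕ, l < R + 1 → toe d (i + l) = e (tG ^ (l : ℤ))) κ, hmem⟩ :
      ↥(GG K)) = 1 := Subtype.ext h1
  have h3 := hx 1 rfl
  rw [h2, mul_one] at h3
  exact hκ (mul_eq_left.1 h3.symm)

end Pool.Agent.MP_bced1d_lc
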