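import Pool.Agent.MP_bced1d_lc.NoComp

namespace Pool.Agent.MP_bced1d_lc

open Encodable

lemma tf_query {A : ℕ → ℕ} (hA : Computable A) {B : ℕ → ℕ → ℕ} (hB : Computable₂ B) :
    TuringFunctional fun g k => Part.some (B k (g (A k))) := by
  have h1 : TuringFunctional fun g k => Part.some (g (A k)) :=
    tf_congr (TuringFunctional.comp TuringFunctional.oracle (tf_of_computable hA)) (by
      intro g n; simp)
  have h2 : TuringFunctional fun _ k => Part.some k := tf_of_computable (f := id) Computable.id
  have h3 := TuringFunctional.pair h2 h1
  have h4 : Computable (fun p : ℕ => B p.unpair.1 p.unpair.2) :=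
    hB.comp (Computable.fst.comp Computable.unpair) (Computable.snd.comp Computable.unpair)
  exact tf_congr (TuringFunctional.comp (tf_of_computable h4) h3) (by intro g n; simp)

variable {K : Type} [Group K] {N : ℕ}

/-- the exponent sum in absolute value -/
def absn (lam : Fin N → Option (Fin 12 × K)) (w : List (Fin N × Bool)) : ℕ :=
  ((cnt lam w).1 - (cnt lam w).2) + ((cnt lam w).2 - (cnt lam w).1)

lemma absn_eq (lam : Fin N → Option (Fin 12 × K)) (w : List (Fin N × Bool)) :
    absn lam w = (evalE lam w).n.natAbs := by
  rw [← cnt_spec]
  unfold absn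
  omega

theorem medLE_names_Y0 [Fintype K] [Primcodable K]
    (lam : Fin N → Option (Fin 12 × K)) : MedLE (names (sG lam) (Y0 K)) (DNR 3) := by
  -- the index to be queried and the postprocessing
  let A : ℕ → ℕ := fun k => match (decode k : Option (List (Fin N × Bool))) with
    | some w => v2 (absn lam w)
    | none => 0
  let B : ℕ → ℕ → ℕ := fun k v => match (decode k : Option (List (Fin N × Bool))) with
    | some w => if absn lam w = 0 then 0 else v2 (absn lam w) % 2 + 2 * v
    | none => 0
  have habs : Primrec (absn lam) := by
    have hc := primrec_cnt lam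
    exact Primrec.nat_add.comp
      (Primrec.nat_sub.comp (Primrec.fst.comp hc) (Primrec.snd.comp hc))
      (Primrec.nat_sub.comp (Primrec.snd.comp hc) (Primrec.fst.comp hc))
  have hA : Computable A := by
    have h : Primrec A := by
      have := Primrec.option_casesOn
        (o := fun k : ℕ => (decode k : Option (List (Fin N × Bool))))
        (f := fun _ => 0) (g := fun _ w => v2 (absn lam w)) Primrec.decode (Primrec.const 0)
        ((primrec_v2.comp (habs.comp Primrec.snd)).to₂)
      refine this.of_eq ?_
      intro k
      simp only [A]
      cases (decode k : Option (List (Fin N × Bool))) <;> rfl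
    exact h.to_comp
  have hB : Computable₂ B := by
    have h : Primrec (fun p : ℕ × ℕ => B p.1 p.2) := by
      have := Primrec.option_casesOn
        (o := fun p : ℕ × ℕ => (decode p.1 : Option (List (Fin N × Bool))))
        (f := fun _ => 0) (g := fun p w => if absn lam w = 0 then 0 else
          v2 (absn lam w) % 2 + 2 * p.2) (Primrec.decode.comp Primrec.fst) (Primrec.const 0)
        (by
          refine Primrec.ite ?_ (Primrec.const 0) ?_
          · exact Primrec.eq.comp (habs.comp Primrec.snd) (Primrec.const 0)
          · exact Primrec.nat_add.comp (Primrec.nat_mod.comp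
              (primrec_v2.comp (habs.comp Primrec.snd)) (Primrec.const 2))
              (Primrec.nat_mul.comp (Primrec.const 2) (Primrec.snd.comp Primrec.fst)))
      refine this.of_eq ?_
      intro p
      simp only [B]
      cases (decode p.1 : Option (List (Fin N × Bool))) <;> rfl
    exact h.to_comp
  refine ⟨_, tf_query hA hB, ?_⟩
  intro q hq
  choose r' hr'2 hr'b using exists_not_bad
  let d : Par := ⟨fun i => q i + 3 * r' i, 0, by
    intro i
    have h1 := hq i
    have h2 := hr'2 i
    refine ⟨by omega, ?_, ?_⟩
    · have : (q i + 3 * r' i) % 3 = q i := by omega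
      rw [this]; exact h1.2
    · have : (q i + 3 * r' i) / 3 = r' i := by omega
      rw [this]; exact hr'b i⟩
  refine ⟨fun k => B k (q (A k)), ⟨_, Y0_nonempty_of (K := K) d, ?_⟩, fun n => Part.mem_some _⟩
  intro k
  simp only [A, B]
  cases hk : (decode k : Option (List (Fin N × Bool))) with
  | none => rfl
  | some w =>
    simp only
    have hn : nn (evalWord (sG lam) w) = (evalE lam w).n := by
      unfold nn; rw [evalWord_coe]
    rw [hn, absn_eq]
    by_cases h0 : (evalE lam w).n = 0
    · rw [h0]
      simp [toe, d]
    · have h0' : (evalE lam w).n.natAbs ≠ 0 := by simpa using h0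
      rw [if_neg h0']
      simp only [toe, if_neg h0]
      have hv : vZ (evalE lam w).n = v2 (evalE lam w).n.natAbs := rfl
      rw [hv]
      have h3 := (hq (v2 (evalE lam w).n.natAbs)).1
      simp only [d]
      omega

end Pool.Agent.MP_bced1d_lc
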